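import Pool.Agent.J4H54.GR.Energy

set_option autoImplicit false
set_option linter.unusedSectionVars false

/-!
# Existence of harmonic cocycles
-/

namespace Pool.Agent.J4H54.GR

open Finset Filter Topology

section

variable {ι : Type*} {l : Filter ι} {G : Type*} [Group G]

theorem tendsto_av {S : Finset G} {f : ι → G → ℝ} {L : G → ℝ}
    (h : ∀ g, Tendsto (fun n => f n g) l (𝓝 (L g))) :
    Tendsto (fun n => av S (f n)) l (𝓝 (av S L)) := by
  unfold av
  exact (tendsto_finsetSum _ fun g _ => h g).const_smul _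

theorem tendsto_av2 {S : Finset G} {f : ι → G → ℝ} {L : G → ℝ}
    (h : ∀ g, Tendsto (fun n => f n g) l (𝓝 (L g))) :
    Tendsto (fun n => av2 S (f n)) l (𝓝 (av2 S L)) := by
  unfold av2
  exact tendsto_av fun s => tendsto_av fun t => h _

theorem gram {X : Type*} {V : Type*} [SeminormedAddCommGroup V] [InnerProductSpace ℝ V]
    (v : X → V) (f : X →₀ ℝ) :
    (f.sum fun x a => f.sum fun y b => a * b * inner ℝ (v x) (v y)) =
      ‖f.sum fun x a => a • v x‖ ^ 2 := by
  rw [← real_inner_self_eq_norm_sq]
  unfold Finsupp.sum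
  rw [sum_inner]
  apply Finset.sum_congr rfl
  intro x _
  rw [inner_sum]
  apply Finset.sum_congr rfl
  intro y _
  rw [inner_smul_left, inner_smul_right]
  simp
  ring

/-- bounded real sequences converge along ultrafilters -/
theorem ultra_lim (U : Ultrafilter ℕ) (f : ℕ → ℝ) (C : ℝ) (h : ∀ n, |f n| ≤ C) :
    ∃ L, Tendsto f U (𝓝 L) := by
  have h1 : (U.map f : Filter ℝ) ≤ 𝓟 (Set.Icc (-C) C) := by
    rw [le_principal_iff]
    show f ⁻¹' _ ∈ (U : Filter ℕ)
    have : f ⁻¹' (Set.Icc (-C) C) = Set.univ := by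
      ext n
      simp only [Set.mem_preimage, Set.mem_univ, iff_true]
      exact abs_le.1 (h n)
    rw [this]
    exact univ_mem
  obtain ⟨L, -, hL⟩ := isCompact_Icc.ultrafilter_le_nhds (U.map f) h1
  exact ⟨L, hL⟩

end

/-- harmonic cocycles -/
structure HC {G : Type} [Group G] (S : Finset G) (H : Type) [NormedAddCommGroup H]
    [InnerProductSpace ℝ H] (π : G →* (H →ₗ[ℝ] H)) (b : G → H) : Prop where
  iso : ∀ g v w, inner ℝ (π g v) (π g w) = inner ℝ v w
  coc : ∀ g h, b (g * h) = b g + π g (b h)
  harm : av2 S b = 0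

/-- **Existence of harmonic cocycles** -/
theorem exists_harmonic {G : Type} [Group G] [Infinite G] {d : ℕ} (hG : PG d G) {S : Finset G}
    (h1 : (1 : G) ∈ S) (hinv : ∀ s ∈ S, s⁻¹ ∈ S)
    (hgen : Subgroup.closure (S : Set G) = ⊤) :
    ∃ (H : Type) (_ : NormedAddCommGroup H) (_ : InnerProductSpace ℝ H) (_ : CompleteSpace H)
      (π : G →* (H →ₗ[ℝ] H)) (b : G → H), HC S H π b ∧ av2 S (fun s => ‖b s‖ ^ 2) = 2 := by
  classical
  have hS : S.Nonempty := ⟨1, h1⟩
  have hSC := lam_SC hS hinv
  choose j hj0 hj using good hG h1 hinv hgen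
  set E : ℕ → ℝ := fun n => e (Qop S lam) (H0.of (1 : G)) (j n) with hE
  have hEpos : ∀ n, 0 < E n := hj0
  let v : ℕ → G → L2 G := fun n g => lam g (p S (j n)) - p S (j n)
  let K : ℕ → G → G → ℝ := fun n g h => inner ℝ (v n g) (v n h) / E n
  -- bounds
  have hbd : ∀ g, ∃ C : ℝ, 0 ≤ C ∧ ∀ n, ‖v n g‖ ≤ C * √(E n) := by
    intro g
    have hg : g ∈ Subgroup.closure (S : Set G) := by rw [hgen]; trivial
    induction hg using Subgroup.closure_induction with
    | mem s hs =>
      refine ⟨√((#S : ℝ) ^ 2 * 2), Real.sqrt_nonneg _, fun n => ?_⟩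
      rw [← Real.sqrt_mul (by positivity)]
      apply Real.le_sqrt_of_sq_le
      have h5 := le_av2 (S := S) (f := fun s => ‖lam s (p S (j n)) - p S (j n)‖ ^ 2)
        (fun s _ t _ => by positivity) (s := s) (t := 1) hs h1
      rw [mul_one] at h5
      rw [mul_assoc]
      have h6 := energy hS hinv lam_inner (H0.of (1 : G)) (j n)
      have h7 : (av2 S fun s => ‖lam s (p S (j n)) - p S (j n)‖ ^ 2) = 2 * E n := h6
      rw [h7] at h5
      exact h5
    | one =>
      refine ⟨0, le_rfl, fun n => ?_⟩
      simp only [v, map_one, Module.End.one_apply, sub_self, norm_zero, zero_mul]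
      exact le_rfl
    | mul x y _ _ hx hy =>
      obtain ⟨C1, hC1, h2⟩ := hx
      obtain ⟨C2, hC2, h3⟩ := hy
      refine ⟨C1 + C2, by positivity, fun n => ?_⟩
      have h4 : v n (x * y) = lam x (v n y) + v n x := by
        simp only [v]
        rw [map_mul, Module.End.mul_apply, map_sub]
        abel
      rw [h4]
      refine (norm_add_le _ _).trans ?_
      rw [norm_rho lam_inner]
      have := h2 n
      have := h3 n
      linarith
    | inv x _ hx =>
      obtain ⟨C, hC, h2⟩ := hx
      refine ⟨C, hC, fun n => ?_⟩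
      have h3 : v n x⁻¹ = -lam x⁻¹ (v n x) := by
        simp only [v]
        rw [map_sub, ← Module.End.mul_apply, ← map_mul, inv_mul_cancel, map_one,
          Module.End.one_apply]
        abel
      rw [h3, norm_neg, norm_rho lam_inner]
      exact h2 n
  have hKbd : ∀ g h, ∃ C : ℝ, ∀ n, |K n g h| ≤ C := by
    intro g h
    obtain ⟨C1, hC1, h2⟩ := hbd g
    obtain ⟨C2, hC2, h3⟩ := hbd h
    refine ⟨C1 * C2, fun n => ?_⟩
    simp only [K]
    rw [abs_div, abs_of_pos (hEpos n), div_le_iff₀ (hEpos n)]
    calc |inner ℝ (v n g) (v n h)| ≤ ‖v n g‖ * ‖v n h‖ := abs_real_inner_le_norm _ _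
      _ ≤ (C1 * √(E n)) * (C2 * √(E n)) :=
        mul_le_mul (h2 n) (h3 n) (norm_nonneg _) (by positivity)
      _ = C1 * C2 * (√(E n) * √(E n)) := by ring
      _ = C1 * C2 * E n := by rw [Real.mul_self_sqrt (hEpos n).le]
  let U : Ultrafilter ℕ := hyperfilter ℕ
  have hlim : ∀ g h, ∃ L, Tendsto (fun n => K n g h) U (𝓝 L) := by
    intro g h
    obtain ⟨C, hC⟩ := hKbd g h
    exact ultra_lim U _ C hC
  choose k hk using hlim
  have hgram : ∀ n, ∀ f : G →₀ ℝ, (f.sum fun x a => f.sum fun y b => a * b * K n x y) =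
      ‖f.sum fun x a => a • v n x‖ ^ 2 / E n := by
    intro n f
    rw [← gram]
    unfold Finsupp.sum
    rw [Finset.sum_div]
    apply Finset.sum_congr rfl
    intro x _
    rw [Finset.sum_div]
    apply Finset.sum_congr rfl
    intro y _
    simp only [K]
    ring
  have : PSD k :=
    { symm := fun x y => by
        refine tendsto_nhds_unique (hk x y) ?_
        refine (hk y x).congr fun n => ?_
        simp only [K]
        rw [real_inner_comm]
      nonneg := fun f => by
        have h2 : Tendsto (fun n => f.sum fun x a => f.sum fun y b => a * b * K n x y) U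
            (𝓝 (f.sum fun x a => f.sum fun y b => a * b * k x y)) := by
          unfold Finsupp.sum
          exact tendsto_finsetSum _ fun x _ => tendsto_finsetSum _ fun y _ =>
            (hk x y).const_mul _
        refine ge_of_tendsto' h2 fun n => ?_
        rw [hgram]
        exact div_nonneg (by positivity) (hEpos n).le }
  have hk1 : ∀ g, k g 1 = 0 := by
    intro g
    refine tendsto_nhds_unique (hk g 1) ?_
    refine tendsto_const_nhds.congr fun n => ?_
    simp only [K, v, map_one, Module.End.one_apply, sub_self, inner_zero_right, zero_div]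
  have hkinv : ∀ g x y, k (g * x) (g * y) - k (g * x) g - k g (g * y) + k g g = k x y := by
    intro g x y
    refine tendsto_nhds_unique ((((hk (g * x) (g * y)).sub (hk (g * x) g)).sub
      (hk g (g * y))).add (hk g g)) ?_
    refine (hk x y).congr fun n => ?_
    simp only [K]
    rw [← sub_div, ← sub_div, ← add_div]
    congr 1
    have h2 : ∀ x, lam g (v n x) = v n (g * x) - v n g := by
      intro x
      simp only [v]
      rw [map_mul, Module.End.mul_apply, map_sub]
      abel
    rw [← lam_inner g (v n x) (v n y), h2, h2]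
    generalize v n (g * x) = a1
    generalize v n (g * y) = a2
    generalize v n g = a3
    rw [inner_sub_left, inner_sub_right, inner_sub_right]
    ring
  obtain ⟨H, i1, i2, i3, π, b, hiso, hcoc, hb⟩ := gns k hk1 hkinv
  refine ⟨H, i1, i2, i3, π, b, ⟨hiso, hcoc, ?_⟩, ?_⟩
  · -- harmonicity
    have h2 : (‖av2 S b‖ ^ 2 : ℝ) = av2 S fun x => av2 S fun y => k x y := by
      have e1 : ∀ s, inner ℝ (b s) (av2 S b) = av2 S fun y => k s y := by
        intro s
        rw [real_inner_comm, inner_av2]
        congr 1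
        ext y
        rw [hb, PSD.symm (K := k)]
      rw [← real_inner_self_eq_norm_sq, inner_av2]
      exact congrArg (av2 S) (funext e1)
    have h3 : Tendsto (fun n => av2 S fun x => av2 S fun y => K n x y) U
        (𝓝 (av2 S fun x => av2 S fun y => k x y)) :=
      tendsto_av2 fun x => tendsto_av2 fun y => hk x y
    have h4 : ∀ n, (av2 S fun x => av2 S fun y => K n x y) = ‖av2 S (v n)‖ ^ 2 / E n := by
      intro n
      rw [← real_inner_self_eq_norm_sq, inner_av2]
      have e1 : ∀ (c : ℝ) (f : G → ℝ), av2 S (fun x => f x / c) = av2 S f / c := by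
        intro c f
        have := av2_smul S c⁻¹ f
        simp only [smul_eq_mul] at this
        rw [div_eq_inv_mul, ← this]
        congr 1
        ext x
        rw [div_eq_inv_mul]
      rw [← e1]
      congr 1
      ext x
      simp only [K]
      rw [e1]
      congr 1
      rw [real_inner_comm, inner_av2]
      congr 1
      ext y
      rw [real_inner_comm]
    have h5 : ∀ n, av2 S (v n) = (Qop S lam ^ 2) (p S (j n)) - p S (j n) := by
      intro n
      rw [Qop_two]
      simp only [v]
      rw [av2_sub, av2_const hS]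
    have h6 : ∀ n, ‖av2 S (v n)‖ ^ 2 / E n ≤ 1 / ((n : ℝ) + 1) := by
      intro n
      have h7 : ‖av2 S (v n)‖ ^ 2 =
          e (Qop S lam) (H0.of (1 : G)) (j n) - e (Qop S lam) (H0.of (1 : G)) (j n + 1) := by
        rw [h5, ← hSC.e_sub, add_comm (j n) 2, pow_add, Module.End.mul_apply]
        rfl
      rw [h7, div_le_div_iff₀ (hEpos n) (by positivity)]
      have := hj n
      linarith
    have h7 : Tendsto (fun n : ℕ => 1 / ((n : ℝ) + 1)) U (𝓝 0) :=
      tendsto_one_div_add_atTop_nhds_zero_nat.mono_left (by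
        rw [← Nat.cofinite_eq_atTop]
        exact hyperfilter_le_cofinite)
    have h8 : (av2 S fun x => av2 S fun y => k x y) ≤ 0 := by
      refine le_of_tendsto_of_tendsto' h3 h7 fun n => ?_
      rw [h4]
      exact h6 n
    rw [← h2] at h8
    have h9 : ‖av2 S b‖ ^ 2 = 0 := le_antisymm h8 (by positivity)
    rw [← norm_eq_zero]
    exact pow_eq_zero_iff two_ne_zero |>.1 h9
  · -- normalization
    have h2 : (fun s => ‖b s‖ ^ 2) = fun s => k s s := by
      ext s
      rw [← real_inner_self_eq_norm_sq, hb]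
    rw [h2]
    have h3 : Tendsto (fun n => av2 S fun x => K n x x) U (𝓝 (av2 S fun x => k x x)) :=
      tendsto_av2 fun x => hk x x
    refine tendsto_nhds_unique h3 ?_
    refine tendsto_const_nhds.congr fun n => ?_
    have h4 : (fun x => K n x x) = fun x => (E n)⁻¹ • ‖v n x‖ ^ 2 := by
      ext x
      simp only [K]
      rw [real_inner_self_eq_norm_sq, div_eq_inv_mul, smul_eq_mul]
    rw [h4, av2_smul]
    have h6 : (av2 S fun s => ‖v n s‖ ^ 2) = 2 * E n :=
      energy hS hinv lam_inner (H0.of (1 : G)) (j n)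
    rw [h6, smul_eq_mul]
    field_simp [(hEpos n).ne']

end Pool.Agent.J4H54.GR
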