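import Pool.Agent.J4H54.GR.Energy

set_option autoImplicit false
set_option linter.unusedSectionVars false

/-!
# Groups of isometries of polynomial growth
-/

namespace Pool.Agent.J4H54.GR

open Finset Filter Topology

section near

variable {G : Type} [Group G] {A : Type*} [NormedRing A] [NormedAlgebra ℝ A] {R : G →* A}

/-- the distance to the identity -/
noncomputable def Nm (R : G →* A) (g : G) : ℝ := ‖R g - 1‖

theorem Nm_nonneg (g : G) : 0 ≤ Nm R g := norm_nonneg _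

theorem Nm_one : Nm R 1 = 0 := by unfold Nm; rw [map_one, sub_self, norm_zero]

theorem Nm_eq_zero {g : G} (h : Nm R g = 0) : R g = 1 := sub_eq_zero.1 (norm_eq_zero.1 h)

variable (hR : ∀ g, ‖R g‖ ≤ 1)
include hR

theorem mul_R_le (a : A) (g : G) : ‖a * R g‖ ≤ ‖a‖ :=
  (norm_mul_le _ _).trans (mul_le_of_le_one_right (norm_nonneg _) (hR g))

theorem R_mul_le (a : A) (g : G) : ‖R g * a‖ ≤ ‖a‖ :=
  (norm_mul_le _ _).trans (mul_le_of_le_one_left (norm_nonneg _) (hR g))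

theorem Nm_mul (g h : G) : Nm R (g * h) ≤ Nm R g + Nm R h := by
  unfold Nm
  have h1 : R (g * h) - 1 = (R g - 1) * R h + (R h - 1) := by
    rw [map_mul]
    noncomm_ring
  rw [h1]
  refine (norm_add_le _ _).trans ?_
  have := mul_R_le hR (R g - 1) h
  linarith

theorem Nm_inv (g : G) : Nm R g⁻¹ = Nm R g := by
  have key : ∀ g : G, Nm R g⁻¹ ≤ Nm R g := by
    intro g
    unfold Nm
    have h1 : R g⁻¹ - 1 = R g⁻¹ * (1 - R g) := by
      rw [mul_sub, mul_one, ← map_mul, inv_mul_cancel, map_one]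
    rw [h1, norm_sub_rev (R g) 1]
    exact R_mul_le hR _ _
  apply le_antisymm (key g)
  have := key g⁻¹
  rwa [inv_inv] at this

theorem Nm_div (g h : G) : Nm R (g⁻¹ * h) ≤ ‖R h - R g‖ := by
  unfold Nm
  have h1 : R (g⁻¹ * h) - 1 = R g⁻¹ * (R h - R g) := by
    rw [map_mul, mul_sub, ← map_mul, ← map_mul, inv_mul_cancel, map_one]
  rw [h1]
  exact R_mul_le hR _ _

theorem Nm_comm (g h : G) : Nm R (g * h * g⁻¹ * h⁻¹) ≤ 2 * Nm R g * Nm R h := by
  unfold Nm
  have h1 : R (g * h * g⁻¹ * h⁻¹) - 1 =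
      ((R g - 1) * (R h - 1) - (R h - 1) * (R g - 1)) * R g⁻¹ * R h⁻¹ := by
    have e1 : (R g - 1) * (R h - 1) - (R h - 1) * (R g - 1) = R g * R h - R h * R g := by
      noncomm_ring
    rw [e1, sub_mul, sub_mul, ← map_mul, ← map_mul, ← map_mul, ← map_mul, ← map_mul, ← map_mul]
    congr 1
    have e2 : h * g * g⁻¹ * h⁻¹ = 1 := by group
    rw [e2, map_one]
  rw [h1]
  refine (mul_R_le hR _ _).trans ((mul_R_le hR _ _).trans ?_)
  refine (norm_sub_le _ _).trans ?_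
  have h2 := norm_mul_le (R g - 1) (R h - 1)
  have h3 := norm_mul_le (R h - 1) (R g - 1)
  linarith

theorem Nm_le_two (g : G) : Nm R g ≤ 2 := by
  have h1 : ‖(1 : A)‖ ≤ 1 := by
    have := hR 1
    rwa [map_one] at this
  unfold Nm
  refine (norm_sub_le _ _).trans ?_
  have := hR g
  linarith

theorem Nm_pow (g : G) (k : ℕ) : Nm R (g ^ k) ≤ k * Nm R g := by
  induction k with
  | zero => rw [pow_zero, Nm_one]; simp
  | succ k ih =>
    rw [pow_succ]
    refine (Nm_mul hR _ _).trans ?_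
    push_cast
    linarith

/-- powers move away from the identity -/
theorem Nm_pow_lower (g : G) {c : ℕ} (hc : 1 ≤ c) (h : c * Nm R g ≤ 1) :
    Nm R g ≤ Nm R (g ^ c) := by
  set x := Nm R g with hx
  have hx0 : 0 ≤ x := Nm_nonneg g
  -- `‖R (g ^ c) - 1 - c (R g - 1)‖ ≤ c ^ 2 x ^ 2 / 2`
  have key : ∀ c : ℕ, ‖R (g ^ c) - 1 - (c : A) * (R g - 1)‖ ≤ x * x * (c * (c - 1) / 2) := by
    intro c
    induction c with
    | zero => simp
    | succ c ih =>
      have e1 : R (g ^ (c + 1)) - 1 - ((c + 1 : ℕ) : A) * (R g - 1) =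
          (R (g ^ c) - 1 - (c : A) * (R g - 1)) + (R (g ^ c) - 1) * (R g - 1) := by
        rw [pow_succ, map_mul, Nat.cast_add, Nat.cast_one]
        noncomm_ring
      rw [e1]
      refine (norm_add_le _ _).trans ?_
      have e2 : ‖(R (g ^ c) - 1) * (R g - 1)‖ ≤ (c * x) * x :=
        (norm_mul_le _ _).trans (mul_le_mul_of_nonneg_right (Nm_pow hR g c) hx0)
      push_cast
      nlinarith
  have hc' : (1 : ℝ) ≤ c := by exact_mod_cast hc
  have h1 := key c
  have h2 : ‖(c : A) * (R g - 1)‖ ≤ ‖R (g ^ c) - 1‖ + x * x * (c * (c - 1) / 2) := by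
    have e3 : (c : A) * (R g - 1) =
        (R (g ^ c) - 1) - (R (g ^ c) - 1 - (c : A) * (R g - 1)) := by abel
    rw [e3]
    refine (norm_sub_le _ _).trans ?_
    linarith
  have h3 : ‖(c : A) * (R g - 1)‖ = c * x := by
    have e4 : (c : A) * (R g - 1) = (c : ℝ) • (R g - 1) := by
      rw [← nsmul_eq_mul, Nat.cast_smul_eq_nsmul]
    rw [e4, norm_smul, Real.norm_natCast]
    rfl
  rw [h3] at h2
  have h4 : ‖R (g ^ c) - 1‖ = Nm R (g ^ c) := rfl
  rw [h4] at h2
  have h5 : x * x * (c * (c - 1) / 2) ≤ x * ((c - 1) / 2) := by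
    have e5 : x * x * (c * (c - 1) / 2) = x * ((c * x) * ((c - 1) / 2)) := by ring
    rw [e5]
    apply mul_le_mul_of_nonneg_left _ hx0
    have e6 : (0 : ℝ) ≤ (c - 1) / 2 := by linarith
    nlinarith
  nlinarith

/-- no small subgroups -/
theorem no_small (g : G) (h : ∀ k : ℕ, Nm R (g ^ k) ≤ 1 / 2) : Nm R g = 0 := by
  have h1 : ∀ g : G, Nm R g ≤ 1 / 2 → 3 / 2 * Nm R g ≤ Nm R (g ^ 2) := by
    intro g hg
    have e1 : (2 : ℝ) • (R g - 1) = (R (g ^ 2) - 1) - (R g - 1) * (R g - 1) := by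
      rw [map_pow, two_smul]
      noncomm_ring
    have e2 : ‖(2 : ℝ) • (R g - 1)‖ ≤ Nm R (g ^ 2) + Nm R g * Nm R g := by
      rw [e1]
      exact (norm_sub_le _ _).trans (add_le_add le_rfl (norm_mul_le _ _))
    rw [norm_smul] at e2
    have e3 : ‖(2 : ℝ)‖ = 2 := by norm_num
    rw [e3] at e2
    have e4 : ‖R g - 1‖ = Nm R g := rfl
    rw [e4] at e2
    have e5 := Nm_nonneg (R := R) g
    nlinarith
  have h2 : ∀ j : ℕ, (3 / 2 : ℝ) ^ j * Nm R g ≤ Nm R (g ^ (2 ^ j)) := by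
    intro j
    induction j with
    | zero => simp
    | succ j ih =>
      have := h1 (g ^ 2 ^ j) (h _)
      rw [← pow_mul, ← pow_succ] at this
      calc (3 / 2 : ℝ) ^ (j + 1) * Nm R g = 3 / 2 * ((3 / 2 : ℝ) ^ j * Nm R g) := by ring
        _ ≤ 3 / 2 * Nm R (g ^ 2 ^ j) := by linarith
        _ ≤ _ := this
  by_contra hne
  have hpos : 0 < Nm R g := lt_of_le_of_ne (Nm_nonneg g) (Ne.symm hne)
  have h3 : Tendsto (fun j : ℕ => (3 / 2 : ℝ) ^ j * Nm R g) atTop atTop :=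
    (tendsto_pow_atTop_atTop_of_one_lt (by norm_num)).atTop_mul_const hpos
  obtain ⟨j, hj⟩ := (h3.eventually (eventually_gt_atTop (1 / 2))).exists
  have := h2 j
  have := h (2 ^ j)
  linarith

/-- a commutator of a nearly trivial element, commuting with both, is trivial -/
theorem comm_trivial {g k : G} (hg : Nm R g ≤ 1 / 8)
    (h2 : R (g * k * g⁻¹ * k⁻¹) * R k = R k * R (g * k * g⁻¹ * k⁻¹)) :
    R (g * k * g⁻¹ * k⁻¹) = 1 := by
  set c := g * k * g⁻¹ * k⁻¹ with hc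
  apply Nm_eq_zero
  apply no_small hR
  intro n
  have e1 : R (g * k ^ n * g⁻¹) = R (c ^ n * k ^ n) := by
    have h3 : g * k ^ n * g⁻¹ = (c * k) ^ n := by
      have h4 : c * k = g * k * g⁻¹ := by rw [hc]; group
      rw [h4, conj_pow]
    rw [h3, map_pow R (c * k) n, map_mul R c k, (show Commute (R c) (R k) from h2).mul_pow,
      map_mul R (c ^ n) (k ^ n), map_pow R c n, map_pow R k n]
  have e2 : R (c ^ n) = R (g * k ^ n * g⁻¹ * (k ^ n)⁻¹) := by
    rw [map_mul R (g * k ^ n * g⁻¹), e1, ← map_mul]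
    congr 1
    group
  have e3 : Nm R (c ^ n) = Nm R (g * k ^ n * g⁻¹ * (k ^ n)⁻¹) := by
    unfold Nm
    rw [e2]
  rw [e3]
  refine (Nm_comm hR _ _).trans ?_
  have h5 := Nm_le_two hR (k ^ n)
  have h6 := Nm_nonneg (R := R) (k ^ n)
  have h7 := Nm_nonneg (R := R) g
  nlinarith

end near

end Pool.Agent.J4H54.GR
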