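import Pool.Agent.J4H54.GR.Comm

set_option autoImplicit false
set_option linter.unusedSectionVars false

/-!
# Groups of isometries of polynomial growth are virtually abelian
-/

namespace Pool.Agent.J4H54.GR

open Finset Filter Topology
open scoped Pointwise

section wd

variable {G : Type} [Group G]

/-- ordered products of powers -/
def wd : ℕ → (ℕ → G) → (ℕ → ℕ) → G
  | 0, _, _ => 1
  | m + 1, f, a => f 0 ^ a 0 * wd m (fun i => f (i + 1)) fun i => a (i + 1)

theorem wd_mem {T : Set G} (h1 : (1 : G) ∈ T) (K : ℕ) (m : ℕ) : ∀ (f : ℕ → G) (a ℓ : ℕ → ℕ),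
    (∀ i, f i ∈ T ^ ℓ i) → (∀ i, a i ≤ K) → wd m f a ∈ T ^ (K * ∑ i ∈ range m, ℓ i) := by
  induction m with
  | zero =>
    intro f a ℓ _ _
    rw [sum_range_zero, mul_zero, pow_zero]
    exact Set.mem_one.2 rfl
  | succ m ih =>
    intro f a ℓ hf ha
    have h2 := ih (fun i => f (i + 1)) (fun i => a (i + 1)) (fun i => ℓ (i + 1))
      (fun i => hf (i + 1)) fun i => ha (i + 1)
    have h3 : f 0 ^ a 0 ∈ T ^ (K * ℓ 0) := by
      have h4 : f 0 ^ a 0 ∈ (T ^ ℓ 0) ^ a 0 := Set.pow_mem_pow (hf 0)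
      rw [← pow_mul] at h4
      refine Set.pow_subset_pow_right h1 ?_ h4
      rw [mul_comm]
      exact Nat.mul_le_mul_right _ (ha 0)
    rw [sum_range_succ', add_comm, mul_add, pow_add]
    exact Set.mul_mem_mul h3 h2

variable {A : Type*} [NormedRing A] [NormedAlgebra ℝ A] {R : G →* A} (hR : ∀ g, ‖R g‖ ≤ 1)
include hR

theorem wd_small {K : ℕ} {ε : ℝ} (hK : 2 * K * ε ≤ 1) (m : ℕ) :
    ∀ (f : ℕ → G) (a : ℕ → ℕ), (∀ i, Nm R (f (i + 1)) ≤ 2 * ε * Nm R (f i)) →
      (∀ i, a i + 1 ≤ K) → Nm R (wd m f a) ≤ K * Nm R (f 0) := by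
  induction m with
  | zero =>
    intro f a _ _
    rw [wd, Nm_one]
    exact mul_nonneg (Nat.cast_nonneg _) (Nm_nonneg _)
  | succ m ih =>
    intro f a hf ha
    rw [wd]
    refine (Nm_mul hR _ _).trans ?_
    have h1 := Nm_pow hR (f 0) (a 0)
    have h2 := ih (fun i => f (i + 1)) (fun i => a (i + 1)) (fun i => hf (i + 1))
      fun i => ha (i + 1)
    have h3 := hf 0
    have h4 := Nm_nonneg (R := R) (f 0)
    have h5 : (a 0 : ℝ) + 1 ≤ K := by exact_mod_cast ha 0
    have h6 : (K : ℝ) * Nm R (f (0 + 1)) ≤ K * (2 * ε * Nm R (f 0)) :=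
      mul_le_mul_of_nonneg_left h3 (Nat.cast_nonneg _)
    have h7 : (K : ℝ) * (2 * ε * Nm R (f 0)) ≤ 1 * Nm R (f 0) := by
      calc (K : ℝ) * (2 * ε * Nm R (f 0)) = (2 * K * ε) * Nm R (f 0) := by ring
        _ ≤ 1 * Nm R (f 0) := mul_le_mul_of_nonneg_right hK h4
    have h8 : ((a 0 : ℝ) + 1) * Nm R (f 0) ≤ K * Nm R (f 0) :=
      mul_le_mul_of_nonneg_right h5 h4
    simp only [zero_add] at h2 h6
    linarith

theorem wd_inj {K : ℕ} {ε : ℝ} (hε : 0 ≤ ε) (hK : 8 * K * ε ≤ 1) (m : ℕ) :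
    ∀ (f : ℕ → G) (a a' : ℕ → ℕ), (∀ i, Nm R (f (i + 1)) ≤ 2 * ε * Nm R (f i)) →
      (∀ i, 0 < Nm R (f i)) → K * Nm R (f 0) ≤ 1 →
      (∀ i, a i + 1 ≤ K) → (∀ i, a' i + 1 ≤ K) → wd m f a = wd m f a' →
      ∀ i < m, a i = a' i := by
  induction m with
  | zero =>
    intro f a a' _ _ _ _ _ _ i hi
    omega
  | succ m ih =>
    -- the first exponents agree
    have key : ∀ (f : ℕ → G) (a a' : ℕ → ℕ), (∀ i, Nm R (f (i + 1)) ≤ 2 * ε * Nm R (f i)) →
        (∀ i, 0 < Nm R (f i)) → K * Nm R (f 0) ≤ 1 →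
        (∀ i, a i + 1 ≤ K) → (∀ i, a' i + 1 ≤ K) → wd (m + 1) f a = wd (m + 1) f a' →
        ¬ a' 0 < a 0 := by
      intro f a a' hf hpos hK1 ha ha' heq hlt
      set c := a 0 - a' 0 with hc
      have hc1 : 1 ≤ c := by omega
      have hcK : c + 1 ≤ K := by
        have := ha 0
        omega
      rw [wd, wd] at heq
      set u := wd m (fun i => f (i + 1)) fun i => a (i + 1) with hu
      set u' := wd m (fun i => f (i + 1)) fun i => a' (i + 1) with hu'
      have h1 : f 0 ^ c = u' * u⁻¹ := by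
        have h2 : f 0 ^ a 0 = f 0 ^ a' 0 * f 0 ^ c := by
          rw [← pow_add]
          congr 1
          omega
        rw [h2, mul_assoc] at heq
        have h3 := mul_left_cancel heq
        rw [← h3, mul_inv_cancel_right]
      have h2 : 2 * K * ε ≤ 1 := by
        have : (0 : ℝ) ≤ K := Nat.cast_nonneg _
        nlinarith
      have h3 := wd_small hR h2 m (fun i => f (i + 1)) (fun i => a (i + 1))
        (fun i => hf (i + 1)) fun i => ha (i + 1)
      have h4 := wd_small hR h2 m (fun i => f (i + 1)) (fun i => a' (i + 1))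
        (fun i => hf (i + 1)) fun i => ha' (i + 1)
      have h5 : Nm R (f 0 ^ c) ≤ K * Nm R (f (0 + 1)) + K * Nm R (f (0 + 1)) := by
        rw [h1]
        refine (Nm_mul hR _ _).trans ?_
        rw [Nm_inv hR]
        exact add_le_add h4 h3
      have h6 : Nm R (f 0) ≤ Nm R (f 0 ^ c) := by
        apply Nm_pow_lower hR _ hc1
        refine le_trans (mul_le_mul_of_nonneg_right ?_ (Nm_nonneg _)) hK1
        exact_mod_cast (by omega : c ≤ K)
      have h7 := hf 0
      have h8 := hpos 0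
      have h9 : (K : ℝ) * Nm R (f (0 + 1)) ≤ K * (2 * ε * Nm R (f 0)) :=
        mul_le_mul_of_nonneg_left h7 (Nat.cast_nonneg _)
      have h10 : (K : ℝ) * (2 * ε * Nm R (f 0)) ≤ 1 / 4 * Nm R (f 0) := by
        calc (K : ℝ) * (2 * ε * Nm R (f 0)) = (2 * K * ε) * Nm R (f 0) := by ring
          _ ≤ 1 / 4 * Nm R (f 0) := by
            apply mul_le_mul_of_nonneg_right _ h8.le
            linarith
      linarith
    intro f a a' hf hpos hK1 ha ha' heq
    have h0 : a 0 = a' 0 := by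
      have h1 := key f a a' hf hpos hK1 ha ha' heq
      have h2 := key f a' a hf hpos hK1 ha' ha heq.symm
      omega
    have heq2 : wd m (fun i => f (i + 1)) (fun i => a (i + 1)) =
        wd m (fun i => f (i + 1)) fun i => a' (i + 1) := by
      rw [wd, wd, h0] at heq
      exact mul_left_cancel heq
    have hK2 : (K : ℝ) * Nm R (f (0 + 1)) ≤ 1 := by
      have h7 := hf 0
      have h8 := hpos 0
      have h9 : (K : ℝ) * Nm R (f (0 + 1)) ≤ K * (2 * ε * Nm R (f 0)) :=
        mul_le_mul_of_nonneg_left h7 (Nat.cast_nonneg _)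
      have h10 : (K : ℝ) * (2 * ε * Nm R (f 0)) ≤ K * Nm R (f 0) := by
        rcases Nat.eq_zero_or_pos K with h11 | h11
        · rw [h11]; simp
        · have h12 : (1 : ℝ) ≤ K := by exact_mod_cast h11
          have h13 : 2 * ε ≤ 1 := by nlinarith
          apply mul_le_mul_of_nonneg_left _ (Nat.cast_nonneg _)
          calc 2 * ε * Nm R (f 0) ≤ 1 * Nm R (f 0) := mul_le_mul_of_nonneg_right h13 h8.le
            _ = Nm R (f 0) := one_mul _
      linarith
    have h3 := ih (fun i => f (i + 1)) (fun i => a (i + 1)) (fun i => a' (i + 1))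
      (fun i => hf (i + 1)) (fun i => hpos (i + 1)) hK2 (fun i => ha (i + 1))
      (fun i => ha' (i + 1)) heq2
    intro i hi
    rcases Nat.eq_zero_or_pos i with h4 | h4
    · rw [h4]
      exact h0
    · obtain ⟨j, rfl⟩ : ∃ j, i = j + 1 := ⟨i - 1, by omega⟩
      exact h3 j (by omega)

/-- elements near the identity commute -/
theorem near_comm {d : ℕ} (hG : PG d G) {S' : Finset G}
    (hS' : ∀ s ∈ S', Nm R s ≤ 1 / (16 * (2 ^ d + 1))) :
    ∀ x ∈ S', ∀ y ∈ S', R x * R y = R y * R x := by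
  classical
  intro x hx y hy
  by_contra hne
  set K : ℕ := 2 ^ d + 1 with hK
  set ε : ℝ := 1 / (16 * K) with hε
  have hK0 : (0 : ℝ) < K := by positivity
  have hK1 : (1 : ℝ) ≤ K := by
    rw [hK]
    push_cast
    linarith [pow_pos (by norm_num : (0 : ℝ) < 2) d]
  have hε0 : 0 < ε := by positivity
  have hKε : 16 * K * ε = 1 := by
    rw [hε]
    field_simp
  have hS'' : ∀ s ∈ S', Nm R s ≤ ε := by
    intro s hs
    have := hS' s hs
    rw [hε, hK]
    push_cast
    exact this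
  have hε1 : ε ≤ 1 / 8 := by nlinarith
  -- the chain of commutators
  let Γ := Subgroup.closure (S' : Set G)
  let X := {h : G // h ∈ Γ ∧ (∃ g ∈ S', ∃ k ∈ Γ, h = g * k * g⁻¹ * k⁻¹) ∧ 0 < Nm R h}
  have comm_of_zero : ∀ g h : G, Nm R (g * h * g⁻¹ * h⁻¹) = 0 → R g * R h = R h * R g := by
    intro g h h1
    have h2 := Nm_eq_zero h1
    have h3 : R (g * h * g⁻¹ * h⁻¹) * (R h * R g) = R g * R h := by
      rw [← map_mul, ← map_mul, ← map_mul]
      congr 1
      group
    rw [h2, one_mul] at h3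
    exact h3.symm
  have hstep : ∀ h : X, ∃ h' : X, ∃ g ∈ S', h'.1 = g * h.1 * g⁻¹ * h.1⁻¹ := by
    rintro ⟨h, hΓ, ⟨g, hg, k, hk, hgk⟩, hpos⟩
    by_contra hcon
    push Not at hcon
    have h1 : ∀ g' ∈ S', R g' * R h = R h * R g' := by
      intro g' hg'
      apply comm_of_zero
      by_contra h2
      have h3 : g' * h * g'⁻¹ * h⁻¹ ∈ Γ := by
        have := Subgroup.subset_closure (G := G) hg'
        exact Γ.mul_mem (Γ.mul_mem (Γ.mul_mem this hΓ) (Γ.inv_mem this)) (Γ.inv_mem hΓ)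
      exact hcon ⟨g' * h * g'⁻¹ * h⁻¹, h3, ⟨g', hg', h, hΓ, rfl⟩,
        lt_of_le_of_ne (Nm_nonneg _) (Ne.symm h2)⟩ g' hg' rfl
    have h2 : ∀ g' ∈ Γ, R g' * R h = R h * R g' := by
      intro g' hg'
      induction hg' using Subgroup.closure_induction with
      | mem s hs => exact h1 s hs
      | one => rw [map_one, one_mul, mul_one]
      | mul a b _ _ ha hb => rw [map_mul, mul_assoc, hb, ← mul_assoc, ha, mul_assoc]
      | inv a _ ha =>
        have h3 : R a⁻¹ * (R a * R h) * R a⁻¹ = R a⁻¹ * (R h * R a) * R a⁻¹ := by rw [ha]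
        have h4 : R a⁻¹ * R a = 1 := by rw [← map_mul, inv_mul_cancel, map_one]
        have h5 : R a * R a⁻¹ = 1 := by rw [← map_mul, mul_inv_cancel, map_one]
        rw [← mul_assoc, h4, one_mul, ← mul_assoc, mul_assoc _ (R a), h5, mul_one] at h3
        exact h3.symm
    have h3 := h2 k hk
    have h4 : R h = 1 := by
      rw [hgk]
      apply comm_trivial hR ((hS'' g hg).trans hε1)
      rw [← hgk]
      exact h3.symm
    have h5 : Nm R h = 0 := by
      unfold Nm
      rw [h4, sub_self, norm_zero]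
    linarith
  choose nx g hgS hnx using hstep
  have hx0 : 0 < Nm R (x * y * x⁻¹ * y⁻¹) :=
    lt_of_le_of_ne (Nm_nonneg _) fun h => hne (comm_of_zero x y h.symm)
  have hxΓ : x ∈ Γ := Subgroup.subset_closure hx
  have hyΓ : y ∈ Γ := Subgroup.subset_closure hy
  let x0 : X := ⟨x * y * x⁻¹ * y⁻¹,
    Γ.mul_mem (Γ.mul_mem (Γ.mul_mem hxΓ hyΓ) (Γ.inv_mem hxΓ)) (Γ.inv_mem hyΓ),
    ⟨x, hx, y, hyΓ, rfl⟩, hx0⟩
  let F : ℕ → X := fun i => Nat.rec x0 (fun _ h => nx h) i
  let f : ℕ → G := fun i => (F i).1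
  have hf0 : f 0 = x * y * x⁻¹ * y⁻¹ := rfl
  have hfs : ∀ i, f (i + 1) = g (F i) * f i * (g (F i))⁻¹ * (f i)⁻¹ := fun i => hnx (F i)
  have hfpos : ∀ i, 0 < Nm R (f i) := fun i => (F i).2.2.2
  have hfdec : ∀ i, Nm R (f (i + 1)) ≤ 2 * ε * Nm R (f i) := by
    intro i
    rw [hfs]
    refine (Nm_comm hR _ _).trans ?_
    have := hS'' _ (hgS (F i))
    have := (hfpos i).le
    nlinarith
  have hf0small : K * Nm R (f 0) ≤ 1 := by
    have h1 := Nm_comm hR x y
    have h2 := hS'' x hx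
    have h3 := hS'' y hy
    have h4 := Nm_nonneg (R := R) x
    have h5 := Nm_nonneg (R := R) y
    rw [hf0]
    have h6 : 2 * Nm R x * Nm R y ≤ 2 * ε * ε := by nlinarith
    have h7 : K * (2 * ε * ε) ≤ 1 := by nlinarith
    nlinarith
  -- word lengths
  set T : Finset G := insert 1 (S' ∪ S'.image (·⁻¹)) with hT
  have hT1 : (1 : G) ∈ (T : Set G) := by simp [hT]
  have hTS : ∀ s ∈ S', s ∈ (T : Set G) := by
    intro s hs
    simp [hT, hs]
  have hTS' : ∀ s ∈ S', s⁻¹ ∈ (T : Set G) := by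
    intro s hs
    simp [hT, hs]
  have hTinv : (T : Set G)⁻¹ = T := by
    ext s
    simp only [hT, Set.mem_inv, coe_insert, coe_union, coe_image, Set.mem_insert_iff,
      Set.mem_union, Set.mem_image, mem_coe]
    constructor
    · rintro (h | h | ⟨t, ht, hts⟩)
      · left; exact inv_eq_one.1 h
      · right; right; exact ⟨_, h, inv_inv s⟩
      · right; left
        rw [inv_inj] at hts
        rwa [← hts]
    · rintro (h | h | ⟨t, ht, hts⟩)
      · left; exact inv_eq_one.2 h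
      · right; right; exact ⟨_, h, rfl⟩
      · right; left
        rw [← hts, inv_inv]
        exact ht
  have hTpow : ∀ (n : ℕ) (z : G), z ∈ (T : Set G) ^ n → z⁻¹ ∈ (T : Set G) ^ n := by
    intro n z hz
    have h1 : z⁻¹ ∈ ((T : Set G) ^ n)⁻¹ := Set.inv_mem_inv.2 hz
    rwa [← inv_pow, hTinv] at h1
  let ℓ : ℕ → ℕ := fun i => 6 * 2 ^ i - 2
  have hℓ : ∀ i, ℓ (i + 1) = 2 * ℓ i + 2 := by
    intro i
    simp only [ℓ]
    have : 1 ≤ 2 ^ i := Nat.one_le_two_pow
    rw [pow_succ]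
    omega
  have hfmem : ∀ i, f i ∈ (T : Set G) ^ ℓ i := by
    intro i
    induction i with
    | zero =>
      have h4 : ℓ 0 = 1 + 1 + 1 + 1 := rfl
      rw [h4, pow_add, pow_add, pow_add, pow_one, hf0]
      exact Set.mul_mem_mul (Set.mul_mem_mul (Set.mul_mem_mul (hTS x hx) (hTS y hy))
        (hTS' x hx)) (hTS' y hy)
    | succ i ih =>
      have h4 : ℓ (i + 1) = 1 + ℓ i + 1 + ℓ i := by rw [hℓ]; ring
      rw [h4, pow_add, pow_add, pow_add, pow_one, hfs]
      exact Set.mul_mem_mul (Set.mul_mem_mul (Set.mul_mem_mul (hTS _ (hgS _)) ih)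
        (hTS' _ (hgS _))) (hTpow _ _ ih)
  have hsum : ∀ m, ∑ i ∈ range m, ℓ i ≤ 6 * 2 ^ m := by
    intro m
    induction m with
    | zero => simp
    | succ m ih =>
      rw [sum_range_succ, pow_succ]
      simp only [ℓ] at ih ⊢
      omega
  -- counting
  obtain ⟨C, hC⟩ := hG T
  have hcount : ∀ m, K ^ m ≤ C * (K * (6 * 2 ^ m)) ^ d := by
    intro m
    have hKpos : 1 ≤ K := Nat.le_add_left 1 _
    have hL : 1 ≤ K * (6 * 2 ^ m) := Nat.mul_pos hKpos (by positivity)
    have h1 := hC (K * (6 * 2 ^ m)) hL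
    let ex : (Fin m → Fin K) → ℕ → ℕ := fun a i => if h : i < m then (a ⟨i, h⟩ : ℕ) else 0
    have hex : ∀ a i, ex a i + 1 ≤ K := by
      intro a i
      simp only [ex]
      split_ifs with h
      · exact (a ⟨i, h⟩).2
      · rw [zero_add]
        exact hKpos
    have hinj : Function.Injective fun a : Fin m → Fin K => wd m f (ex a) := by
      intro a a' h
      have h2 := wd_inj hR hε0.le (by nlinarith) m f (ex a) (ex a') hfdec hfpos hf0small
        (hex a) (hex a') h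
      ext i
      have h3 := h2 i i.2
      simp only [ex, i.2, dite_true] at h3
      exact h3
    have hmem : ∀ a, wd m f (ex a) ∈ (T : Set G) ^ (K * (6 * 2 ^ m)) := by
      intro a
      have h2 := wd_mem hT1 K m f (ex a) ℓ hfmem fun i => by have := hex a i; omega
      exact Set.pow_subset_pow_right hT1 (Nat.mul_le_mul_left _ (hsum m)) h2
    have hfin : ((T : Set G) ^ (K * (6 * 2 ^ m))).Finite := by
      rw [← Finset.coe_pow]
      exact Finset.finite_toSet _
    have h2 : Nat.card (Fin m → Fin K) ≤ ((T : Set G) ^ (K * (6 * 2 ^ m))).ncard := by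
      have : Finite ((T : Set G) ^ (K * (6 * 2 ^ m)) : Set G) := hfin
      rw [← Nat.card_coe_set_eq]
      exact Nat.card_le_card_of_injective (fun a => ⟨wd m f (ex a), hmem a⟩) fun a a' h =>
        hinj (congrArg Subtype.val h)
    have h3 : Nat.card (Fin m → Fin K) = K ^ m := by simp
    rw [h3] at h2
    exact h2.trans h1
  -- contradiction
  have h1 : ∀ m : ℕ, ((K : ℝ) / 2 ^ d) ^ m ≤ C * (K * 6) ^ d := by
    intro m
    have h2 : ((K ^ m : ℕ) : ℝ) ≤ ((C * (K * (6 * 2 ^ m)) ^ d : ℕ) : ℝ) := by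
      exact_mod_cast hcount m
    push_cast at h2
    rw [div_pow, div_le_iff₀ (by positivity)]
    calc (K : ℝ) ^ m ≤ C * (K * (6 * 2 ^ m)) ^ d := h2
      _ = C * (K * 6) ^ d * (2 ^ d) ^ m := by
        rw [mul_pow, mul_pow, mul_pow, ← pow_mul, ← pow_mul, mul_comm m d]
        ring
  have h2 : (1 : ℝ) < K / 2 ^ d := by
    rw [lt_div_iff₀ (by positivity), one_mul, hK]
    push_cast
    linarith
  obtain ⟨m, hm⟩ := ((tendsto_pow_atTop_atTop_of_one_lt h2).eventually
    (eventually_gt_atTop ((C : ℝ) * (K * 6) ^ d))).exists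
  exact absurd hm (not_lt.2 (h1 m))

end wd

end Pool.Agent.J4H54.GR
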