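import Pool.Agent.J4H54.GR.Reg

set_option autoImplicit false
set_option linter.unusedSectionVars false

/-!
# Good scales of the random walk
-/

namespace Pool.Agent.J4H54.GR

open Finset Filter Topology

open scoped Pointwise in
/-- polynomial growth of degree at most `d` -/
def PG (d : ℕ) (G : Type) [Group G] : Prop :=
  ∀ S : Finset G, ∃ C : ℕ, ∀ n : ℕ, 1 ≤ n → ((S : Set G) ^ n).ncard ≤ C * n ^ d

section

variable {V : Type*} [SeminormedAddCommGroup V] [InnerProductSpace ℝ V] {Q : V →ₗ[ℝ] V}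

theorem sum_e (x : V) (j m : ℕ) :
    ∑ i ∈ range m, e Q x (j + i) = q Q x j - q Q x (j + m) := by
  induction m with
  | zero => simp
  | succ m ih =>
    rw [sum_range_succ, ih]
    unfold e
    rw [← add_assoc]
    ring

/-- a scale at which the energy is almost stationary -/
theorem SC.good_scale (h : SC Q) (x : V) (h0 : Tendsto (q Q x) atTop (𝓝 0))
    (hexp : ∀ r : ℝ, 0 ≤ r → r < 1 → ∀ C : ℝ, ∃ j, C * r ^ j < q Q x j) (n : ℕ) :
    ∃ j, 0 < e Q x j ∧ (n + 1) * (e Q x j - e Q x (j + 1)) ≤ e Q x j := by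
  by_contra hcon
  push Not at hcon
  set ε : ℝ := 1 / (n + 1) with hε
  have hn : (0 : ℝ) < n + 1 := by positivity
  have hε0 : 0 < ε := by positivity
  have hε1 : ε ≤ 1 := by
    rw [hε, div_le_one hn]
    linarith [(Nat.cast_nonneg n : (0 : ℝ) ≤ n)]
  have h1 : ∀ j, e Q x (j + 1) ≤ (1 - ε) * e Q x j := by
    intro j
    rcases (h.e_nonneg x j).eq_or_lt with h2 | h2
    · have h3 := h.e_succ_le x j
      rw [← h2] at h3 ⊢
      rw [mul_zero]
      exact h3
    · have h3 := hcon j h2
      have h4 : ε * e Q x j < e Q x j - e Q x (j + 1) := by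
        rw [hε, div_mul_eq_mul_div, one_mul, div_lt_iff₀ hn, mul_comm]
        exact h3
      linarith
  have h2 : ∀ j, e Q x j ≤ (1 - ε) ^ j * e Q x 0 := by
    intro j
    induction j with
    | zero => simp
    | succ j ih =>
      calc e Q x (j + 1) ≤ (1 - ε) * e Q x j := h1 j
        _ ≤ (1 - ε) * ((1 - ε) ^ j * e Q x 0) :=
          mul_le_mul_of_nonneg_left ih (by linarith)
        _ = (1 - ε) ^ (j + 1) * e Q x 0 := by ring
  have h3 : ∀ j, q Q x j ≤ (1 - ε) ^ j * e Q x 0 / ε := by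
    intro j
    have h4 : ∀ m, q Q x j - q Q x (j + m) ≤ (1 - ε) ^ j * e Q x 0 / ε := by
      intro m
      rw [← sum_e]
      calc ∑ i ∈ range m, e Q x (j + i) ≤ ∑ i ∈ range m, (1 - ε) ^ j * e Q x 0 * (1 - ε) ^ i := by
            apply sum_le_sum
            intro i _
            calc e Q x (j + i) ≤ (1 - ε) ^ (j + i) * e Q x 0 := h2 _
              _ = (1 - ε) ^ j * e Q x 0 * (1 - ε) ^ i := by rw [pow_add]; ring
        _ = (1 - ε) ^ j * e Q x 0 * ∑ i ∈ range m, (1 - ε) ^ i := by rw [mul_sum]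
        _ ≤ (1 - ε) ^ j * e Q x 0 * (1 / ε) := by
            apply mul_le_mul_of_nonneg_left _
              (mul_nonneg (pow_nonneg (by linarith) _) (h.e_nonneg x 0))
            have h5 : (∑ i ∈ range m, (1 - ε) ^ i) * ε ≤ 1 := by
              have h6 := geom_sum_mul (1 - ε) m
              have h7 : (1 - ε) - 1 = -ε := by ring
              rw [h7] at h6
              have h8 : 0 ≤ (1 - ε) ^ m := pow_nonneg (by linarith) _
              linarith
            rw [le_div_iff₀ hε0]
            exact h5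
        _ = (1 - ε) ^ j * e Q x 0 / ε := by ring
    have h5 : Tendsto (fun m => q Q x j - q Q x (j + m)) atTop (𝓝 (q Q x j - 0)) := by
      apply Tendsto.sub tendsto_const_nhds
      have := h0.comp (tendsto_add_atTop_nat j)
      refine this.congr fun m => ?_
      rw [Function.comp_apply, add_comm]
    rw [sub_zero] at h5
    exact le_of_tendsto' h5 h4
  obtain ⟨j, hj⟩ := hexp (1 - ε) (by linarith) (by linarith) (e Q x 0 / ε)
  have := h3 j
  have h6 : (1 - ε) ^ j * e Q x 0 / ε = e Q x 0 / ε * (1 - ε) ^ j := by ring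
  rw [h6] at this
  exact absurd hj (not_lt.2 this)

end

section walk

variable {G : Type} [Group G] {S : Finset G}

theorem lam_SC (hS : S.Nonempty) (hinv : ∀ s ∈ S, s⁻¹ ∈ S) : SC (Qop S (lam (G := G))) :=
  Qop_SC hS hinv lam_inner

/-- translation by a fixed element moves the distributions little -/
theorem move (h1 : (1 : G) ∈ S) (hinv : ∀ s ∈ S, s⁻¹ ∈ S)
    (hgen : Subgroup.closure (S : Set G) = ⊤) (g : G) :
    Tendsto (fun j => ‖lam g (p S j) - p S j‖) atTop (𝓝 0) := by
  have hS : S.Nonempty := ⟨1, h1⟩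
  have hSC := lam_SC hS hinv
  have hg : g ∈ Subgroup.closure (S : Set G) := by rw [hgen]; trivial
  induction hg using Subgroup.closure_induction with
  | mem s hs =>
    have h2 : Tendsto (fun j => √((#S : ℝ) ^ 2 * (2 * e (Qop S lam) (H0.of (1 : G)) j))) atTop
        (𝓝 0) := by
      have h3 := ((hSC.e_tendsto (H0.of (1 : G))).const_mul 2).const_mul ((#S : ℝ) ^ 2)
      rw [mul_zero, mul_zero] at h3
      have h4 := (Real.continuous_sqrt.tendsto 0).comp h3
      rw [Real.sqrt_zero] at h4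
      exact h4
    refine squeeze_zero (fun _ => norm_nonneg _) (fun j => ?_) h2
    apply Real.le_sqrt_of_sq_le
    rw [← energy hS hinv lam_inner]
    have h5 := le_av2 (S := S) (f := fun s => ‖lam s (p S j) - p S j‖ ^ 2)
      (fun s _ t _ => by positivity) (s := s) (t := 1) hs h1
    rw [mul_one] at h5
    exact h5
  | one =>
    simp only [map_one, Module.End.one_apply, sub_self, norm_zero]
    exact tendsto_const_nhds
  | mul x y _ _ hx hy =>
    have h2 := hx.add hy
    rw [add_zero] at h2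
    refine squeeze_zero (fun _ => norm_nonneg _) (fun j => ?_) h2
    have h3 : lam (x * y) (p S j) - p S j =
        lam x (lam y (p S j) - p S j) + (lam x (p S j) - p S j) := by
      rw [map_mul, Module.End.mul_apply, map_sub]
      abel
    rw [h3]
    refine (norm_add_le _ _).trans ?_
    rw [norm_rho lam_inner]
    linarith
  | inv x _ hx =>
    refine hx.congr fun j => ?_
    have h3 : lam x⁻¹ (p S j) - p S j = -lam x⁻¹ (lam x (p S j) - p S j) := by
      rw [map_sub, ← Module.End.mul_apply, ← map_mul, inv_mul_cancel, map_one,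
        Module.End.one_apply]
      abel
    rw [h3, norm_neg, norm_rho lam_inner]

/-- on an infinite group the return probabilities tend to zero -/
theorem q_zero [Infinite G] (h1 : (1 : G) ∈ S) (hinv : ∀ s ∈ S, s⁻¹ ∈ S)
    (hgen : Subgroup.closure (S : Set G) = ⊤) :
    Tendsto (q (Qop S lam) (H0.of (1 : G))) atTop (𝓝 0) := by
  have hS : S.Nonempty := ⟨1, h1⟩
  have hSC := lam_SC hS hinv
  obtain ⟨a, ha, ha0⟩ := hSC.q_tendsto (H0.of (1 : G))
  suffices h : a = 0 by rwa [h] at ha
  by_contra hne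
  have hapos : 0 < a := lt_of_le_of_ne ha0 (Ne.symm hne)
  obtain ⟨m, hm⟩ := exists_nat_gt (1 / a)
  obtain ⟨F, hF⟩ := Infinite.exists_subset_card_eq G m
  have h2 : Tendsto (fun j => ∑ g ∈ F, (inner ℝ (lam g (p S j)) (p S j) : ℝ)) atTop
      (𝓝 (∑ _g ∈ F, a)) := by
    apply tendsto_finsetSum
    intro g _
    have h3 : ∀ j, (inner ℝ (lam g (p S j)) (p S j) : ℝ) =
        q (Qop S lam) (H0.of (1 : G)) j - ‖lam g (p S j) - p S j‖ ^ 2 / 2 := by
      intro j
      have h4 := norm_sub_sq_real (lam g (p S j)) (p S j)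
      rw [norm_rho lam_inner] at h4
      have h5 : q (Qop S lam) (H0.of (1 : G)) j = ‖p S j‖ ^ 2 := rfl
      rw [h5]
      linarith
    simp only [h3]
    have h4 := ha.sub (((move h1 hinv hgen g).pow 2).div_const 2)
    simpa using h4
  have h3 : ∑ _g ∈ F, a ≤ 1 := by
    refine le_of_tendsto' h2 fun j => ?_
    have := overlap F (p_pos S j) (p_pos S j)
    rwa [p_mass hS, one_mul] at this
  rw [sum_const, hF, nsmul_eq_mul] at h3
  have h4 : 1 < m * a := by
    rw [div_lt_iff₀ hapos] at hm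
    exact hm
  linarith

open scoped Pointwise in
/-- lower bound for the return probabilities -/
theorem q_lower [DecidableEq G] (hS : S.Nonempty) (j : ℕ) :
    1 ≤ (#(S ^ j) : ℝ) * q (Qop S lam) (H0.of (1 : G)) j := by
  have h1 := mass_sq_le (p S j) (p_supp S j)
  rw [p_mass hS, one_pow] at h1
  exact h1

open scoped Pointwise in
theorem coe_card_pow [DecidableEq G] {d : ℕ} {S : Finset G} {C : ℕ} {n : ℕ}
    (h : ((S : Set G) ^ n).ncard ≤ C * n ^ d) : #(S ^ n) ≤ C * n ^ d := by
  rwa [← Finset.coe_pow, Set.ncard_coe_finset] at h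

open scoped Pointwise in
/-- good scales exist on infinite groups of polynomial growth -/
theorem good [Infinite G] {d : ℕ} (hG : PG d G) (h1 : (1 : G) ∈ S) (hinv : ∀ s ∈ S, s⁻¹ ∈ S)
    (hgen : Subgroup.closure (S : Set G) = ⊤) (n : ℕ) :
    ∃ j, 0 < e (Qop S lam) (H0.of (1 : G)) j ∧
      (n + 1) * (e (Qop S lam) (H0.of (1 : G)) j - e (Qop S lam) (H0.of (1 : G)) (j + 1)) ≤
        e (Qop S lam) (H0.of (1 : G)) j := by
  classical
  have hS : S.Nonempty := ⟨1, h1⟩
  have hpos : ∀ j, 0 < q (Qop S lam) (H0.of (1 : G)) j := by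
    intro j
    have h2 := q_lower hS j
    by_contra h3
    have h4 : q (Qop S lam) (H0.of (1 : G)) j = 0 := le_antisymm (not_lt.1 h3) (q_nonneg _ _)
    rw [h4, mul_zero] at h2
    linarith
  refine (lam_SC hS hinv).good_scale _ (q_zero h1 hinv hgen) ?_ n
  intro r hr0 hr1 C
  obtain ⟨C', hC'⟩ := hG S
  by_contra hcon
  push Not at hcon
  have h2 : ∀ j : ℕ, 1 ≤ j → 1 ≤ (C' : ℝ) * |C| * ((j : ℝ) ^ d * r ^ j) := by
    intro j hj
    have h3 := q_lower hS j
    have h4 : (#(S ^ j) : ℝ) ≤ C' * j ^ d := by exact_mod_cast coe_card_pow (hC' j hj)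
    have h5 : q (Qop S lam) (H0.of (1 : G)) j ≤ |C| * r ^ j :=
      (hcon j).trans (mul_le_mul_of_nonneg_right (le_abs_self C) (pow_nonneg hr0 _))
    calc (1 : ℝ) ≤ (#(S ^ j) : ℝ) * q (Qop S lam) (H0.of (1 : G)) j := h3
      _ ≤ (C' * j ^ d) * (|C| * r ^ j) := mul_le_mul h4 h5 (hpos j).le (by positivity)
      _ = C' * |C| * (j ^ d * r ^ j) := by ring
  have h3 := (tendsto_pow_const_mul_const_pow_of_lt_one d hr0 hr1).const_mul ((C' : ℝ) * |C|)
  rw [mul_zero] at h3
  have h4 : ∀ᶠ j : ℕ in atTop, (C' : ℝ) * |C| * ((j : ℝ) ^ d * r ^ j) < 1 :=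
    h3.eventually (gt_mem_nhds (by norm_num))
  obtain ⟨j, hj1, hj2⟩ := (h4.and (eventually_ge_atTop 1)).exists
  exact absurd hj1 (not_lt.2 (h2 j hj2))

end walk

end Pool.Agent.J4H54.GR
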