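import Pool.Agent.J4H54.GR.Energy

set_option autoImplicit false
set_option linter.unusedSectionVars false

/-!
# Entropy of the random walk
-/

namespace Pool.Agent.J4H54.GR

open Finset Filter Topology Real

theorem point_ineq {a b : ℝ} (ha : 0 ≤ a) (hb : 0 ≤ b) (hab : b = 0 → a = 0) :
    (√a - √b) ^ 2 ≤ a * log a - a * log b - a + b := by
  rcases ha.eq_or_lt with h | h
  · rw [← h, sqrt_zero, zero_sub, neg_sq, sq_sqrt hb]
    simp
  · have hb' : 0 < b := lt_of_le_of_ne hb fun h2 => h.ne' (hab h2.symm)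
    have h1 : log (√b / √a) ≤ √b / √a - 1 := log_le_sub_one_of_pos (by positivity)
    rw [log_div (by positivity) (by positivity), log_sqrt hb, log_sqrt ha] at h1
    have h2 : a * (√b / √a) = √a * √b := by
      have h3 : a = √a * √a := (mul_self_sqrt ha).symm
      have h4 : √a ≠ 0 := by positivity
      calc a * (√b / √a) = (√a * √a) * (√b / √a) := by rw [← h3]
        _ = √a * √b := by field_simp
    have h3 : (√a - √b) ^ 2 = a - 2 * (√a * √b) + b := by
      have h4 : √a ^ 2 = a := sq_sqrt ha
      have h5 : √b ^ 2 = b := sq_sqrt hb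
      nlinarith
    rw [h3, ← h2]
    nlinarith

theorem point_nonneg {a b : ℝ} (ha : 0 ≤ a) (hb : 0 ≤ b) (hab : b = 0 → a = 0) :
    0 ≤ a * log a - a * log b - a + b :=
  (by positivity : 0 ≤ (√a - √b) ^ 2).trans (point_ineq ha hb hab)

/-- pointwise entropy inequality -/
theorem ent_point {G : Type*} [Group G] {S : Finset G} (hS : S.Nonempty) (a : G → ℝ)
    (ha : ∀ s ∈ S, ∀ t ∈ S, 0 ≤ a (s * t)) :
    (av2 S fun x => (√(a x) - √(av2 S a)) ^ 2) ≤
      negMulLog (av2 S a) - av2 S fun x => negMulLog (a x) := by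
  set A := av2 S a with hA
  have hA0 : 0 ≤ A := av2_nonneg S ha
  have h1 : (av2 S fun x => (√(a x) - √A) ^ 2) ≤
      av2 S fun x => a x * log (a x) - a x * log A - a x + A := by
    apply av2_mono
    intro s hs t ht
    apply point_ineq (ha s hs t ht) hA0
    intro h2
    have h3 := le_av2 ha hs ht
    rw [← hA, h2, mul_zero] at h3
    exact le_antisymm h3 (ha s hs t ht)
  refine h1.trans (le_of_eq ?_)
  have e1 : (av2 S fun x => a x * log (a x) - a x * log A - a x + A) =
      (av2 S fun x => a x * log (a x)) - (av2 S fun x => a x * log A) - A + A := by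
    rw [av2_add S (fun x => a x * log (a x) - a x * log A - a x) fun _ => A, av2_const hS,
      av2_sub S (fun x => a x * log (a x) - a x * log A) fun x => a x, av2_sub, ← hA]
  have e2 : (av2 S fun x => a x * log A) = A * log A := by
    have := av2_smul S (log A) a
    simp only [smul_eq_mul] at this
    rw [← hA, mul_comm] at this
    rw [← this]
    congr 1
    ext x
    ring
  have e3 : (av2 S fun x => negMulLog (a x)) = -av2 S fun x => a x * log (a x) := by
    have := av2_smul S (-1) fun x => a x * log (a x)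
    simp only [smul_eq_mul, neg_mul, one_mul] at this
    rw [← this]
    congr 1
    ext x
    rw [negMulLog]
    ring
  rw [e1, e2, e3, negMulLog]
  ring

section

variable {X : Type}

/-- the entropy -/
noncomputable def Ent (f : L2 X) : ℝ := (toF f).sum fun _ a => negMulLog a

theorem Ent_eq (f : L2 X) {T : Finset X} (hT : supp f ⊆ T) :
    Ent f = ∑ x ∈ T, negMulLog (val f x) :=
  Finsupp.sum_of_support_subset _ hT _ (by intro i _; exact negMulLog_zero)

theorem Ent_le {f : L2 X} (hf : Pos f) (h1 : mass f = 1) {T : Finset X} (hT : supp f ⊆ T) :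
    Ent f ≤ log #T := by
  have hTne : 0 < #T := by
    rw [Finset.card_pos]
    by_contra h
    rw [Finset.not_nonempty_iff_eq_empty] at h
    rw [mass_eq f hT, h, Finset.sum_empty] at h1
    norm_num at h1
  have hT' : (0 : ℝ) < #T := by exact_mod_cast hTne
  have h2 : 0 ≤ ∑ x ∈ T, (val f x * log (val f x) - val f x * log (1 / #T) - val f x + 1 / #T) :=
    Finset.sum_nonneg fun x _ => point_nonneg (hf x) (by positivity) fun h3 => by
      exfalso
      have : (0 : ℝ) < 1 / #T := by positivity
      linarith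
  rw [Finset.sum_add_distrib, Finset.sum_sub_distrib, Finset.sum_sub_distrib, ← Finset.sum_mul,
    ← mass_eq f hT, h1, Finset.sum_const, nsmul_eq_mul, mul_one_div_cancel hT'.ne', one_mul,
    log_div one_ne_zero hT'.ne', log_one] at h2
  rw [Ent_eq f hT]
  simp only [negMulLog, neg_mul, Finset.sum_neg_distrib]
  linarith

end

section walk

variable {G : Type} [Group G] {S : Finset G}

theorem Ent_lam (g : G) (f : L2 G) : Ent (lam g f) = Ent f :=
  Finsupp.sum_mapDomain_index_inj (f := (g * ·)) (h := fun _ a => negMulLog a) (s := toF f)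
    (mul_right_injective g)

open scoped Pointwise in
theorem supp_lam [DecidableEq G] {f : L2 G} {j : ℕ} (hf : supp f ⊆ S ^ j) {s t : G} (hs : s ∈ S)
    (ht : t ∈ S) : supp (lam (s * t) f) ⊆ S ^ (j + 2) := by
  intro x hx
  rw [mem_supp, val_lam'] at hx
  have h1 := hf ((mem_supp _ _).2 hx)
  have h2 : s * (t * ((s * t)⁻¹ * x)) ∈ S * (S * S ^ j) :=
    Finset.mul_mem_mul hs (Finset.mul_mem_mul ht h1)
  rw [← pow_succ', ← pow_succ'] at h2
  have h3 : s * (t * ((s * t)⁻¹ * x)) = x := by group
  rwa [h3] at h2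

theorem av2_val (S : Finset G) (f : G → L2 G) (x : G) :
    val (av2 S f) x = av2 S fun s => val (f s) x := av2_map S (valL x) f

/-- the Hellinger distance -/
noncomputable def hel (T : Finset G) (f f' : L2 G) : ℝ := ∑ x ∈ T, (√(val f x) - √(val f' x)) ^ 2

open scoped Pointwise in
/-- the entropy increment bounds the Hellinger distances -/
theorem Ent_incr [DecidableEq G] (hS : S.Nonempty) (j : ℕ) :
    (av2 S fun s => hel (S ^ (j + 2)) (lam s (p S j)) (p S (j + 2))) ≤
      Ent (p S (j + 2)) - Ent (p S j) := by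
  set T := S ^ (j + 2) with hT
  have h1 : supp (p S (j + 2)) ⊆ T := p_supp S _
  have h2 : Ent (p S j) = av2 S fun s => ∑ x ∈ T, negMulLog (val (lam s (p S j)) x) := by
    have h3 : ∀ s ∈ S, ∀ t ∈ S, ∑ x ∈ T, negMulLog (val (lam (s * t) (p S j)) x) =
        Ent (p S j) := by
      intro s hs t ht
      rw [← Ent_lam (s * t) (p S j)]
      exact (Ent_eq _ (supp_lam (p_supp S j) hs ht)).symm
    unfold av2
    rw [av_congr S fun s hs => av_congr S fun t ht => h3 s hs t ht]
    rw [av_const hS, av_const hS]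
  rw [Ent_eq _ h1, h2]
  have h4 : ∀ (f : G → G → ℝ), (av2 S fun s => ∑ x ∈ T, f s x) = ∑ x ∈ T, av2 S fun s => f s x := by
    intro f
    unfold av2 av
    simp only [Finset.mul_sum, smul_eq_mul]
    rw [Finset.sum_congr rfl fun s _ => Finset.sum_comm, Finset.sum_comm]
  unfold hel
  rw [h4, h4, ← Finset.sum_sub_distrib]
  apply Finset.sum_le_sum
  intro x _
  have h5 : val (p S (j + 2)) x = av2 S fun s => val (lam s (p S j)) x := by
    rw [p_add_two, av2_val]
  rw [h5]
  exact ent_point hS (fun s => val (lam s (p S j)) x) fun s _ t _ => (p_pos S j).lam _ x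

open scoped Pointwise in
/-- good times for the entropy -/
theorem good_times {d : ℕ} (hG : PG d G) (hS : S.Nonempty) (n₀ : ℕ) :
    ∃ n, n₀ ≤ n ∧ 1 ≤ n ∧
      n * (Ent (p S (2 * n + 2)) - Ent (p S (2 * n))) ≤ d + 1 := by
  classical
  by_contra hcon
  push Not at hcon
  obtain ⟨C, hC⟩ := hG S
  set a : ℕ → ℝ := fun n => Ent (p S (2 * n)) with ha
  set m := max n₀ 1 with hm
  have h1 : ∀ n, m ≤ n → (d + 1 : ℝ) * (log (n + 1) - log n) ≤ a (n + 1) - a n := by
    intro n hn
    have hn1 : 1 ≤ n := le_trans (le_max_right _ _) hn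
    have h2 := hcon n (le_trans (le_max_left _ _) hn) hn1
    have hn' : (0 : ℝ) < n := by exact_mod_cast hn1
    have h3 : log (n + 1) - log n ≤ 1 / n := by
      rw [← log_div (by positivity) (by positivity)]
      have h4 := log_le_sub_one_of_pos (x := ((n : ℝ) + 1) / n) (by positivity)
      have h5 : ((n : ℝ) + 1) / n - 1 = 1 / n := by
        field_simp
        ring
      rwa [h5] at h4
    have h6 : (d + 1 : ℝ) / n ≤ a (n + 1) - a n := by
      rw [div_le_iff₀ hn', mul_comm]
      exact h2.le
    calc (d + 1 : ℝ) * (log (n + 1) - log n) ≤ (d + 1 : ℝ) * (1 / n) :=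
          mul_le_mul_of_nonneg_left h3 (by positivity)
      _ = (d + 1 : ℝ) / n := by ring
      _ ≤ a (n + 1) - a n := h6
  have h2 : ∀ k, (d + 1 : ℝ) * (log ((m + k : ℕ) : ℝ) - log m) ≤ a (m + k) - a m := by
    intro k
    induction k with
    | zero => simp
    | succ k ih =>
      have h3 := h1 (m + k) (by omega)
      have h4 : (((m + (k + 1) : ℕ)) : ℝ) = ((m + k : ℕ) : ℝ) + 1 := by push_cast; ring
      rw [h4, ← add_assoc]
      linarith
  have h3 : ∀ n, 1 ≤ n → a n ≤ log C + d * (log 2 + log n) := by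
    intro n hn
    have h4 := Ent_le (p_pos S (2 * n)) (p_mass hS _) (p_supp S (2 * n))
    have h5 : #(S ^ (2 * n)) ≤ C * (2 * n) ^ d := coe_card_pow (hC (2 * n) (by omega))
    have h6 : 0 < #(S ^ (2 * n)) := Finset.card_pos.2 (hS.pow)
    have h7 : (#(S ^ (2 * n)) : ℝ) ≤ C * (2 * n) ^ d := by exact_mod_cast h5
    have hCpos : 0 < C := by
      rcases Nat.eq_zero_or_pos C with h8 | h8
      · rw [h8, zero_mul] at h5
        omega
      · exact h8
    have hn' : (0 : ℝ) < n := by exact_mod_cast hn
    have hC' : (0 : ℝ) < C := by exact_mod_cast hCpos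
    calc a n ≤ log #(S ^ (2 * n)) := h4
      _ ≤ log (C * (2 * n) ^ d) := log_le_log (by exact_mod_cast h6) h7
      _ = log C + d * (log 2 + log n) := by
        rw [log_mul (by positivity) (by positivity), log_pow, log_mul (by positivity)
          (by positivity)]
  have h4 : ∀ k : ℕ, log ((m + k : ℕ) : ℝ) ≤ log C + d * log 2 - a m + (d + 1) * log m := by
    intro k
    have h5 := h2 k
    have h6 := h3 (m + k) (by omega)
    nlinarith
  have h5 : Tendsto (fun k : ℕ => log ((m + k : ℕ) : ℝ)) atTop atTop := by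
    apply tendsto_log_atTop.comp
    apply tendsto_natCast_atTop_atTop.comp
    exact tendsto_atTop_mono (fun k => by omega : ∀ k, k ≤ m + k) tendsto_id
  obtain ⟨k, hk⟩ := (h5.eventually (eventually_gt_atTop
    (log C + d * log 2 - a m + (d + 1) * log m))).exists
  exact absurd hk (not_lt.2 (h4 k))

end walk

end Pool.Agent.J4H54.GR
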