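import Pool.Agent.J4H54.GR.Ent
import Pool.Agent.J4H54.GR.Coc

set_option autoImplicit false
set_option linter.unusedSectionVars false

/-!
# Expectations along the random walk
-/

namespace Pool.Agent.J4H54.GR

open Finset Filter Topology

section

variable {G : Type} [Group G] {F F' : Type*} [AddCommGroup F] [Module ℝ F] [AddCommGroup F']
  [Module ℝ F'] {S : Finset G}

/-- expectation -/
noncomputable def Ex (u : G → F) (f : L2 G) : F := (H0.lift u : L2 G →ₗ[ℝ] F) f

theorem Ex_eq (u : G → F) (f : L2 G) {T : Finset G} (hT : supp f ⊆ T) :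
    Ex u f = ∑ x ∈ T, val f x • u x := by
  unfold Ex
  rw [apply_eq' _ f hT]
  apply Finset.sum_congr rfl
  intro x _
  rw [H0.lift_of]

theorem Ex_of (u : G → F) (x : G) : Ex u (H0.of x) = u x := H0.lift_of u x

theorem Ex_add (u w : G → F) (f : L2 G) : Ex (fun x => u x + w x) f = Ex u f + Ex w f := by
  rw [Ex_eq _ f subset_rfl, Ex_eq _ f subset_rfl, Ex_eq _ f subset_rfl,
    ← Finset.sum_add_distrib]
  apply Finset.sum_congr rfl
  intro x _
  rw [smul_add]

theorem Ex_map (L : F →ₗ[ℝ] F') (u : G → F) (f : L2 G) : L (Ex u f) = Ex (fun x => L (u x)) f := by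
  rw [Ex_eq _ f subset_rfl, Ex_eq _ f subset_rfl, map_sum]
  apply Finset.sum_congr rfl
  intro x _
  rw [map_smul]

theorem Ex_const (c : F) (f : L2 G) : Ex (fun _ => c) f = mass f • c := by
  rw [Ex_eq _ f subset_rfl, mass_eq f subset_rfl, Finset.sum_smul]

theorem Ex_mono {u w : G → ℝ} {f : L2 G} (hf : Pos f) (h : ∀ x, u x ≤ w x) : Ex u f ≤ Ex w f := by
  rw [Ex_eq _ f subset_rfl, Ex_eq _ f subset_rfl]
  exact Finset.sum_le_sum fun x _ => mul_le_mul_of_nonneg_left (h x) (hf x)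

theorem Ex_nonneg {u : G → ℝ} {f : L2 G} (hf : Pos f) (h : ∀ x, 0 ≤ u x) : 0 ≤ Ex u f := by
  rw [Ex_eq _ f subset_rfl]
  exact Finset.sum_nonneg fun x _ => mul_nonneg (hf x) (h x)

theorem Ex_lam (u : G → F) (g : G) (f : L2 G) : Ex u (lam g f) = Ex (fun x => u (g * x)) f := by
  have h1 : ((H0.lift u : L2 G →ₗ[ℝ] F) ∘ₗ lam g) = H0.lift fun x => u (g * x) := by
    apply H0.hom_ext
    intro x
    rw [LinearMap.comp_apply, lam_of, H0.lift_of, H0.lift_of]
  exact LinearMap.congr_fun h1 f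

/-- right translation -/
noncomputable def rtr (s : G) : L2 G →ₗ[ℝ] L2 G := H0.lift fun x => H0.of (x * s)

theorem rtr_of (s x : G) : rtr s (H0.of x) = H0.of (x * s) := H0.lift_of _ x

theorem Ex_rtr (u : G → F) (s : G) (f : L2 G) : Ex u (rtr s f) = Ex (fun x => u (x * s)) f := by
  have h1 : ((H0.lift u : L2 G →ₗ[ℝ] F) ∘ₗ rtr s) = H0.lift fun x => u (x * s) := by
    apply H0.hom_ext
    intro x
    rw [LinearMap.comp_apply, rtr_of, H0.lift_of, H0.lift_of]
  exact LinearMap.congr_fun h1 f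

/-- intertwiners and powers -/
theorem pow_comm' {V V' : Type*} [AddCommGroup V] [Module ℝ V] [AddCommGroup V'] [Module ℝ V']
    {A : V →ₗ[ℝ] V} {A' : V' →ₗ[ℝ] V'} {Φ : V →ₗ[ℝ] V'} (h : ∀ v, Φ (A v) = A' (Φ v)) (j : ℕ)
    (v : V) : Φ ((A ^ j) v) = (A' ^ j) (Φ v) := by
  induction j with
  | zero => rfl
  | succ j ih => rw [pow_succ', pow_succ', Module.End.mul_apply, Module.End.mul_apply, h, ih]

theorem rtr_p (S : Finset G) (s : G) (j : ℕ) :
    (Qop S lam ^ j) (H0.of s) = rtr s (p S j) := by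
  have h1 : ∀ v : L2 G, rtr s (Qop S lam v) = Qop S lam (rtr s v) := by
    intro v
    rw [Qop_apply, Qop_apply, av_map]
    congr 1
    ext t
    have h2 : (rtr s ∘ₗ lam t : L2 G →ₗ[ℝ] L2 G) = lam t ∘ₗ rtr s := by
      apply H0.hom_ext
      intro x
      rw [LinearMap.comp_apply, LinearMap.comp_apply, lam_of, rtr_of, rtr_of, lam_of, mul_assoc]
    exact LinearMap.congr_fun h2 v
  unfold p
  rw [pow_comm' h1, rtr_of, one_mul]

theorem p_add_two' (S : Finset G) (j : ℕ) : p S (j + 2) = av2 S fun s => rtr s (p S j) := by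
  have h1 : p S (j + 2) = (Qop S lam ^ j) ((Qop S lam ^ 2) (H0.of 1)) := by
    rw [← Module.End.mul_apply, ← pow_add]
    rfl
  rw [h1, Qop_two, av2_map]
  congr 1
  ext s
  rw [lam_of, mul_one, rtr_p]

theorem Ex_right (u : G → F) (j : ℕ) :
    Ex u (p S (j + 2)) = Ex (fun g => av2 S fun s => u (g * s)) (p S j) := by
  rw [p_add_two']
  unfold Ex
  rw [av2_map]
  have h1 : ∀ s, (H0.lift u : L2 G →ₗ[ℝ] F) (rtr s (p S j)) = Ex (fun x => u (x * s)) (p S j) :=
    fun s => Ex_rtr u s _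
  simp only [h1]
  rw [← Ex, Ex_eq _ (p S j) subset_rfl]
  have h2 : (fun s => Ex (fun x => u (x * s)) (p S j)) =
      fun s => ∑ x ∈ supp (p S j), val (p S j) x • u (x * s) := by
    ext s
    rw [Ex_eq _ (p S j) subset_rfl]
  rw [h2]
  unfold av2 av
  simp only [Finset.smul_sum]
  rw [Finset.sum_congr rfl fun s _ => Finset.sum_comm, Finset.sum_comm]
  apply Finset.sum_congr rfl
  intro x _
  apply Finset.sum_congr rfl
  intro s _
  apply Finset.sum_congr rfl
  intro t _
  rw [smul_comm (val (p S j) x), smul_comm (val (p S j) x)]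

theorem Ex_left (u : G → F) (j : ℕ) :
    Ex u (p S (j + 2)) = av2 S fun s => Ex (fun x => u (s * x)) (p S j) := by
  rw [p_add_two]
  unfold Ex
  rw [av2_map]
  congr 1
  ext s
  exact Ex_lam u s _

/-- powers of averaging operators -/
theorem Qop_pow {V : Type*} [SeminormedAddCommGroup V] [InnerProductSpace ℝ V]
    (ρ : G →* (V →ₗ[ℝ] V)) (v : V) (j : ℕ) :
    (Qop S ρ ^ j) v = Ex (fun g => ρ g v) (p S j) := by
  have h1 : ∀ f : L2 G, (H0.lift (fun g => ρ g v) : L2 G →ₗ[ℝ] V) (Qop S lam f) =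
      Qop S ρ ((H0.lift (fun g => ρ g v) : L2 G →ₗ[ℝ] V) f) := by
    intro f
    rw [Qop_apply, Qop_apply, av_map]
    congr 1
    ext t
    have h2 : ((H0.lift (fun g => ρ g v) : L2 G →ₗ[ℝ] V) ∘ₗ lam t) =
        ρ t ∘ₗ (H0.lift (fun g => ρ g v) : L2 G →ₗ[ℝ] V) := by
      apply H0.hom_ext
      intro x
      rw [LinearMap.comp_apply, LinearMap.comp_apply, lam_of, H0.lift_of, H0.lift_of, map_mul,
        Module.End.mul_apply]
    exact LinearMap.congr_fun h2 f
  unfold Ex p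
  rw [pow_comm' h1, H0.lift_of, map_one, Module.End.one_apply]

end

section coc

variable {G : Type} [Group G] {S : Finset G} {H : Type} [NormedAddCommGroup H]
  [InnerProductSpace ℝ H] {π : G →* (H →ₗ[ℝ] H)} {b : G → H}

theorem HC.one (h : HC S H π b) : b 1 = 0 := by
  have := h.coc 1 1
  rw [mul_one, map_one, Module.End.one_apply] at this
  exact left_eq_add.1 this

theorem HC.inv (h : HC S H π b) (g : G) : b g⁻¹ = -π g⁻¹ (b g) := by
  have := h.coc g⁻¹ g
  rw [inv_mul_cancel, h.one] at this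
  exact eq_neg_of_add_eq_zero_left this.symm

theorem HC.av2_right (h : HC S H π b) (hS : S.Nonempty) (g : G) :
    (av2 S fun s => b (g * s)) = b g := by
  have h1 : (fun s => b (g * s)) = fun s => b g + π g (b s) := by
    ext s
    exact h.coc g s
  rw [h1, av2_add, av2_const hS, ← av2_map, h.harm, map_zero, add_zero]

theorem HC.Ex_zero (h : HC S H π b) (hS : S.Nonempty) (n : ℕ) : Ex b (p S (2 * n)) = 0 := by
  induction n with
  | zero => rw [mul_zero, p_zero, Ex_of, h.one]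
  | succ n ih =>
    rw [mul_add, mul_one, Ex_right]
    simp only [h.av2_right hS]
    exact ih

theorem HC.Ex_lam (h : HC S H π b) (hS : S.Nonempty) (n : ℕ) (x : G) :
    Ex b (lam x (p S (2 * n))) = b x := by
  rw [GR.Ex_lam]
  have h1 : (fun g => b (x * g)) = fun g => b x + π x (b g) := by
    ext s
    exact h.coc x s
  rw [h1, Ex_add, Ex_const, p_mass hS, one_smul, ← Ex_map, h.Ex_zero hS, map_zero, add_zero]

/-- second moments -/
noncomputable def M (S : Finset G) (b : G → H) (n : ℕ) (v : H) : ℝ :=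
  Ex (fun g => (inner ℝ (b g) v : ℝ) ^ 2) (p S (2 * n))

theorem M_nonneg (n : ℕ) (v : H) : 0 ≤ M S b n v :=
  Ex_nonneg (p_pos _ _) fun _ => by positivity

theorem HC.M_succ (h : HC S H π b) (hS : S.Nonempty) (n : ℕ) (v : H) :
    M S b (n + 1) v = M S b n v +
      Ex (fun g => av2 S fun s => (inner ℝ (π g (b s)) v : ℝ) ^ 2) (p S (2 * n)) := by
  unfold M
  rw [mul_add, mul_one, Ex_right, ← Ex_add]
  congr 1
  ext g
  have h1 : (fun s => (inner ℝ (b (g * s)) v : ℝ) ^ 2) =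
      fun s => (inner ℝ (b g) v ^ 2 + (2 * inner ℝ (b g) v) • inner ℝ (π g (b s)) v) +
        inner ℝ (π g (b s)) v ^ 2 := by
    ext s
    rw [h.coc, inner_add_left, smul_eq_mul]
    ring
  rw [h1, av2_add, av2_add, av2_const hS, av2_smul]
  have h2 : (av2 S fun s => (inner ℝ (π g (b s)) v : ℝ)) = 0 := by
    rw [← inner_av2, ← av2_map, h.harm, map_zero, inner_zero_left]
  rw [h2, smul_zero, add_zero]

theorem HC.M_zero (h : HC S H π b) (v : H) : M S b 0 v = 0 := by
  unfold M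
  rw [mul_zero, p_zero, Ex_of, h.one, inner_zero_left]
  norm_num

open scoped Pointwise in
/-- **the key estimate** -/
theorem HC.key [DecidableEq G] (h : HC S H π b) (hS : S.Nonempty) (n : ℕ) (x : G) (v : H)
    (hx : supp (lam x (p S (2 * n))) ⊆ S ^ (2 * n + 2)) :
    (inner ℝ (b x) v : ℝ) ^ 2 ≤
      hel (S ^ (2 * n + 2)) (lam x (p S (2 * n))) (p S (2 * n + 2)) *
        (2 * (2 * inner ℝ (b x) v ^ 2 + 2 * M S b n (π x⁻¹ v) + M S b (n + 1) v)) := by
  set T := S ^ (2 * n + 2) with hT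
  set f := lam x (p S (2 * n)) with hf
  set f' := p S (2 * n + 2) with hf'
  have hT' : supp f' ⊆ T := p_supp S _
  have hfp : Pos f := (p_pos S _).lam x
  have hfp' : Pos f' := p_pos S _
  let u : G → ℝ := fun g => inner ℝ (b g) v
  have e1 : Ex u f = inner ℝ (b x) v := by
    have := Ex_map ((innerₗ H).flip v) b f
    rw [h.Ex_lam hS] at this
    exact this.symm
  have e2 : Ex u f' = 0 := by
    have := Ex_map ((innerₗ H).flip v) b f'
    have h0 : Ex b f' = 0 := h.Ex_zero hS (n + 1)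
    rw [h0, map_zero] at this
    exact this.symm
  have e3 : inner ℝ (b x) v = ∑ g ∈ T, (√(val f g) - √(val f' g)) *
      ((√(val f g) + √(val f' g)) * u g) := by
    rw [← e1, ← sub_zero (Ex u f), ← e2, Ex_eq u f hx, Ex_eq u f' hT', ← Finset.sum_sub_distrib]
    apply Finset.sum_congr rfl
    intro g _
    have h1 := Real.mul_self_sqrt (hfp g)
    have h2 := Real.mul_self_sqrt (hfp' g)
    rw [smul_eq_mul, smul_eq_mul]
    conv_lhs => rw [← h1, ← h2]
    ring
  have e4 : (inner ℝ (b x) v : ℝ) ^ 2 ≤ hel T f f' *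
      ∑ g ∈ T, ((√(val f g) + √(val f' g)) * u g) ^ 2 := by
    conv_lhs => rw [e3]
    exact Finset.sum_mul_sq_le_sq_mul_sq T _ _
  refine e4.trans (mul_le_mul_of_nonneg_left ?_ (Finset.sum_nonneg fun g _ => by positivity))
  have e5 : ∑ g ∈ T, ((√(val f g) + √(val f' g)) * u g) ^ 2 ≤
      2 * (Ex (fun g => u g ^ 2) f + Ex (fun g => u g ^ 2) f') := by
    rw [Ex_eq _ f hx, Ex_eq _ f' hT', ← Finset.sum_add_distrib, Finset.mul_sum]
    apply Finset.sum_le_sum
    intro g _
    rw [smul_eq_mul, smul_eq_mul, mul_pow]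
    have h1 := Real.sq_sqrt (hfp g)
    have h2 := Real.sq_sqrt (hfp' g)
    have h3 : (√(val f g) + √(val f' g)) ^ 2 ≤ 2 * (val f g + val f' g) := by
      nlinarith [sq_nonneg (√(val f g) - √(val f' g))]
    calc (√(val f g) + √(val f' g)) ^ 2 * u g ^ 2 ≤ 2 * (val f g + val f' g) * u g ^ 2 :=
          mul_le_mul_of_nonneg_right h3 (by positivity)
      _ = 2 * (val f g * u g ^ 2 + val f' g * u g ^ 2) := by ring
  refine e5.trans (mul_le_mul_of_nonneg_left ?_ (by norm_num))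
  have e6 : Ex (fun g => u g ^ 2) f' = M S b (n + 1) v := rfl
  have e7 : Ex (fun g => u g ^ 2) f ≤ 2 * inner ℝ (b x) v ^ 2 + 2 * M S b n (π x⁻¹ v) := by
    rw [hf, GR.Ex_lam]
    have h1 : Ex (fun g => u (x * g) ^ 2) (p S (2 * n)) ≤
        Ex (fun g => 2 * inner ℝ (b x) v ^ 2 + (2 : ℝ) * inner ℝ (b g) (π x⁻¹ v) ^ 2)
          (p S (2 * n)) := by
      apply Ex_mono (p_pos _ _)
      intro g
      have h2 : u (x * g) = inner ℝ (b x) v + inner ℝ (b g) (π x⁻¹ v) := by
        show inner ℝ (b (x * g)) v = _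
        rw [h.coc, inner_add_left, inner_rho h.iso]
      rw [h2]
      nlinarith [sq_nonneg ((inner ℝ (b x) v : ℝ) - inner ℝ (b g) (π x⁻¹ v))]
    refine h1.trans (le_of_eq ?_)
    rw [Ex_add, Ex_const, p_mass hS, one_smul]
    congr 1
    have := Ex_map (LinearMap.mulLeft ℝ (2 : ℝ)) (fun g => (inner ℝ (b g) (π x⁻¹ v) : ℝ) ^ 2)
      (p S (2 * n))
    exact this.symm
  linarith

end coc

end Pool.Agent.J4H54.GR
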