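import Pool.Agent.J4H54.GR.Tens

set_option autoImplicit false
set_option linter.unusedSectionVars false

/-!
# Finite dimensional harmonic cocycles
-/

namespace Pool.Agent.J4H54.GR

open Finset Filter Topology

section eig

variable {H : Type} [NormedAddCommGroup H] [InnerProductSpace ℝ H]

/-- a nonzero positive compact operator has its norm as an eigenvalue -/
theorem top_eigen [CompleteSpace H] {T : H →L[ℝ] H} (hc : IsCompactOperator T)
    (hs : ∀ v w, (inner ℝ (T v) w : ℝ) = inner ℝ v (T w)) (hp : ∀ v, (0 : ℝ) ≤ inner ℝ (T v) v)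
    (h0 : T ≠ 0) : ∃ v, v ≠ 0 ∧ T v = ‖T‖ • v := by
  have hnorm : 0 < ‖T‖ := norm_pos_iff.2 h0
  have hnt : Nontrivial H := by
    by_contra h
    rw [not_nontrivial_iff_subsingleton] at h
    apply h0
    ext v
    exact Subsingleton.elim _ _
  rcases hc.hasEigenvalue_or_mem_resolventSet hnorm.ne' with h | h
  · obtain ⟨v, hv⟩ := h.exists_hasEigenvector
    exact ⟨v, hv.2, hv.apply_eq_smul⟩
  · exfalso
    obtain ⟨ε, hε, h2⟩ := T.rayleighQuotient_le_of_norm_mem_resolventSet (𝕜 := ℝ) h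
    have hsym : T.IsSymmetric := fun v w => hs v w
    have h3 := T.norm_eq_iSup_rayleighQuotient hsym
    have h4 : ∀ x, |T.rayleighQuotient x| ≤ ‖T‖ - ε := by
      intro x
      have h5 : 0 ≤ T.rayleighQuotient x := by
        unfold ContinuousLinearMap.rayleighQuotient
        apply div_nonneg _ (by positivity)
        exact hp x
      rw [abs_of_nonneg h5]
      exact h2 x
    have h5 : (⨆ x, |T.rayleighQuotient x|) ≤ ‖T‖ - ε := ciSup_le h4
    linarith

/-- the eigenspace of a compact operator is finite dimensional -/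
theorem eigen_fd {T : H →L[ℝ] H} (hc : IsCompactOperator T) {μ : ℝ} (hμ : μ ≠ 0)
    (E : Submodule ℝ H) (hE : ∀ v, v ∈ E ↔ T v = μ • v) : FiniteDimensional ℝ E := by
  have hcl : IsClosed (E : Set H) := by
    have h1 : (E : Set H) = {v | T v = μ • v} := by
      ext v
      exact hE v
    rw [h1]
    exact isClosed_eq T.continuous (continuous_const_smul μ)
  have hinv : ∀ v ∈ E, (T : H →ₗ[ℝ] H) v ∈ E := by
    intro v hv
    have h1 := (hE v).1 hv
    show T v ∈ E
    rw [h1]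
    exact E.smul_mem _ hv
  have h1 : IsCompactOperator ((T : H →ₗ[ℝ] H).restrict hinv) :=
    IsCompactOperator.restrict (f := (T : H →ₗ[ℝ] H)) hc hinv hcl
  have h2 : IsCompactOperator (id : E → E) := by
    have h3 := h1.smul μ⁻¹
    have h4 : (μ⁻¹ • ((T : H →ₗ[ℝ] H).restrict hinv : E → E)) = id := by
      ext v
      show μ⁻¹ • T v = v
      rw [(hE v).1 v.2, smul_smul, inv_mul_cancel₀ hμ, one_smul]
    rw [← h4]
    exact h3
  exact FiniteDimensional.of_isCompactOperator_id h2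

end eig

/-- **Finite dimensional harmonic cocycles exist.** -/
theorem exists_fd {G : Type} [Group G] [Infinite G] {d : ℕ} (hG : PG d G) {S : Finset G}
    (h1 : (1 : G) ∈ S) (hinv : ∀ s ∈ S, s⁻¹ ∈ S)
    (hgen : Subgroup.closure (S : Set G) = ⊤) :
    ∃ (E : Type) (_ : NormedAddCommGroup E) (_ : InnerProductSpace ℝ E)
      (_ : FiniteDimensional ℝ E) (ρ : G →* (E →ₗ[ℝ] E)) (β : G → E),
      HC S E ρ β ∧ ∃ g, β g ≠ 0 := by
  have hS : S.Nonempty := ⟨1, h1⟩
  obtain ⟨H, i1, i2, i3, π, b, h, hb⟩ := exists_harmonic hG h1 hinv hgen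
  obtain ⟨T, hTc, hTs, hTp, hTi, hTz, hT0⟩ := exists_T hG h h1 hinv (by rw [hb]; norm_num)
  obtain ⟨v₀, hv₀, hTv₀⟩ := top_eigen hTc hTs hTp hT0
  have hnorm : 0 < ‖T‖ := norm_pos_iff.2 hT0
  set μ := ‖T‖ with hμ
  let E : Submodule ℝ H := Module.End.eigenspace (T : H →ₗ[ℝ] H) μ
  have hE : ∀ v, v ∈ E ↔ T v = μ • v := fun v => Module.End.mem_eigenspace_iff
  have hfd : FiniteDimensional ℝ E := eigen_fd hTc hnorm.ne' E hE
  -- the quadratic form is at most `μ`
  have hle : ∀ v, (inner ℝ (T v) v : ℝ) ≤ μ * ‖v‖ ^ 2 := by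
    intro v
    calc (inner ℝ (T v) v : ℝ) ≤ ‖T v‖ * ‖v‖ := real_inner_le_norm _ _
      _ ≤ (μ * ‖v‖) * ‖v‖ := mul_le_mul_of_nonneg_right (T.le_opNorm v) (norm_nonneg _)
      _ = μ * ‖v‖ ^ 2 := by ring
  have hS1 : ∀ s ∈ S, ∀ v ∈ E, π s⁻¹ v ∈ E := by
    intro s hs v hv
    have h2 := hTi v
    rw [(hE v).1 hv, inner_smul_left, real_inner_self_eq_norm_sq] at h2
    have h3 : (av2 S fun x => μ * ‖v‖ ^ 2 - inner ℝ (T (π x⁻¹ v)) (π x⁻¹ v)) = 0 := by
      rw [av2_sub, av2_const hS, ← h2]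
      simp
    have h4 := le_av2 (S := S) (f := fun x => μ * ‖v‖ ^ 2 - inner ℝ (T (π x⁻¹ v)) (π x⁻¹ v))
      (fun s _ t _ => by
        have h5 := hle (π (s * t)⁻¹ v)
        rw [norm_rho h.iso] at h5
        linarith) hs h1
    rw [h3, mul_zero, mul_one] at h4
    set w := π s⁻¹ v with hw
    have hwn : ‖w‖ = ‖v‖ := norm_rho h.iso _ _
    rw [hE]
    have h5 : ‖T w - μ • w‖ ^ 2 ≤ 0 := by
      rw [norm_sub_sq_real, inner_smul_right, norm_smul, Real.norm_eq_abs, abs_of_pos hnorm]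
      have h6 : ‖T w‖ ≤ μ * ‖w‖ := T.le_opNorm w
      have h7 : ‖T w‖ ^ 2 ≤ (μ * ‖w‖) ^ 2 := pow_le_pow_left₀ (norm_nonneg _) h6 2
      have h8 : μ * ‖w‖ ^ 2 ≤ inner ℝ (T w) w := by
        rw [hwn]
        linarith
      nlinarith [mul_le_mul_of_nonneg_left h8 hnorm.le]
    have h6 : ‖T w - μ • w‖ = 0 := by
      have h7 : ‖T w - μ • w‖ ^ 2 = 0 := le_antisymm h5 (by positivity)
      exact pow_eq_zero_iff two_ne_zero |>.1 h7
    exact sub_eq_zero.1 (norm_eq_zero.1 h6)
  have hEinv : ∀ g : G, ∀ v ∈ E, π g v ∈ E := by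
    intro g
    have hg : g ∈ Subgroup.closure (S : Set G) := by rw [hgen]; trivial
    have hboth : (∀ v ∈ E, π g v ∈ E) ∧ ∀ v ∈ E, π g⁻¹ v ∈ E := by
      induction hg using Subgroup.closure_induction with
      | mem s hs =>
        refine ⟨fun v hv => ?_, fun v hv => hS1 s hs v hv⟩
        have := hS1 s⁻¹ (hinv s hs) v hv
        rwa [inv_inv] at this
      | one => exact ⟨fun v hv => by rwa [map_one], fun v hv => by rwa [inv_one, map_one]⟩
      | mul x y _ _ hx hy =>
        refine ⟨fun v hv => ?_, fun v hv => ?_⟩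
        · rw [map_mul, Module.End.mul_apply]
          exact hx.1 _ (hy.1 _ hv)
        · rw [mul_inv_rev, map_mul, Module.End.mul_apply]
          exact hy.2 _ (hx.2 _ hv)
      | inv x _ hx => exact ⟨hx.2, by rw [inv_inv]; exact hx.1⟩
    exact hboth.1
  let ρ : G →* (E →ₗ[ℝ] E) :=
    { toFun := fun g => (π g).restrict (hEinv g)
      map_one' := by
        ext v
        show π 1 (v : H) = v
        rw [map_one, Module.End.one_apply]
      map_mul' := fun g g' => by
        ext v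
        show π (g * g') (v : H) = π g (π g' (v : H))
        rw [map_mul, Module.End.mul_apply] }
  have hρ : ∀ g (v : E), ((ρ g v : E) : H) = π g v := fun g v => rfl
  let P : H →L[ℝ] E := E.orthogonalProjectionOnto
  have hP : ∀ (v : H) (w : E), (inner ℝ ((P v : E) : H) (w : H) : ℝ) = inner ℝ v (w : H) := by
    intro v w
    have h2 := E.starProjection_inner_eq_zero v w w.2
    rw [inner_sub_left, sub_eq_zero] at h2
    exact h2.symm
  have hcomm : ∀ g v, P (π g v) = ρ g (P v) := by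
    intro g v
    apply ext_inner_right ℝ
    intro w
    show (inner ℝ ((P (π g v) : E) : H) (w : H) : ℝ) = inner ℝ (π g ((P v : E) : H)) (w : H)
    rw [hP, inner_rho h.iso, inner_rho h.iso]
    exact (hP v ⟨π g⁻¹ w, hEinv _ _ w.2⟩).symm
  refine ⟨E, inferInstance, inferInstance, hfd, ρ, fun g => P (b g), ⟨?_, ?_, ?_⟩, ?_⟩
  · intro g v w
    exact h.iso g v w
  · intro g g'
    show P (b (g * g')) = P (b g) + ρ g (P (b g'))
    rw [h.coc, map_add, hcomm]
  · have h2 := av2_map S (P : H →ₗ[ℝ] E) b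
    rw [h.harm, map_zero] at h2
    exact h2.symm
  · by_contra hcon
    push Not at hcon
    have hv₀E : v₀ ∈ E := (hE v₀).2 hTv₀
    have h2 : ∀ g, (inner ℝ (b g) v₀ : ℝ) = 0 := by
      intro g
      have h3 := hP (b g) ⟨v₀, hv₀E⟩
      rw [hcon g] at h3
      rw [← h3]
      simp
    have h3 := hTz v₀ h2
    rw [hTv₀, inner_smul_left, real_inner_self_eq_norm_sq] at h3
    have h4 : 0 < ‖v₀‖ := norm_pos_iff.2 hv₀
    have h5 : 0 < μ * ‖v₀‖ ^ 2 := by positivity
    simp at h3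
    rcases h3 with h3 | h3
    · exact hnorm.ne' h3
    · exact hv₀ h3

end Pool.Agent.J4H54.GR
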