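import Pool.Agent.J4H54.GR.Ultra

set_option autoImplicit false
set_option linter.unusedSectionVars false

/-!
# The finitary theorem
-/

namespace Pool.Agent.J4H54.GR

open Filter Subgroup Pool.Agent.J4H54.DL
open scoped Pointwise

theorem VS.mono {G : Type} [Group G] {m m' e e' : ℕ} {H : Subgroup G} (h : VS m e H)
    (hm : m ≤ m') (he : e ≤ e') : VS m' e' H := by
  obtain ⟨M, h1, h2, h3, h4⟩ := h
  exact ⟨M, h1, h2, h3.trans hm, ds_bot_of_le he h4⟩

/-- polynomial growth can be read off from one symmetric generating set -/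
theorem PG.of_gen {G : Type} [Group G] {T : Set G} (h1 : (1 : G) ∈ T)
    (hinv : ∀ s ∈ T, s⁻¹ ∈ T) (hgen : closure T = ⊤) (hfin : T.Finite) {d C : ℕ}
    (hC : ∀ n, 1 ≤ n → (T ^ n).ncard ≤ C * n ^ d) : PG d G := by
  have h2 : ∀ g : G, ∃ a : ℕ, g ∈ T ^ a := by
    intro g
    have hg : g ∈ closure T := by rw [hgen]; trivial
    induction hg using closure_induction with
    | mem s hs => exact ⟨1, by rwa [pow_one]⟩
    | one => exact ⟨0, by rw [pow_zero]; exact Set.mem_one.2 rfl⟩
    | mul x y _ _ hx hy =>
      obtain ⟨a, ha⟩ := hx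
      obtain ⟨b, hb⟩ := hy
      exact ⟨a + b, by rw [pow_add]; exact Set.mul_mem_mul ha hb⟩
    | inv x _ hx =>
      obtain ⟨a, ha⟩ := hx
      refine ⟨a, ?_⟩
      have h3 : T⁻¹ = T := by
        ext s
        rw [Set.mem_inv]
        constructor
        · intro h
          have := hinv _ h
          rwa [inv_inv] at this
        · exact hinv s
      have h4 : x⁻¹ ∈ (T ^ a)⁻¹ := Set.inv_mem_inv.2 ha
      rwa [← inv_pow, h3] at h4
  choose a ha using h2
  intro S
  set b := S.sup a + 1 with hb
  have hS : (S : Set G) ⊆ T ^ b := by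
    intro s hs
    refine Set.pow_subset_pow_right h1 ?_ (ha s)
    have := Finset.le_sup (f := a) hs
    omega
  have hfinb : ∀ n, (T ^ n).Finite := by
    intro n
    obtain ⟨T', hT'⟩ := hfin.exists_finset_coe
    rw [← hT']
    exact set_pow_finite T' n
  refine ⟨C * b ^ d, fun n hn => ?_⟩
  have h3 : (S : Set G) ^ n ⊆ T ^ (b * n) := by
    rw [pow_mul]
    exact Set.pow_subset_pow_left hS
  calc ((S : Set G) ^ n).ncard ≤ (T ^ (b * n)).ncard := Set.ncard_le_ncard h3 (hfinb _)
    _ ≤ C * (b * n) ^ d := hC _ (Nat.mul_pos (by omega) (by omega))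
    _ = C * b ^ d * n ^ d := by rw [mul_pow]; ring

/-- the symmetric set of a tuple -/
def sy {G ι : Type} [Group G] (x : ι → G) : Set G :=
  {g | g = 1 ∨ ∃ j, g = x j ∨ g = (x j)⁻¹}

theorem sy_finite {G ι : Type} [Group G] [Finite ι] (x : ι → G) : (sy x).Finite := by
  have h1 : sy x ⊆ {1} ∪ (Set.range x ∪ Set.range fun j => (x j)⁻¹) := by
    rintro g (h | ⟨j, h | h⟩)
    · left; exact h
    · right; left; exact ⟨j, h.symm⟩
    · right; right; exact ⟨j, h.symm⟩
  exact ((Set.finite_singleton _).union ((Set.finite_range _).union (Set.finite_range _))).subset h1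

theorem sy_inv {G ι : Type} [Group G] (x : ι → G) : ∀ s ∈ sy x, s⁻¹ ∈ sy x := by
  rintro s (h | ⟨j, h | h⟩)
  · left; rw [h, inv_one]
  · right; exact ⟨j, Or.inr (by rw [h])⟩
  · right; exact ⟨j, Or.inl (by rw [h, inv_inv])⟩

/-- **The finitary theorem.** -/
theorem finitary (k d C : ℕ) : ∃ R m e : ℕ, ∀ (Γ : Type) [Group Γ] (x : Fin k → Γ),
    closure (Set.range x) = ⊤ → (∀ n, 1 ≤ n → n ≤ R → ((sy x) ^ n).ncard ≤ C * n ^ d) →
    VS m e (⊤ : Subgroup Γ) := by
  by_contra hcon
  push Not at hcon
  choose Γ iΓ x hgen hC hVS using fun i : ℕ => hcon i i i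
  let U : Ultrafilter ℕ := hyperfilter ℕ
  have hU : ∀ N : ℕ, ∀ᶠ i in (U : Filter ℕ), N ≤ i := by
    intro N
    have h1 : (U : Filter ℕ) ≤ atTop := by
      rw [← Nat.cofinite_eq_atTop]
      exact hyperfilter_le_cofinite
    exact h1 (eventually_ge_atTop N)
  let xs : Fin k → ∀ i, Γ i := fun j i => x i j
  set X := closure (Set.range fun j => cl U (xs j)) with hX
  have hxX : ∀ j, cl U (xs j) ∈ X := fun j => subset_closure ⟨j, rfl⟩
  let xb : Fin k → X := fun j => ⟨cl U (xs j), hxX j⟩
  have hPG : PG d X := by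
    refine PG.of_gen (T := sy xb) (C := C) (Or.inl rfl) (sy_inv xb) ?_ (sy_finite xb) ?_
    · -- generation
      have h1 : closure (Set.range xb) = ⊤ := by
        have h2 : (closure (Set.range xb)).map X.subtype = (⊤ : Subgroup X).map X.subtype := by
          rw [MonoidHom.map_closure, ← Set.range_comp, ← MonoidHom.range_eq_map, range_subtype]
          exact hX.symm
        exact map_injective X.subtype_injective h2
      rw [eq_top_iff, ← h1]
      apply Subgroup.closure_mono
      rintro _ ⟨j, rfl⟩
      exact Or.inr ⟨j, Or.inl rfl⟩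
    · intro n hn
      -- representatives
      have hrep : ∀ n : ℕ, ∀ z : X, z ∈ (sy xb) ^ n → ∃ y : ∀ i, Γ i, cl U y = z ∧
          ∀ i, y i ∈ (sy (x i)) ^ n := by
        intro n
        induction n with
        | zero =>
          intro z hz
          rw [pow_zero] at hz
          refine ⟨1, ?_, fun i => ?_⟩
          · rw [Set.mem_one.1 hz]
            rfl
          · rw [pow_zero]
            exact Set.mem_one.2 rfl
        | succ n ih =>
          intro z hz
          rw [pow_succ] at hz
          obtain ⟨a, ha, b, hb, rfl⟩ := hz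
          obtain ⟨y, hy, hy'⟩ := ih a ha
          rcases hb with hb | ⟨j, hb | hb⟩
          · refine ⟨y, ?_, fun i => ?_⟩
            · rw [hy, hb]
              simp
            · rw [pow_succ, ← mul_one (y i)]
              exact Set.mul_mem_mul (hy' i) (Or.inl rfl)
          · refine ⟨y * xs j, ?_, fun i => ?_⟩
            · rw [cl_mul, hy, hb]
              rfl
            · rw [pow_succ]
              exact Set.mul_mem_mul (hy' i) (Or.inr ⟨j, Or.inl rfl⟩)
          · refine ⟨y * (xs j)⁻¹, ?_, fun i => ?_⟩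
            · rw [cl_mul, hy, hb]
              rfl
            · rw [pow_succ]
              exact Set.mul_mem_mul (hy' i) (Or.inr ⟨j, Or.inr rfl⟩)
      have hfinX : ((sy xb) ^ n).Finite := by
        obtain ⟨T', hT'⟩ := (sy_finite xb).exists_finset_coe
        rw [← hT']
        exact set_pow_finite T' n
      choose y hy hy' using fun z : ((sy xb) ^ n : Set X) => hrep n z z.2
      have hfin : Finite ((sy xb) ^ n : Set X) := hfinX
      have hdist : ∀ᶠ i in (U : Filter ℕ), ∀ z z' : ((sy xb) ^ n : Set X), y z i = y z' i →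
          z = z' := by
        rw [eventually_all]
        intro z
        rw [eventually_all]
        intro z'
        by_cases h : z = z'
        · exact Eventually.of_forall fun i _ => h
        · have h1 : ¬ ∀ᶠ i in (U : Filter ℕ), y z i = y z' i := by
            intro h2
            have h3 := cl_eq.2 h2
            rw [hy, hy] at h3
            exact h (Subtype.ext (Subtype.ext h3))
          have h2 := Ultrafilter.eventually_not.2 h1
          filter_upwards [h2] with i hi h3
          exact absurd h3 hi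
      obtain ⟨i, hi1, hi2⟩ := (hdist.and (hU n)).exists
      refine le_trans ?_ (hC i n hn hi2)
      have hfini : Finite ((sy (x i)) ^ n : Set (Γ i)) := by
        obtain ⟨T', hT'⟩ := (sy_finite (x i)).exists_finset_coe
        rw [← hT']
        exact set_pow_finite T' n
      rw [← Nat.card_coe_set_eq, ← Nat.card_coe_set_eq]
      exact Nat.card_le_card_of_injective
        (fun z : ((sy xb) ^ n : Set X) => (⟨y z i, hy' z i⟩ : ((sy (x i)) ^ n : Set (Γ i))))
        fun z z' h => hi1 z z' (congrArg Subtype.val h)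
  obtain ⟨m, e, hme⟩ := main_ultra d k xs hPG
  obtain ⟨i, hi1, hi2⟩ := (hme.and (hU (max m e))).exists
  apply hVS i
  have h1 : closure (Set.range fun j => xs j i) = ⊤ := hgen i
  rw [h1] at hi1
  exact hi1.mono ((le_max_left _ _).trans hi2) ((le_max_right _ _).trans hi2)

end Pool.Agent.J4H54.GR
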