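import Pool.Agent.J4H54.GR.Op

set_option autoImplicit false
set_option linter.unusedSectionVars false

/-!
# Inner product spaces from positive semidefinite kernels
-/

namespace Pool.Agent.J4H54.GR

open Finset Filter Topology

/-- positive semidefinite kernels -/
class PSD {X : Type} (K : X → X → ℝ) : Prop where
  symm : ∀ x y, K x y = K y x
  nonneg : ∀ f : X →₀ ℝ, 0 ≤ f.sum fun x a => f.sum fun y b => a * b * K x y

/-- finitely supported functions -/
def H0 {X : Type} (_ : X → X → ℝ) : Type := X →₀ ℝ

section

variable {X : Type} {K : X → X → ℝ}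

noncomputable instance : AddCommGroup (H0 K) := inferInstanceAs (AddCommGroup (X →₀ ℝ))
noncomputable instance : Module ℝ (H0 K) := inferInstanceAs (Module ℝ (X →₀ ℝ))

/-- the point masses -/
noncomputable def H0.of (x : X) : H0 K := Finsupp.single x (1 : ℝ)

/-- the form -/
noncomputable def form (K : X → X → ℝ) (f g : X →₀ ℝ) : ℝ :=
  f.sum fun x a => g.sum fun y b => a * b * K x y

theorem form_add_left (f f' g : X →₀ ℝ) : form K (f + f') g = form K f g + form K f' g := by
  unfold form
  rw [Finsupp.sum_add_index']
  · intro x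
    simp
  · intro x a b
    rw [← Finsupp.sum_add]
    congr 1
    ext y c
    ring

theorem form_smul_left (c : ℝ) (f g : X →₀ ℝ) : form K (c • f) g = c * form K f g := by
  unfold form
  rw [Finsupp.sum_smul_index (by intro x; simp), Finsupp.mul_sum]
  congr 1
  ext x a
  rw [Finsupp.mul_sum]
  congr 1
  ext y b
  ring

theorem form_symm [PSD K] (f g : X →₀ ℝ) : form K f g = form K g f := by
  unfold form
  rw [Finsupp.sum_comm]
  congr 1
  ext y b
  congr 1
  ext x a
  rw [PSD.symm (K := K) x y]
  ring

variable [PSD K]

noncomputable instance : PreInnerProductSpace.Core ℝ (H0 K) where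
  inner f g := form K f g
  conj_inner_symm f g := by
    show form K g f = form K f g
    exact form_symm g f
  add_left f g h := form_add_left f g h
  smul_left f g c := form_smul_left c f g
  re_inner_nonneg f := PSD.nonneg (K := K) f

noncomputable instance : SeminormedAddCommGroup (H0 K) :=
  InnerProductSpace.Core.toSeminormedAddCommGroup (𝕜 := ℝ)

noncomputable instance : InnerProductSpace ℝ (H0 K) := .ofCore _

theorem inner_def' (f g : H0 K) : inner ℝ f g = form K f g := rfl

theorem inner_of (x y : X) : inner ℝ (H0.of x : H0 K) (H0.of y) = K x y := by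
  rw [inner_def']
  unfold form H0.of
  rw [Finsupp.sum_single_index (by simp), Finsupp.sum_single_index (by simp)]
  ring

/-- linear maps are determined on the point masses -/
theorem H0.hom_ext {F : Type*} [AddCommGroup F] [Module ℝ F] {A B : H0 K →ₗ[ℝ] F}
    (h : ∀ x, A (H0.of x) = B (H0.of x)) : A = B :=
  Finsupp.lhom_ext' (M := ℝ) (φ := (A : (X →₀ ℝ) →ₗ[ℝ] F)) (ψ := B) fun x =>
    LinearMap.ext_ring (h x)

/-- linear maps from values on the point masses -/
noncomputable def H0.lift {F : Type*} [AddCommGroup F] [Module ℝ F] (u : X → F) :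
    H0 K →ₗ[ℝ] F := Finsupp.linearCombination ℝ u

theorem H0.lift_of {F : Type*} [AddCommGroup F] [Module ℝ F] (u : X → F) (x : X) :
    (H0.lift u : H0 K →ₗ[ℝ] F) (H0.of x) = u x := by
  unfold H0.lift H0.of
  exact (Finsupp.linearCombination_single ℝ 1 x).trans (one_smul _ _)

/-- a linear map into an inner product space whose values on the point masses have the right
inner products preserves inner products -/
theorem H0.isom {F : Type*} [SeminormedAddCommGroup F] [InnerProductSpace ℝ F]
    (A : H0 K →ₗ[ℝ] F) (h : ∀ x y, inner ℝ (A (H0.of x)) (A (H0.of y)) = K x y) (f g : H0 K) :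
    inner ℝ (A f) (A g) = inner ℝ f g := by
  have h1 : (innerₗ F).compl₁₂ A A = innerₗ (H0 K) := by
    apply H0.hom_ext
    intro x
    apply H0.hom_ext
    intro y
    show inner ℝ (A (H0.of x)) (A (H0.of y)) = inner ℝ (H0.of x : H0 K) (H0.of y)
    rw [h, inner_of]
  exact LinearMap.congr_fun (LinearMap.congr_fun h1 f) g

end

section gns

/-- **Affine isometric actions from kernels.** -/
theorem gns {G : Type} [Group G] (K : G → G → ℝ) [PSD K] (h1 : ∀ g, K g 1 = 0)
    (hinv : ∀ g x y, K (g * x) (g * y) - K (g * x) g - K g (g * y) + K g g = K x y) :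
    ∃ (H : Type) (_ : NormedAddCommGroup H) (_ : InnerProductSpace ℝ H) (_ : CompleteSpace H)
      (π : G →* (H →ₗ[ℝ] H)) (b : G → H),
      (∀ g v w, inner ℝ (π g v) (π g w) = inner ℝ v w) ∧
      (∀ g h, b (g * h) = b g + π g (b h)) ∧ ∀ g h, inner ℝ (b g) (b h) = K g h := by
  have h1' : ∀ g, K 1 g = 0 := fun g => by rw [PSD.symm (K := K)]; exact h1 g
  let A : G → H0 K →ₗ[ℝ] H0 K := fun g => H0.lift fun x => H0.of (g * x) - H0.of g
  have hA : ∀ g x, A g (H0.of x) = H0.of (g * x) - H0.of g := fun g x => H0.lift_of _ x
  have hiso : ∀ g f f', inner ℝ (A g f) (A g f') = inner ℝ f f' := by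
    intro g
    apply H0.isom
    intro x y
    rw [hA, hA, inner_sub_left, inner_sub_right, inner_sub_right, inner_of, inner_of, inner_of,
      inner_of, ← hinv g x y]
    ring
  have hnorm : ∀ g f, ‖A g f‖ = ‖f‖ := by
    intro g f
    have h2 := hiso g f f
    rw [real_inner_self_eq_norm_sq, real_inner_self_eq_norm_sq] at h2
    exact (pow_left_inj₀ (norm_nonneg _) (norm_nonneg _) two_ne_zero).1 h2
  let C : G → H0 K →L[ℝ] H0 K := fun g => (A g).mkContinuous 1 fun f => by
    rw [one_mul]
    exact (hnorm g f).le
  have hC : ∀ g f, C g f = A g f := fun g f => rfl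
  let H := UniformSpace.Completion (H0 K)
  let B : G → H →L[ℝ] H := fun g => (C g).completion
  have hB : ∀ g (f : H0 K), B g (f : H) = ((A g f : H0 K) : H) := fun g f =>
    ContinuousLinearMap.completion_apply_coe (C g) f
  have hBiso : ∀ g v w, inner ℝ (B g v) (B g w) = inner ℝ v w := by
    intro g v w
    refine UniformSpace.Completion.induction_on₂ v w
      (isClosed_eq ?_ ?_) fun x y => ?_
    · exact UniformSpace.Completion.Continuous.inner ((B g).continuous.comp continuous_fst)
        ((B g).continuous.comp continuous_snd)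
    · exact UniformSpace.Completion.Continuous.inner continuous_fst continuous_snd
    · rw [hB, hB, UniformSpace.Completion.inner_coe, UniformSpace.Completion.inner_coe, hiso]
  have hone : ((H0.of (1 : G) : H0 K) : H) = 0 := by
    rw [← norm_eq_zero, UniformSpace.Completion.norm_coe]
    have h2 : ‖(H0.of (1 : G) : H0 K)‖ ^ 2 = 0 := by
      rw [← real_inner_self_eq_norm_sq, inner_of, h1]
    exact pow_eq_zero_iff two_ne_zero |>.1 h2
  have hext : ∀ S T : H →L[ℝ] H, (∀ x : G, S ((H0.of x : H0 K) : H) = T ((H0.of x : H0 K) : H)) →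
      S = T := by
    intro S T h2
    have h3 : (S ∘L UniformSpace.Completion.toComplL : H0 K →L[ℝ] H) =
        T ∘L UniformSpace.Completion.toComplL := by
      apply ContinuousLinearMap.coe_injective
      apply H0.hom_ext
      intro x
      exact h2 x
    ext v
    refine UniformSpace.Completion.induction_on v (isClosed_eq S.continuous T.continuous)
      fun x => ?_
    exact congrArg (fun L : H0 K →L[ℝ] H => L x) h3
  have hof : ∀ g x : G, B g ((H0.of x : H0 K) : H) =
      ((H0.of (g * x) : H0 K) : H) - ((H0.of g : H0 K) : H) := by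
    intro g x
    rw [hB, hA, UniformSpace.Completion.coe_sub]
  have hB1 : B 1 = ContinuousLinearMap.id ℝ H := by
    apply hext
    intro x
    rw [hof, one_mul, hone, sub_zero]
    rfl
  have hBmul : ∀ g h, B (g * h) = (B g) ∘L (B h) := by
    intro g h
    apply hext
    intro x
    rw [hof, ContinuousLinearMap.comp_apply, hof, map_sub, hof, hof, mul_assoc]
    abel
  refine ⟨H, inferInstance, inferInstance, inferInstance,
    { toFun := fun g => (B g : H →ₗ[ℝ] H)
      map_one' := by rw [hB1]; rfl
      map_mul' := fun g h => by rw [hBmul]; rfl },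
    fun g => ((H0.of g : H0 K) : H), hBiso, ?_, ?_⟩
  · intro g h
    show _ = _ + B g _
    rw [hof]
    abel
  · intro g h
    rw [UniformSpace.Completion.inner_coe, inner_of]

end gns

end Pool.Agent.J4H54.GR
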