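import Pool.Agent.J4H54.GR.Step

set_option autoImplicit false
set_option linter.unusedSectionVars false

/-!
# Kernels of maps onto the integers
-/

namespace Pool.Agent.J4H54.GR

open Finset Filter Topology
open scoped Pointwise

theorem set_pow_finite {G : Type} [Group G] (S : Finset G) (n : ℕ) : ((S : Set G) ^ n).Finite := by
  classical
  rw [← Finset.coe_pow]
  exact Finset.finite_toSet _

/-- polynomial growth passes to groups that embed -/
theorem PG.of_injective {d : ℕ} {G H : Type} [Group G] [Group H] (hG : PG d G) (f : H →* G)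
    (hf : Function.Injective f) : PG d H := by
  classical
  intro S
  obtain ⟨C, hC⟩ := hG (S.image f)
  refine ⟨C, fun n hn => ?_⟩
  have h1 := hC n hn
  rw [coe_image, ← Set.image_pow, Set.ncard_image_of_injective _ hf] at h1
  exact h1

theorem PG.subgroup {d : ℕ} {G : Type} [Group G] (hG : PG d G) (H : Subgroup G) : PG d H :=
  hG.of_injective H.subtype H.subtype_injective

/-- the growth of the kernel of a map onto the integers -/
theorem PG.ker {d : ℕ} {G : Type} [Group G] (hG : PG (d + 1) G) (φ : G →* Multiplicative ℤ)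
    (hφ : Function.Surjective φ) : PG d φ.ker := by
  classical
  intro S
  obtain ⟨t, ht⟩ := hφ (Multiplicative.ofAdd 1)
  set T : Finset G := insert t (insert 1 (S.image φ.ker.subtype)) with hT
  have hT1 : (1 : G) ∈ (T : Set G) := by simp [hT]
  have hTt : t ∈ (T : Set G) := by simp [hT]
  obtain ⟨C, hC⟩ := hG T
  refine ⟨C * 2 ^ (d + 1), fun n hn => ?_⟩
  have h1 := hC (2 * n) (by omega)
  have htj : ∀ j : ℕ, φ (t ^ j) = Multiplicative.ofAdd (j : ℤ) := by
    intro j
    rw [map_pow, ht, ← ofAdd_nsmul, nsmul_eq_mul, mul_one]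
  have hfin : Finite (((T : Set G) ^ (2 * n) : Set G)) := set_pow_finite T _
  have hfin' : Finite (((S : Set φ.ker) ^ n : Set φ.ker)) := set_pow_finite S _
  have hmem : ∀ s : φ.ker, s ∈ (S : Set φ.ker) ^ n → ∀ j < n,
      (s : G) * t ^ j ∈ (T : Set G) ^ (2 * n) := by
    intro s hs j hj
    have h2 : (s : G) ∈ (T : Set G) ^ n := by
      have h3 : φ.ker.subtype s ∈ φ.ker.subtype '' ((S : Set φ.ker) ^ n) := ⟨s, hs, rfl⟩
      rw [Set.image_pow, ← coe_image] at h3
      refine Set.pow_subset_pow_left ?_ h3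
      intro x hx
      simp only [hT, coe_insert]
      right; right; exact hx
    have h3 : t ^ j ∈ (T : Set G) ^ n :=
      Set.pow_subset_pow_right hT1 hj.le (Set.pow_mem_pow hTt)
    rw [two_mul, pow_add]
    exact Set.mul_mem_mul h2 h3
  have h2 : n * ((S : Set φ.ker) ^ n).ncard ≤ ((T : Set G) ^ (2 * n)).ncard := by
    rw [← Nat.card_coe_set_eq, ← Nat.card_coe_set_eq]
    have h3 : Nat.card (Fin n × ((S : Set φ.ker) ^ n : Set φ.ker)) =
        n * Nat.card ((S : Set φ.ker) ^ n : Set φ.ker) := by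
      rw [Nat.card_prod, Nat.card_fin]
    rw [← h3]
    refine Nat.card_le_card_of_injective
      (fun x => (⟨(x.2.1 : G) * t ^ (x.1 : ℕ), hmem x.2.1 x.2.2 x.1 x.1.2⟩ :
        ((T : Set G) ^ (2 * n) : Set G))) ?_
    rintro ⟨i, s, hs⟩ ⟨j, s', hs'⟩ h
    have h4 : (s : G) * t ^ (i : ℕ) = (s' : G) * t ^ (j : ℕ) := congrArg Subtype.val h
    have h5 := congrArg φ h4
    rw [map_mul, map_mul, htj, htj, MonoidHom.mem_ker.1 s.2, MonoidHom.mem_ker.1 s'.2, one_mul,
      one_mul] at h5
    have h6 : (i : ℕ) = (j : ℕ) := by exact_mod_cast Multiplicative.ofAdd.injective h5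
    have h7 : i = j := Fin.ext h6
    subst h7
    have h8 := mul_right_cancel h4
    have h9 : s = s' := Subtype.ext h8
    subst h9
    rfl
  have h3 : n * ((S : Set φ.ker) ^ n).ncard ≤ n * (C * 2 ^ (d + 1) * n ^ d) := by
    calc n * ((S : Set φ.ker) ^ n).ncard ≤ C * (2 * n) ^ (d + 1) := h2.trans h1
      _ = n * (C * 2 ^ (d + 1) * n ^ d) := by rw [mul_pow, pow_succ n]; ring
  exact Nat.le_of_mul_le_mul_left h3 (by omega)

section milnor

variable {G : Type} [Group G]

/-- ordered products of conjugates -/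
def cp (t e : G) (x : ℕ → ℕ) : ℕ → G
  | 0 => 1
  | m + 1 => cp t e x m * (t ^ m * e * (t ^ m)⁻¹) ^ x m

theorem cp_mem (t e : G) (x : ℕ → ℕ) (m : ℕ) :
    cp t e x m ∈ Subgroup.closure {c | ∃ j < m, c = t ^ j * e * (t ^ j)⁻¹} := by
  induction m with
  | zero => exact Subgroup.one_mem _
  | succ m ih =>
    rw [cp]
    have h2 : t ^ m * e * (t ^ m)⁻¹ ∈
        Subgroup.closure {c | ∃ j < m + 1, c = t ^ j * e * (t ^ j)⁻¹} :=
      Subgroup.subset_closure ⟨m, by omega, rfl⟩
    refine Subgroup.mul_mem _ (Subgroup.closure_mono ?_ ih) (Subgroup.pow_mem _ h2 _)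
    rintro c ⟨j, hj, rfl⟩
    exact ⟨j, by omega, rfl⟩

theorem cp_word {T : Set G} {t e : G} (h1 : (1 : G) ∈ T) (ht : t ∈ T) (he : e ∈ T) {x : ℕ → ℕ}
    (hx : ∀ i, x i ≤ 1) (m : ℕ) : cp t e x m * t ^ m ∈ T ^ (2 * m) := by
  induction m with
  | zero =>
    rw [cp, mul_zero, pow_zero, pow_zero, one_mul]
    exact Set.mem_one.2 rfl
  | succ m ih =>
    have h2 : cp t e x (m + 1) * t ^ (m + 1) = cp t e x m * t ^ m * e ^ x m * t := by
      rw [cp, conj_pow, pow_succ]
      group
    rw [h2, mul_add, mul_one, pow_add, pow_two, ← mul_assoc]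
    have h3 : e ^ x m ∈ T := by
      have := hx m
      interval_cases (x m)
      · rwa [pow_zero]
      · rwa [pow_one]
    exact Set.mul_mem_mul (Set.mul_mem_mul ih h3) ht

theorem cp_inj {t e : G}
    (h : ∀ i, t ^ i * e * (t ^ i)⁻¹ ∉ Subgroup.closure {c | ∃ j < i, c = t ^ j * e * (t ^ j)⁻¹})
    {x x' : ℕ → ℕ} (hx : ∀ i, x i ≤ 1) (hx' : ∀ i, x' i ≤ 1) (m : ℕ) :
    cp t e x m = cp t e x' m → ∀ i < m, x i = x' i := by
  have key : ∀ {x x' : ℕ → ℕ}, (∀ i, x i ≤ 1) → (∀ i, x' i ≤ 1) → ∀ m,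
      cp t e x (m + 1) = cp t e x' (m + 1) → ¬ x' m < x m := by
    intro x x' hx hx' m heq hlt
    have h1 := hx m
    have h2 := hx' m
    have h3 : x m = 1 := by omega
    have h4 : x' m = 0 := by omega
    rw [cp, cp, h3, h4, pow_one, pow_zero, mul_one] at heq
    apply h m
    have h5 : t ^ m * e * (t ^ m)⁻¹ = (cp t e x m)⁻¹ * cp t e x' m := by
      rw [← heq, inv_mul_cancel_left]
    rw [h5]
    exact Subgroup.mul_mem _ (Subgroup.inv_mem _ (cp_mem t e x m)) (cp_mem t e x' m)
  induction m with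
  | zero =>
    intro _ i hi
    omega
  | succ m ih =>
    intro heq
    have h1 := key hx hx' m heq
    have h2 := key hx' hx m heq.symm
    have h3 : x m = x' m := by omega
    rw [cp, cp, h3] at heq
    have h4 := ih (mul_right_cancel heq)
    intro i hi
    rcases Nat.lt_succ_iff_lt_or_eq.1 hi with h5 | h5
    · exact h4 i h5
    · rw [h5]
      exact h3

/-- Milnor's lemma: the conjugates of `e` by the powers of `t` generate a finitely generated
group -/
theorem milnor {d : ℕ} (hG : PG d G) (t e : G) : ∃ i : ℕ, ∀ j : ℕ,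
    t ^ j * e * (t ^ j)⁻¹ ∈ Subgroup.closure {c | ∃ j < i, c = t ^ j * e * (t ^ j)⁻¹} := by
  classical
  obtain ⟨i, hi⟩ : ∃ i : ℕ, t ^ i * e * (t ^ i)⁻¹ ∈
      Subgroup.closure {c | ∃ j < i, c = t ^ j * e * (t ^ j)⁻¹} := by
    by_contra hcon
    push Not at hcon
    set T : Finset G := {1, t, e} with hT
    have hT1 : (1 : G) ∈ (T : Set G) := by simp [hT]
    have hTt : t ∈ (T : Set G) := by simp [hT]
    have hTe : e ∈ (T : Set G) := by simp [hT]
    obtain ⟨C, hC⟩ := hG T
    have hcount : ∀ m : ℕ, 1 ≤ m → 2 ^ m ≤ C * (2 * m) ^ d := by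
      intro m hm
      have h1 := hC (2 * m) (by omega)
      let ex : (Fin m → Fin 2) → ℕ → ℕ := fun a i => if h : i < m then (a ⟨i, h⟩ : ℕ) else 0
      have hex : ∀ a i, ex a i ≤ 1 := by
        intro a i
        simp only [ex]
        split_ifs with h
        · have := (a ⟨i, h⟩).2
          omega
        · omega
      have hfin : Finite (((T : Set G) ^ (2 * m) : Set G)) := set_pow_finite T _
      have h2 : Nat.card (Fin m → Fin 2) ≤ ((T : Set G) ^ (2 * m)).ncard := by
        rw [← Nat.card_coe_set_eq]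
        refine Nat.card_le_card_of_injective (fun a => (⟨cp t e (ex a) m * t ^ m,
          cp_word hT1 hTt hTe (hex a) m⟩ : ((T : Set G) ^ (2 * m) : Set G))) ?_
        intro a a' h
        have h3 : cp t e (ex a) m * t ^ m = cp t e (ex a') m * t ^ m := congrArg Subtype.val h
        have h4 := cp_inj hcon (hex a) (hex a') m (mul_right_cancel h3)
        ext i
        have h5 := h4 i i.2
        simp only [ex, i.2, dite_true] at h5
        exact h5
      have h3 : Nat.card (Fin m → Fin 2) = 2 ^ m := by simp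
      rw [h3] at h2
      exact h2.trans h1
    have h2 : Tendsto (fun m : ℕ => (m : ℝ) ^ d * (1 / 2) ^ m) atTop (𝓝 0) :=
      tendsto_pow_const_mul_const_pow_of_lt_one d (by norm_num) (by norm_num)
    have h3 := h2.const_mul ((C : ℝ) * 2 ^ d)
    rw [mul_zero] at h3
    obtain ⟨m, hm1, hm2⟩ := ((h3.eventually (gt_mem_nhds (by norm_num : (0 : ℝ) < 1))).and
      (eventually_ge_atTop 1)).exists
    have h4 : ((2 ^ m : ℕ) : ℝ) ≤ ((C * (2 * m) ^ d : ℕ) : ℝ) := by exact_mod_cast hcount m hm2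
    push_cast at h4
    have h5 : (C : ℝ) * 2 ^ d * ((m : ℝ) ^ d * (1 / 2) ^ m) * 2 ^ m = C * (2 * m) ^ d := by
      rw [mul_pow 2 (m : ℝ) d, one_div, inv_pow]
      field_simp
    have h6 : (0 : ℝ) < 2 ^ m := by positivity
    rw [← h5] at h4
    have h7 : (C : ℝ) * 2 ^ d * ((m : ℝ) ^ d * (1 / 2) ^ m) * 2 ^ m < 1 * 2 ^ m :=
      mul_lt_mul_of_pos_right hm1 h6
    linarith
  refine ⟨i, fun j => ?_⟩
  set A := Subgroup.closure {c | ∃ j < i, c = t ^ j * e * (t ^ j)⁻¹} with hA
  -- `A` is stable under conjugation by `t`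
  have hstab : ∀ a ∈ A, t * a * t⁻¹ ∈ A := by
    intro a ha
    have h1 : a ∈ (A.comap (MulAut.conj t).toMonoidHom) := by
      have h2 : A ≤ A.comap (MulAut.conj t).toMonoidHom := by
        rw [hA, Subgroup.closure_le]
        rintro c ⟨k, hk, rfl⟩
        rw [SetLike.mem_coe, Subgroup.mem_comap]
        show t * (t ^ k * e * (t ^ k)⁻¹) * t⁻¹ ∈ A
        have h3 : t * (t ^ k * e * (t ^ k)⁻¹) * t⁻¹ = t ^ (k + 1) * e * (t ^ (k + 1))⁻¹ := by
          rw [pow_succ']
          group
        rw [h3]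
        rcases Nat.lt_or_ge (k + 1) i with h4 | h4
        · exact Subgroup.subset_closure ⟨k + 1, h4, rfl⟩
        · have h5 : k + 1 = i := by omega
          rw [h5]
          exact hi
      exact h2 ha
    exact h1
  induction j with
  | zero =>
    rcases Nat.eq_zero_or_pos i with h0 | h0
    · rw [h0] at hi
      exact hi
    · exact Subgroup.subset_closure ⟨0, h0, rfl⟩
  | succ j ih =>
    have h1 := hstab _ ih
    have h3 : t * (t ^ j * e * (t ^ j)⁻¹) * t⁻¹ = t ^ (j + 1) * e * (t ^ (j + 1))⁻¹ := by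
      rw [pow_succ']
      group
    rwa [h3] at h1

/-- the kernel of a map onto the integers is finitely generated -/
theorem ker_fg [Group.FG G] {d : ℕ} (hG : PG d G) (φ : G →* Multiplicative ℤ)
    (hφ : Function.Surjective φ) : φ.ker.FG := by
  classical
  obtain ⟨S, hS⟩ := ‹Group.FG G›.1
  obtain ⟨t, ht⟩ := hφ (Multiplicative.ofAdd 1)
  have htj : ∀ j : ℤ, φ (t ^ j) = Multiplicative.ofAdd j := by
    intro j
    rw [map_zpow, ht, ← ofAdd_zsmul, smul_eq_mul, mul_one]
  choose i hi using fun e => milnor hG t e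
  choose i' hi' using fun e => milnor hG t⁻¹ e
  let es : G → G := fun s => s * t ^ (-(Multiplicative.toAdd (φ s)))
  have hes : ∀ s, φ (es s) = 1 := by
    intro s
    simp only [es]
    rw [map_mul, htj]
    have : φ s = Multiplicative.ofAdd (Multiplicative.toAdd (φ s)) := rfl
    rw [this, ← ofAdd_add]
    simp
  let F : G → Finset G := fun e => (Finset.range (i e)).image (fun j => t ^ j * e * (t ^ j)⁻¹) ∪
    (Finset.range (i' e)).image (fun j => t⁻¹ ^ j * e * (t⁻¹ ^ j)⁻¹)
  let B : Finset G := (S.image es).biUnion F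
  have hconj : ∀ (u e : G), φ e = 1 → φ (u * e * u⁻¹) = 1 := by
    intro u e he
    rw [map_mul, map_mul, he, mul_one, ← map_mul, mul_inv_cancel, map_one]
  have hB : Subgroup.closure (B : Set G) ≤ φ.ker := by
    rw [Subgroup.closure_le]
    intro x hx
    simp only [B, F, mem_coe, mem_biUnion, mem_image, mem_union] at hx
    rw [SetLike.mem_coe, MonoidHom.mem_ker]
    obtain ⟨e, ⟨s, -, rfl⟩, ⟨j, -, rfl⟩ | ⟨j, -, rfl⟩⟩ := hx
    · exact hconj _ _ (hes s)
    · exact hconj _ _ (hes s)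
  have hBall : ∀ s ∈ S, ∀ j : ℤ, t ^ j * es s * (t ^ j)⁻¹ ∈ Subgroup.closure (B : Set G) := by
    intro s hs j
    obtain ⟨n, rfl | rfl⟩ := j.eq_nat_or_neg
    · refine Subgroup.closure_mono ?_ (by rw [zpow_natCast]; exact hi (es s) n)
      rintro c ⟨k, hk, rfl⟩
      simp only [B, F, mem_coe, mem_biUnion, mem_image, mem_union]
      exact ⟨es s, ⟨s, hs, rfl⟩, Or.inl ⟨k, Finset.mem_range.2 hk, rfl⟩⟩
    · have h1 : t ^ (-(n : ℤ)) = t⁻¹ ^ n := by rw [zpow_neg, zpow_natCast, inv_pow]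
      refine Subgroup.closure_mono ?_ (by rw [h1]; exact hi' (es s) n)
      rintro c ⟨k, hk, rfl⟩
      simp only [B, F, mem_coe, mem_biUnion, mem_image, mem_union]
      exact ⟨es s, ⟨s, hs, rfl⟩, Or.inr ⟨k, Finset.mem_range.2 hk, rfl⟩⟩
  -- the closure is stable under conjugation by powers of `t`
  set A := Subgroup.closure {c | ∃ s ∈ S, ∃ j : ℤ, c = t ^ j * es s * (t ^ j)⁻¹} with hA
  have hAB : A ≤ Subgroup.closure (B : Set G) := by
    rw [hA, Subgroup.closure_le]
    rintro c ⟨s, hs, j, rfl⟩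
    exact hBall s hs j
  have hstab : ∀ k : ℤ, ∀ a ∈ A, t ^ k * a * (t ^ k)⁻¹ ∈ A := by
    intro k a ha
    have h2 : A ≤ A.comap (MulAut.conj (t ^ k)).toMonoidHom := by
      conv_lhs => rw [hA]
      rw [Subgroup.closure_le]
      rintro c ⟨s, hs, j, rfl⟩
      rw [SetLike.mem_coe, Subgroup.mem_comap]
      show t ^ k * (t ^ j * es s * (t ^ j)⁻¹) * (t ^ k)⁻¹ ∈ A
      have h3 : t ^ k * (t ^ j * es s * (t ^ j)⁻¹) * (t ^ k)⁻¹ =
          t ^ (k + j) * es s * (t ^ (k + j))⁻¹ := by
        rw [zpow_add]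
        group
      rw [h3]
      exact Subgroup.subset_closure ⟨s, hs, k + j, rfl⟩
    exact h2 ha
  -- every element is in `A t ^ j`
  have hall : ∀ g : G, g * t ^ (-(Multiplicative.toAdd (φ g))) ∈ A := by
    intro g
    have hg : g ∈ Subgroup.closure (S : Set G) := by rw [hS]; trivial
    induction hg using Subgroup.closure_induction with
    | mem s hs =>
      refine Subgroup.subset_closure ⟨s, hs, 0, ?_⟩
      simp [es]
    | one => simp [A.one_mem]
    | mul x y _ _ hx hy =>
      have h1 : x * y * t ^ (-(Multiplicative.toAdd (φ (x * y)))) =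
          (x * t ^ (-(Multiplicative.toAdd (φ x)))) *
            (t ^ (Multiplicative.toAdd (φ x)) * (y * t ^ (-(Multiplicative.toAdd (φ y)))) *
              (t ^ (Multiplicative.toAdd (φ x)))⁻¹) := by
        rw [map_mul, toAdd_mul, neg_add, zpow_add, zpow_neg, zpow_neg]
        have h2 : (t ^ Multiplicative.toAdd (φ x))⁻¹ * (t ^ Multiplicative.toAdd (φ y))⁻¹ =
            (t ^ Multiplicative.toAdd (φ y))⁻¹ * (t ^ Multiplicative.toAdd (φ x))⁻¹ := by
          rw [← zpow_neg, ← zpow_neg, ← zpow_add, ← zpow_add, add_comm]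
        rw [h2]
        group
      rw [h1]
      exact A.mul_mem hx (hstab _ _ hy)
    | inv x _ hx =>
      have h1 : x⁻¹ * t ^ (-(Multiplicative.toAdd (φ x⁻¹))) =
          t ^ (-(Multiplicative.toAdd (φ x))) * (x * t ^ (-(Multiplicative.toAdd (φ x))))⁻¹ *
            (t ^ (-(Multiplicative.toAdd (φ x))))⁻¹ := by
        rw [map_inv, toAdd_inv, neg_neg]
        group
      rw [h1]
      exact hstab _ _ (A.inv_mem hx)
  refine ⟨B, le_antisymm hB ?_⟩
  intro g hg
  rw [MonoidHom.mem_ker] at hg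
  have h1 := hall g
  rw [hg] at h1
  simp at h1
  exact hAB h1

end milnor

/-- finitely generated groups of growth degree zero are finite -/
theorem PG.finite {G : Type} [Group G] [Group.FG G] (hG : PG 0 G) : Finite G := by
  classical
  by_contra hinf
  rw [not_finite_iff_infinite] at hinf
  obtain ⟨L, -, φ, hφ⟩ := gromov_step hG
  obtain ⟨t, ht⟩ := hφ (Multiplicative.ofAdd 1)
  set T : Finset L := {1, t} with hT
  have hT1 : (1 : L) ∈ (T : Set L) := by simp [hT]
  have hTt : t ∈ (T : Set L) := by simp [hT]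
  obtain ⟨C, hC⟩ := (hG.subgroup L) T
  have h1 := hC (C + 1) (by omega)
  have hfin : Finite (((T : Set L) ^ (C + 1) : Set L)) := set_pow_finite T _
  have h2 : Nat.card (Fin (C + 1)) ≤ ((T : Set L) ^ (C + 1)).ncard := by
    rw [← Nat.card_coe_set_eq]
    refine Nat.card_le_card_of_injective (fun j : Fin (C + 1) => (⟨t ^ (j : ℕ),
      Set.pow_subset_pow_right hT1 (by omega) (Set.pow_mem_pow hTt)⟩ :
        ((T : Set L) ^ (C + 1) : Set L))) ?_
    intro a b h
    have h3 : t ^ (a : ℕ) = t ^ (b : ℕ) := congrArg Subtype.val h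
    have h4 := congrArg φ h3
    rw [map_pow, map_pow, ht, ← ofAdd_nsmul, ← ofAdd_nsmul] at h4
    have h5 := Multiplicative.ofAdd.injective h4
    simp at h5
    exact Fin.ext h5
  rw [Nat.card_fin] at h2
  simp at h1
  omega

end Pool.Agent.J4H54.GR
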