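import Mathlib

set_option autoImplicit false
set_option linter.unusedSectionVars false

/-!
# Averaging operators of isometric actions
-/

namespace Pool.Agent.J4H54.GR

open Finset Filter Topology

section Sym

variable {V : Type*} [SeminormedAddCommGroup V] [InnerProductSpace ℝ V]

/-- symmetric contractions -/
structure SC (Q : V →ₗ[ℝ] V) : Prop where
  sym : ∀ x y, inner ℝ (Q x) y = inner ℝ x (Q y)
  con : ∀ x, ‖Q x‖ ≤ ‖x‖

variable {Q : V →ₗ[ℝ] V}

theorem SC.pow_sym (h : SC Q) (n : ℕ) (x y : V) :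
    inner ℝ ((Q ^ n) x) y = inner ℝ x ((Q ^ n) y) := by
  induction n generalizing x y with
  | zero => simp
  | succ n ih =>
    rw [pow_succ, Module.End.mul_apply, ih, h.sym, ← Module.End.mul_apply, ← pow_succ', pow_succ]

theorem SC.pow_con (h : SC Q) (n : ℕ) (x : V) : ‖(Q ^ n) x‖ ≤ ‖x‖ := by
  induction n with
  | zero => simp
  | succ n ih =>
    rw [pow_succ', Module.End.mul_apply]
    exact (h.con _).trans ih

/-- the energy sequence -/
noncomputable def q (Q : V →ₗ[ℝ] V) (x : V) (j : ℕ) : ℝ := ‖(Q ^ j) x‖ ^ 2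

theorem SC.inner_pow (h : SC Q) (x : V) {i j k : ℕ} (hk : i + j = 2 * k) :
    inner ℝ ((Q ^ i) x) ((Q ^ j) x) = q Q x k := by
  rw [q, ← real_inner_self_eq_norm_sq, h.pow_sym, h.pow_sym, ← Module.End.mul_apply,
    ← Module.End.mul_apply, ← pow_add, ← pow_add, hk, two_mul]

theorem q_nonneg (x : V) (j : ℕ) : 0 ≤ q Q x j := by unfold q; positivity

/-- the increments -/
noncomputable def e (Q : V →ₗ[ℝ] V) (x : V) (j : ℕ) : ℝ := q Q x j - q Q x (j + 1)

theorem SC.e_nonneg (h : SC Q) (x : V) (j : ℕ) : 0 ≤ e Q x j := by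
  unfold e q
  have h1 : ‖(Q ^ (j + 1)) x‖ ≤ ‖(Q ^ j) x‖ := by
    rw [pow_succ', Module.End.mul_apply]
    exact h.con _
  have h2 := pow_le_pow_left₀ (norm_nonneg _) h1 2
  linarith

theorem SC.norm_sub (h : SC Q) (x : V) (j k l : ℕ) (hl : j + k = 2 * l) :
    ‖(Q ^ j) x - (Q ^ k) x‖ ^ 2 = q Q x j - 2 * q Q x l + q Q x k := by
  rw [norm_sub_sq_real, h.inner_pow x hl]
  rfl

theorem SC.e_sub (h : SC Q) (x : V) (j : ℕ) :
    ‖(Q ^ (j + 2)) x - (Q ^ j) x‖ ^ 2 = e Q x j - e Q x (j + 1) := by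
  rw [h.norm_sub x (j + 2) j (j + 1) (by ring)]
  unfold e
  ring

theorem SC.e_succ_le (h : SC Q) (x : V) (j : ℕ) : e Q x (j + 1) ≤ e Q x j := by
  have := h.e_sub x j
  have h2 : 0 ≤ ‖(Q ^ (j + 2)) x - (Q ^ j) x‖ ^ 2 := by positivity
  linarith

theorem SC.q_antitone (h : SC Q) (x : V) : Antitone (q Q x) := by
  apply antitone_nat_of_succ_le
  intro n
  have := h.e_nonneg x n
  unfold e at this
  linarith

theorem SC.q_tendsto (h : SC Q) (x : V) : ∃ a, Tendsto (q Q x) atTop (𝓝 a) ∧ 0 ≤ a := by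
  have h1 : BddBelow (Set.range (q Q x)) := ⟨0, by rintro _ ⟨n, rfl⟩; exact q_nonneg x n⟩
  refine ⟨_, tendsto_atTop_ciInf (h.q_antitone x) h1, ?_⟩
  exact le_ciInf fun n => q_nonneg x n

theorem SC.e_tendsto (h : SC Q) (x : V) : Tendsto (e Q x) atTop (𝓝 0) := by
  obtain ⟨a, ha, -⟩ := h.q_tendsto x
  have h1 := ha.sub (ha.comp (tendsto_add_atTop_nat 1))
  rw [sub_self] at h1
  exact h1

/-- the even powers converge -/
theorem SC.cauchy (h : SC Q) (x : V) : CauchySeq fun n => (Q ^ (2 * n)) x := by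
  obtain ⟨a, ha, -⟩ := h.q_tendsto x
  rw [Metric.cauchySeq_iff']
  intro ε hε
  have h1 : ∀ᶠ n in atTop, |q Q x n - a| < ε ^ 2 / 8 :=
    (Metric.tendsto_nhds.1 ha) (ε ^ 2 / 8) (by positivity)
  obtain ⟨N, hN⟩ := eventually_atTop.1 h1
  refine ⟨N, fun n hn => ?_⟩
  rw [dist_eq_norm]
  have h2 := h.norm_sub x (2 * n) (2 * N) (n + N) (by ring)
  have h3 := abs_lt.1 (hN (2 * n) (by omega))
  have h4 := abs_lt.1 (hN (2 * N) (by omega))
  have h5 := abs_lt.1 (hN (n + N) (by omega))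
  have h6 : ‖(Q ^ (2 * n)) x - (Q ^ (2 * N)) x‖ ^ 2 < ε ^ 2 := by
    rw [h2]
    nlinarith [h3.1, h3.2, h4.1, h4.2, h5.1, h5.2]
  exact lt_of_pow_lt_pow_left₀ 2 hε.le h6

end Sym

section Avg

variable {G : Type*} [Group G] {F F' : Type*} [AddCommGroup F] [Module ℝ F] [AddCommGroup F']
  [Module ℝ F']

/-- the average over a finite set -/
noncomputable def av (S : Finset G) (f : G → F) : F := (#S : ℝ)⁻¹ • ∑ s ∈ S, f s

theorem av_map (S : Finset G) (L : F →ₗ[ℝ] F') (f : G → F) :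
    L (av S f) = av S fun s => L (f s) := by
  unfold av
  rw [map_smul, map_sum]

theorem av_add (S : Finset G) (f g : G → F) : av S (fun s => f s + g s) = av S f + av S g := by
  unfold av
  rw [sum_add_distrib, smul_add]

theorem av_sub (S : Finset G) (f g : G → F) : av S (fun s => f s - g s) = av S f - av S g := by
  unfold av
  rw [sum_sub_distrib, smul_sub]

theorem av_smul (S : Finset G) (c : ℝ) (f : G → F) : av S (fun s => c • f s) = c • av S f := by
  unfold av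
  rw [← smul_sum, smul_comm]

theorem av_const {S : Finset G} (hS : S.Nonempty) (c : F) : av S (fun _ => c) = c := by
  unfold av
  rw [sum_const, ← Nat.cast_smul_eq_nsmul ℝ, smul_smul, inv_mul_cancel₀, one_smul]
  exact_mod_cast hS.card_pos.ne'

theorem av_inv {S : Finset G} (hinv : ∀ s ∈ S, s⁻¹ ∈ S) (f : G → F) :
    av S (fun s => f s⁻¹) = av S f := by
  unfold av
  congr 1
  refine sum_bij' (fun s _ => s⁻¹) (fun s _ => s⁻¹) hinv hinv (fun s _ => inv_inv s)
    (fun s _ => inv_inv s) (fun s _ => rfl)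

theorem av_mono (S : Finset G) {f g : G → ℝ} (h : ∀ s ∈ S, f s ≤ g s) : av S f ≤ av S g := by
  unfold av
  exact mul_le_mul_of_nonneg_left (sum_le_sum h) (by positivity)

theorem av_nonneg (S : Finset G) {f : G → ℝ} (h : ∀ s ∈ S, 0 ≤ f s) : 0 ≤ av S f := by
  unfold av
  exact mul_nonneg (by positivity) (sum_nonneg h)

theorem le_av {S : Finset G} {f : G → ℝ} (h : ∀ s ∈ S, 0 ≤ f s) {t : G} (ht : t ∈ S) :
    f t ≤ #S * av S f := by
  unfold av
  have h1 : (0 : ℝ) < #S := by exact_mod_cast card_pos.2 ⟨t, ht⟩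
  rw [smul_eq_mul, ← mul_assoc, mul_inv_cancel₀ h1.ne', one_mul]
  exact single_le_sum h ht

theorem av_congr (S : Finset G) {f g : G → F} (h : ∀ s ∈ S, f s = g s) : av S f = av S g := by
  unfold av
  rw [sum_congr rfl h]

/-- the average over the products of two elements -/
noncomputable def av2 (S : Finset G) (f : G → F) : F := av S fun s => av S fun t => f (s * t)

theorem av2_map (S : Finset G) (L : F →ₗ[ℝ] F') (f : G → F) :
    L (av2 S f) = av2 S fun s => L (f s) := by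
  unfold av2
  rw [av_map]
  congr 1
  ext s
  rw [av_map]

theorem av2_add (S : Finset G) (f g : G → F) :
    av2 S (fun s => f s + g s) = av2 S f + av2 S g := by
  unfold av2
  rw [← av_add]
  congr 1
  ext s
  rw [av_add]

theorem av2_sub (S : Finset G) (f g : G → F) :
    av2 S (fun s => f s - g s) = av2 S f - av2 S g := by
  unfold av2
  rw [← av_sub]
  congr 1
  ext s
  rw [av_sub]

theorem av2_smul (S : Finset G) (c : ℝ) (f : G → F) :
    av2 S (fun s => c • f s) = c • av2 S f := by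
  unfold av2
  rw [← av_smul]
  congr 1
  ext s
  rw [av_smul]

theorem av2_const {S : Finset G} (hS : S.Nonempty) (c : F) : av2 S (fun _ => c) = c := by
  unfold av2
  rw [av_const hS, av_const hS]

theorem av2_mono (S : Finset G) {f g : G → ℝ} (h : ∀ s ∈ S, ∀ t ∈ S, f (s * t) ≤ g (s * t)) :
    av2 S f ≤ av2 S g :=
  av_mono S fun s hs => av_mono S fun t ht => h s hs t ht

theorem av2_nonneg (S : Finset G) {f : G → ℝ} (h : ∀ s ∈ S, ∀ t ∈ S, 0 ≤ f (s * t)) :
    0 ≤ av2 S f :=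
  av_nonneg S fun s hs => av_nonneg S fun t ht => h s hs t ht

theorem le_av2 {S : Finset G} {f : G → ℝ} (h : ∀ s ∈ S, ∀ t ∈ S, 0 ≤ f (s * t)) {s t : G}
    (hs : s ∈ S) (ht : t ∈ S) : f (s * t) ≤ (#S) ^ 2 * av2 S f := by
  have h1 : f (s * t) ≤ #S * av S fun t => f (s * t) := le_av (fun t ht => h s hs t ht) ht
  have h2 : (av S fun t => f (s * t)) ≤ #S * av2 S f :=
    le_av (f := fun s => av S fun t => f (s * t)) (fun s hs => av_nonneg S fun t ht => h s hs t ht)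
      hs
  have h3 : (0 : ℝ) ≤ #S := by positivity
  nlinarith

end Avg

section Act

variable {G : Type*} [Group G] {V : Type*} [SeminormedAddCommGroup V] [InnerProductSpace ℝ V]

/-- the averaging operator -/
noncomputable def Qop (S : Finset G) (ρ : G →* (V →ₗ[ℝ] V)) : V →ₗ[ℝ] V :=
  av S fun s => ρ s

theorem Qop_apply (S : Finset G) (ρ : G →* (V →ₗ[ℝ] V)) (v : V) :
    Qop S ρ v = av S fun s => ρ s v := by
  unfold Qop av
  simp [LinearMap.sum_apply]

theorem Qop_two (S : Finset G) (ρ : G →* (V →ₗ[ℝ] V)) (v : V) :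
    (Qop S ρ ^ 2) v = av2 S fun s => ρ s v := by
  rw [pow_two, Module.End.mul_apply, Qop_apply, Qop_apply]
  unfold av2
  congr 1
  ext s
  rw [av_map]
  congr 1
  ext t
  show _ = ρ (s * t) v
  rw [map_mul, Module.End.mul_apply]

theorem norm_rho {ρ : G →* (V →ₗ[ℝ] V)} (hρ : ∀ g v w, inner ℝ (ρ g v) (ρ g w) = inner ℝ v w)
    (g : G) (v : V) : ‖ρ g v‖ = ‖v‖ := by
  have h1 := hρ g v v
  rw [real_inner_self_eq_norm_sq, real_inner_self_eq_norm_sq] at h1
  exact (pow_left_inj₀ (norm_nonneg _) (norm_nonneg _) two_ne_zero).1 h1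

theorem inner_rho {ρ : G →* (V →ₗ[ℝ] V)} (hρ : ∀ g v w, inner ℝ (ρ g v) (ρ g w) = inner ℝ v w)
    (g : G) (v w : V) : inner ℝ (ρ g v) w = inner ℝ v (ρ g⁻¹ w) := by
  rw [← hρ g v (ρ g⁻¹ w), ← Module.End.mul_apply, ← map_mul, mul_inv_cancel, map_one,
    Module.End.one_apply]

theorem norm_av_le {S : Finset G} (hS : S.Nonempty) (f : G → V) (c : ℝ)
    (h : ∀ s ∈ S, ‖f s‖ ≤ c) : ‖av S f‖ ≤ c := by
  unfold av
  rw [norm_smul]
  have h1 : (0 : ℝ) < #S := by exact_mod_cast hS.card_pos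
  have h2 : ‖∑ s ∈ S, f s‖ ≤ #S * c := by
    refine (norm_sum_le _ _).trans ((sum_le_sum h).trans ?_)
    rw [sum_const, nsmul_eq_mul]
  rw [norm_inv, Real.norm_natCast]
  calc (#S : ℝ)⁻¹ * ‖∑ s ∈ S, f s‖ ≤ (#S : ℝ)⁻¹ * (#S * c) :=
        mul_le_mul_of_nonneg_left h2 (by positivity)
    _ = c := by rw [← mul_assoc, inv_mul_cancel₀ h1.ne', one_mul]

theorem inner_av (S : Finset G) (f : G → V) (w : V) :
    inner ℝ (av S f) w = av S fun s => (inner ℝ (f s) w : ℝ) := by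
  exact av_map S ((innerₗ V).flip w) f

theorem inner_av2 (S : Finset G) (f : G → V) (w : V) :
    inner ℝ (av2 S f) w = av2 S fun s => (inner ℝ (f s) w : ℝ) := by
  exact av2_map S ((innerₗ V).flip w) f

theorem Qop_SC {S : Finset G} (hS : S.Nonempty) (hinv : ∀ s ∈ S, s⁻¹ ∈ S)
    {ρ : G →* (V →ₗ[ℝ] V)} (hρ : ∀ g v w, inner ℝ (ρ g v) (ρ g w) = inner ℝ v w) :
    SC (Qop S ρ) where
  sym := by
    intro x y
    rw [Qop_apply, Qop_apply, inner_av, real_inner_comm, inner_av, ← av_inv hinv]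
    congr 1
    ext s
    rw [inner_rho hρ, inv_inv, real_inner_comm]
  con := by
    intro x
    rw [Qop_apply]
    exact norm_av_le hS _ _ fun s _ => (norm_rho hρ s x).le

/-- the energy of a vector -/
theorem energy {S : Finset G} (hS : S.Nonempty) (hinv : ∀ s ∈ S, s⁻¹ ∈ S)
    {ρ : G →* (V →ₗ[ℝ] V)} (hρ : ∀ g v w, inner ℝ (ρ g v) (ρ g w) = inner ℝ v w) (x : V)
    (j : ℕ) :
    (av2 S fun s => ‖ρ s ((Qop S ρ ^ j) x) - (Qop S ρ ^ j) x‖ ^ 2) =
      2 * e (Qop S ρ) x j := by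
  set y := (Qop S ρ ^ j) x with hy
  have h1 : (fun s => ‖ρ s y - y‖ ^ 2) = fun s => 2 * ‖y‖ ^ 2 - 2 * inner ℝ (ρ s y) y := by
    ext s
    rw [norm_sub_sq_real, norm_rho hρ]
    ring
  rw [h1]
  have h2 : (av2 S fun s => 2 * ‖y‖ ^ 2 - 2 * inner ℝ (ρ s y) y) =
      2 * ‖y‖ ^ 2 - 2 * av2 S fun s => inner ℝ (ρ s y) y := by
    rw [av2_sub, av2_const hS]
    congr 1
    exact av2_smul S 2 _
  rw [h2, ← inner_av2, ← Qop_two]
  have h3 := Qop_SC hS hinv hρ
  have h4 : inner ℝ ((Qop S ρ ^ 2) y) y = q (Qop S ρ) x (j + 1) := by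
    rw [hy, ← Module.End.mul_apply, ← pow_add]
    exact h3.inner_pow x (by ring)
  rw [h4]
  unfold e
  have h5 : ‖y‖ ^ 2 = q (Qop S ρ) x j := rfl
  rw [h5]
  ring

end Act

end Pool.Agent.J4H54.GR
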