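import Pool.Agent.J4H54.GR.Gns

set_option autoImplicit false
set_option linter.unusedSectionVars false

/-!
# The regular action on finitely supported functions, random walk
-/

namespace Pool.Agent.J4H54.GR

open Finset Filter Topology

open scoped Classical in
/-- the identity kernel -/
noncomputable def idK (X : Type) (x y : X) : ℝ := if x = y then 1 else 0

theorem form_idK {X : Type} (f g : X →₀ ℝ) : form (idK X) f g = f.sum fun x a => a * g x := by
  unfold form idK
  congr 1
  ext x a
  rw [Finsupp.sum, Finset.sum_eq_single x]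
  · rw [if_pos rfl, mul_one]
  · intro y _ hy
    rw [if_neg (Ne.symm hy)]
    ring
  · intro hx
    rw [Finsupp.notMem_support_iff.1 hx]
    ring

instance {X : Type} : PSD (idK X) where
  symm x y := by
    unfold idK
    by_cases h : x = y
    · rw [if_pos h, if_pos h.symm]
    · rw [if_neg h, if_neg (Ne.symm h)]
  nonneg f := by
    show 0 ≤ form (idK X) f f
    rw [form_idK]
    exact Finset.sum_nonneg fun x _ => mul_self_nonneg _

/-- finitely supported functions with the usual inner product -/
abbrev L2 (X : Type) : Type := H0 (idK X)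

/-- the underlying function -/
def toF {X : Type} {K : X → X → ℝ} (f : H0 K) : X →₀ ℝ := f

/-- the value at a point -/
noncomputable def val {X : Type} (f : L2 X) (x : X) : ℝ := toF f x

section

variable {X : Type}

theorem val_add (f g : L2 X) (x : X) : val (f + g) x = val f x + val g x :=
  Finsupp.add_apply (toF f) (toF g) x
theorem val_smul (c : ℝ) (f : L2 X) (x : X) : val (c • f) x = c * val f x :=
  Finsupp.smul_apply c (toF f) x

/-- evaluation as a linear map -/
noncomputable def valL (x : X) : L2 X →ₗ[ℝ] ℝ where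
  toFun f := val f x
  map_add' f g := val_add f g x
  map_smul' c f := val_smul c f x

open scoped Classical in
theorem val_of (x y : X) : val (H0.of x : L2 X) y = if x = y then 1 else 0 := by
  exact Finsupp.single_apply

/-- the support -/
noncomputable def supp (f : L2 X) : Finset X := (toF f).support

theorem mem_supp (f : L2 X) (x : X) : x ∈ supp f ↔ val f x ≠ 0 := Finsupp.mem_support_iff

theorem H0.apply_eq {K : X → X → ℝ} [PSD K] {F : Type*} [AddCommGroup F] [Module ℝ F]
    (A : H0 K →ₗ[ℝ] F) (f : H0 K) :
    A f = (toF f).sum fun x a => a • A (H0.of x) := by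
  have h1 : A = H0.lift fun x => A (H0.of x) := by
    apply H0.hom_ext
    intro x
    rw [H0.lift_of]
  conv_lhs => rw [h1]
  rfl

theorem apply_eq' {F : Type*} [AddCommGroup F] [Module ℝ F] (A : L2 X →ₗ[ℝ] F) (f : L2 X)
    {T : Finset X} (hT : supp f ⊆ T) : A f = ∑ x ∈ T, val f x • A (H0.of x) := by
  rw [H0.apply_eq A f]
  exact Finsupp.sum_of_support_subset _ hT _ (by intro i _; exact zero_smul _ _)

theorem inner_eq' (f g : L2 X) {T : Finset X} (hT : supp f ⊆ T) :
    inner ℝ f g = ∑ x ∈ T, val f x * val g x := by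
  refine (form_idK (toF f) (toF g)).trans ?_
  exact Finsupp.sum_of_support_subset _ hT _ (by intro i _; exact zero_mul _)

theorem inner_of_right (f : L2 X) (x : X) : inner ℝ (H0.of x) f = val f x := by
  classical
  have h1 : supp (H0.of x : L2 X) ⊆ {x} := by
    intro y hy
    rw [mem_supp, val_of] at hy
    rw [Finset.mem_singleton]
    by_contra h
    exact hy (if_neg (Ne.symm h))
  rw [inner_eq' _ _ h1, Finset.sum_singleton, val_of, if_pos rfl, one_mul]

/-- the total mass -/
noncomputable def mass : L2 X →ₗ[ℝ] ℝ := H0.lift fun _ => (1 : ℝ)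

theorem mass_of (x : X) : mass (H0.of x : L2 X) = 1 := H0.lift_of _ x

theorem mass_eq (f : L2 X) {T : Finset X} (hT : supp f ⊆ T) : mass f = ∑ x ∈ T, val f x := by
  rw [apply_eq' mass f hT]
  apply Finset.sum_congr rfl
  intro x _
  rw [mass_of, smul_eq_mul, mul_one]

/-- nonnegative functions -/
def Pos (f : L2 X) : Prop := ∀ x, 0 ≤ val f x

theorem Pos.mass_nonneg {f : L2 X} (h : Pos f) : 0 ≤ mass f := by
  rw [mass_eq f subset_rfl]
  exact Finset.sum_nonneg fun x _ => h x

/-- Cauchy-Schwarz for the mass -/
theorem mass_sq_le (f : L2 X) {T : Finset X} (hT : supp f ⊆ T) :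
    mass f ^ 2 ≤ #T * ‖f‖ ^ 2 := by
  rw [mass_eq f hT, ← real_inner_self_eq_norm_sq, inner_eq' f f hT]
  have h1 := Finset.sum_mul_sq_le_sq_mul_sq T (fun _ => (1 : ℝ)) (val f)
  simp only [one_mul, one_pow, Finset.sum_const, nsmul_eq_mul, mul_one] at h1
  simp only [← pow_two]
  exact h1

end

section act

variable {G : Type} [Group G]

/-- left translation -/
noncomputable def lam : G →* (L2 G →ₗ[ℝ] L2 G) where
  toFun g := (Finsupp.lmapDomain ℝ ℝ (g * ·) : (G →₀ ℝ) →ₗ[ℝ] (G →₀ ℝ))
  map_one' := by
    apply H0.hom_ext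
    intro x
    show Finsupp.mapDomain (1 * ·) (Finsupp.single x 1) = Finsupp.single x 1
    rw [Finsupp.mapDomain_single, one_mul]
  map_mul' g h := by
    apply H0.hom_ext
    intro x
    show Finsupp.mapDomain (g * h * ·) (Finsupp.single x 1) =
      Finsupp.mapDomain (g * ·) (Finsupp.mapDomain (h * ·) (Finsupp.single x 1))
    rw [Finsupp.mapDomain_single, Finsupp.mapDomain_single, Finsupp.mapDomain_single, mul_assoc]

theorem lam_of (g x : G) : lam g (H0.of x : L2 G) = H0.of (g * x) := by
  show Finsupp.mapDomain (g * ·) (Finsupp.single x (1 : ℝ)) = Finsupp.single (g * x) 1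
  rw [Finsupp.mapDomain_single]

theorem val_lam (g : G) (f : L2 G) (x : G) : val (lam g f) (g * x) = val f x := by
  exact Finsupp.mapDomain_apply (mul_right_injective g) (toF f) x

theorem val_lam' (g : G) (f : L2 G) (x : G) : val (lam g f) x = val f (g⁻¹ * x) := by
  have := val_lam g f (g⁻¹ * x)
  rwa [mul_inv_cancel_left] at this

theorem lam_inner (g : G) (v w : L2 G) : inner ℝ (lam g v) (lam g w) = inner ℝ v w := by
  refine H0.isom _ (fun x y => ?_) v w
  classical
  rw [lam_of, lam_of, inner_of]
  unfold idK
  simp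

theorem mass_lam (g : G) (f : L2 G) : mass (lam g f) = mass f := by
  have h1 : (mass ∘ₗ lam g : L2 G →ₗ[ℝ] ℝ) = mass := by
    apply H0.hom_ext
    intro x
    rw [LinearMap.comp_apply, lam_of, mass_of, mass_of]
  exact LinearMap.congr_fun h1 f

theorem Pos.lam {f : L2 G} (h : Pos f) (g : G) : Pos (lam g f) := fun x => by
  rw [val_lam']
  exact h _

theorem av_val (S : Finset G) (f : G → L2 G) (x : G) :
    val (av S f) x = av S fun s => val (f s) x := av_map S (valL x) f

/-- the distribution of the random walk -/
noncomputable def p (S : Finset G) (j : ℕ) : L2 G := (Qop S lam ^ j) (H0.of 1)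

theorem p_zero (S : Finset G) : p S 0 = H0.of 1 := rfl

theorem p_succ (S : Finset G) (j : ℕ) : p S (j + 1) = av S fun s => lam s (p S j) := by
  unfold p
  rw [pow_succ', Module.End.mul_apply, Qop_apply]

theorem p_add_two (S : Finset G) (j : ℕ) : p S (j + 2) = av2 S fun s => lam s (p S j) := by
  unfold p
  rw [add_comm, pow_add, Module.End.mul_apply, Qop_two]

theorem p_pos (S : Finset G) (j : ℕ) : Pos (p S j) := by
  classical
  induction j with
  | zero =>
    intro x
    rw [p_zero, val_of]
    split_ifs <;> norm_num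
  | succ j ih =>
    intro x
    rw [p_succ, av_val]
    exact av_nonneg S fun s _ => ih.lam s x

theorem p_mass {S : Finset G} (hS : S.Nonempty) (j : ℕ) : mass (p S j) = 1 := by
  induction j with
  | zero => rw [p_zero, mass_of]
  | succ j ih =>
    rw [p_succ, av_map]
    simp only [mass_lam, ih]
    exact av_const hS 1

open scoped Pointwise in
theorem p_supp [DecidableEq G] (S : Finset G) (j : ℕ) : supp (p S j) ⊆ S ^ j := by
  induction j with
  | zero =>
    intro x hx
    rw [mem_supp, p_zero, val_of] at hx
    rw [pow_zero, Finset.mem_one]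
    by_contra h
    exact hx (if_neg (Ne.symm h))
  | succ j ih =>
    intro x hx
    rw [mem_supp, p_succ, av_val] at hx
    obtain ⟨s, hs, hsx⟩ : ∃ s ∈ S, val (lam s (p S j)) x ≠ 0 := by
      by_contra hcon
      push Not at hcon
      apply hx
      rw [av_congr S hcon]
      unfold av
      rw [Finset.sum_const_zero, smul_zero]
    rw [val_lam'] at hsx
    have h1 := ih ((mem_supp _ _).2 hsx)
    rw [pow_succ']
    have h2 := Finset.mul_mem_mul hs h1
    rwa [mul_inv_cancel_left] at h2

/-- translates by distinct elements overlap little -/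
theorem overlap (F : Finset G) {f f' : L2 G} (hf : Pos f) (hf' : Pos f') :
    ∑ g ∈ F, inner ℝ (lam g f) f' ≤ mass f * mass f' := by
  classical
  -- expand both functions
  have h1 : ∀ g, inner ℝ (lam g f) f' =
      ∑ x ∈ supp f, ∑ y ∈ supp f', val f x * val f' y * (if g * x = y then 1 else 0) := by
    intro g
    have e1 : inner ℝ (lam g f) f' = ∑ x ∈ supp f, val f x * inner ℝ (H0.of (g * x)) f' := by
      have := apply_eq' ((innerₗ (L2 G)).flip f' ∘ₗ lam g) f subset_rfl
      simp only [LinearMap.comp_apply, lam_of, smul_eq_mul] at this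
      exact this
    rw [e1]
    apply Finset.sum_congr rfl
    intro x _
    have e2 : inner ℝ (H0.of (g * x)) f' =
        ∑ y ∈ supp f', val f' y * inner ℝ (H0.of (g * x) : L2 G) (H0.of y) := by
      have := apply_eq' (innerₗ (L2 G) (H0.of (g * x))) f' subset_rfl
      simp only [smul_eq_mul] at this
      exact this
    rw [e2, Finset.mul_sum]
    apply Finset.sum_congr rfl
    intro y _
    rw [inner_of]
    unfold idK
    ring
  simp only [h1]
  rw [Finset.sum_comm]
  have h2 : ∀ x y, ∑ g ∈ F, (if g * x = y then (1 : ℝ) else 0) ≤ 1 := by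
    intro x y
    rw [Finset.sum_boole]
    have h3 : #(F.filter fun g => g * x = y) ≤ 1 := by
      rw [Finset.card_le_one]
      intro a ha b hb
      have ha' := (Finset.mem_filter.1 ha).2
      have hb' := (Finset.mem_filter.1 hb).2
      exact mul_right_cancel (ha'.trans hb'.symm)
    exact_mod_cast h3
  have h3 : mass f * mass f' = ∑ x ∈ supp f, ∑ y ∈ supp f', val f x * val f' y := by
    rw [mass_eq f subset_rfl, mass_eq f' subset_rfl, Finset.sum_mul_sum]
  rw [h3]
  apply Finset.sum_le_sum
  intro x _
  rw [Finset.sum_comm]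
  apply Finset.sum_le_sum
  intro y _
  rw [← Finset.mul_sum]
  calc val f x * val f' y * ∑ g ∈ F, (if g * x = y then (1 : ℝ) else 0)
      ≤ val f x * val f' y * 1 :=
        mul_le_mul_of_nonneg_left (h2 x y) (mul_nonneg (hf x) (hf' y))
    _ = val f x * val f' y := mul_one _

end act

end Pool.Agent.J4H54.GR
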