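import Pool.Agent.J4H54.GR.Comm2
import Pool.Agent.J4H54.GR.FinDim

set_option autoImplicit false
set_option linter.unusedSectionVars false

/-!
# Infinite groups of polynomial growth virtually surject onto the integers
-/

namespace Pool.Agent.J4H54.GR

open Finset Filter Topology

section alg

/-- a finitely generated group with infinite abelianization surjects onto the integers -/
theorem surj_of_abel {L : Type} [Group L] [Group.FG L] [Infinite (Abelianization L)] :
    ∃ φ : L →* Multiplicative ℤ, Function.Surjective φ := by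
  have hof : Function.Surjective (Abelianization.of : L →* Abelianization L) :=
    QuotientGroup.mk_surjective
  have : Group.FG (Abelianization L) := Group.fg_of_surjective hof
  obtain ⟨ι, j, hι, hj, p, hp, e, ⟨m⟩⟩ :=
    CommGroup.equiv_free_prod_prod_multiplicative_zmod (Abelianization L)
  by_cases hjn : Nonempty j
  · obtain ⟨i⟩ := hjn
    refine ⟨(Pi.evalMonoidHom _ i).comp ((MonoidHom.fst _ _).comp (m.toMonoidHom.comp
      Abelianization.of)), ?_⟩
    intro z
    obtain ⟨y, hy⟩ := m.surjective (fun _ => z, 1)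
    obtain ⟨x, hx⟩ := hof y
    refine ⟨x, ?_⟩
    show (m (Abelianization.of x)).1 i = z
    rw [hx, hy]
  · exfalso
    rw [not_nonempty_iff] at hjn
    have h1 : ∀ i, Finite (Multiplicative (ZMod (p i ^ e i))) := by
      intro i
      have : NeZero (p i ^ e i) := ⟨pow_ne_zero _ (hp i).ne_zero⟩
      exact (inferInstance : Finite (ZMod (p i ^ e i)))
    have h2 : Finite (Abelianization L) := Finite.of_equiv _ m.symm.toEquiv
    exact not_finite (Abelianization L)

theorem abel_inf {L M : Type*} [Group L] [Monoid M] (ψ : L →* M)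
    (hc : ∀ x y, ψ x * ψ y = ψ y * ψ x) (hinf : (Set.range ψ).Infinite) :
    Infinite (Abelianization L) := by
  by_contra hfin
  rw [not_infinite_iff_finite] at hfin
  apply hinf
  have h1 : commutator L ≤ ψ.ker := by
    rw [commutator_def, Subgroup.commutator_le]
    intro x _ y _
    rw [MonoidHom.mem_ker, commutatorElement_def, map_mul, map_mul, map_mul, hc x y,
      mul_assoc (ψ y), ← map_mul ψ x, mul_inv_cancel, map_one, mul_one, ← map_mul,
      mul_inv_cancel, map_one]
  let φ : Abelianization L →* M := QuotientGroup.lift (commutator L) ψ h1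
  have h2 : Set.range ψ ⊆ Set.range φ := by
    rintro _ ⟨x, rfl⟩
    exact ⟨Abelianization.of x, rfl⟩
  exact (Set.finite_range φ).subset h2

/-- elements of a closure lie in the closure of a finite subset -/
theorem fin_closure {G : Type*} [Group G] (U : Set G) {x : G} (hx : x ∈ Subgroup.closure U) :
    ∃ F : Finset G, (F : Set G) ⊆ U ∧ x ∈ Subgroup.closure (F : Set G) := by
  classical
  induction hx using Subgroup.closure_induction with
  | mem s hs =>
    refine ⟨{s}, by simpa using hs, Subgroup.subset_closure (by simp)⟩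
  | one => exact ⟨∅, by simp, Subgroup.one_mem _⟩
  | mul a b _ _ ha hb =>
    obtain ⟨F, hF, ha⟩ := ha
    obtain ⟨F', hF', hb⟩ := hb
    refine ⟨F ∪ F', by rw [coe_union]; exact Set.union_subset hF hF', ?_⟩
    exact Subgroup.mul_mem _ (Subgroup.closure_mono (by simp) ha)
      (Subgroup.closure_mono (by simp) hb)
  | inv a _ ha =>
    obtain ⟨F, hF, ha⟩ := ha
    exact ⟨F, hF, Subgroup.inv_mem _ ha⟩

theorem fin_gen {G : Type*} [Group G] (U : Set G) (h : (Subgroup.closure U).FG) :
    ∃ F : Finset G, (F : Set G) ⊆ U ∧ Subgroup.closure (F : Set G) = Subgroup.closure U := by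
  classical
  obtain ⟨S, hS⟩ := h
  have h1 : ∀ s : G, ∃ F : Finset G, (F : Set G) ⊆ U ∧ (s ∈ S → s ∈ Subgroup.closure (F : Set G)) := by
    intro s
    by_cases hs : s ∈ S
    · have h2 : s ∈ Subgroup.closure U := by
        rw [← hS]
        exact Subgroup.subset_closure hs
      obtain ⟨F, hF, hF'⟩ := fin_closure U h2
      exact ⟨F, hF, fun _ => hF'⟩
    · exact ⟨∅, by simp, fun h => absurd h hs⟩
  choose F hF hF' using h1
  refine ⟨S.biUnion F, ?_, ?_⟩
  · intro x hx
    rw [mem_coe, mem_biUnion] at hx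
    obtain ⟨s, _, hs⟩ := hx
    exact hF s hs
  · apply le_antisymm
    · apply Subgroup.closure_mono
      intro x hx
      rw [mem_coe, mem_biUnion] at hx
      obtain ⟨s, _, hs⟩ := hx
      exact hF s hs
    · rw [← hS, Subgroup.closure_le]
      intro s hs
      refine Subgroup.closure_mono ?_ (hF' s hs)
      intro x hx
      rw [mem_coe, mem_biUnion]
      exact ⟨s, hs, hx⟩

end alg

section near

/-- the elements near the identity generate a subgroup of finite index -/
theorem near_index {G : Type} [Group G] {A : Type*} [NormedRing A] [NormedAlgebra ℝ A]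
    [ProperSpace A]
    {R : G →* A} (hR : ∀ g, ‖R g‖ ≤ 1) {ε : ℝ} (hε : 0 < ε) :
    (Subgroup.closure {g | Nm R g ≤ ε}).FiniteIndex := by
  set Γ := Subgroup.closure {g | Nm R g ≤ ε} with hΓ
  obtain ⟨t, -, htf, ht⟩ := (isCompact_closedBall (0 : A) 1).finite_cover_balls
    (half_pos hε)
  have h1 : ∀ g : G, ∃ c : t, dist (R g) c < ε / 2 := by
    intro g
    have h2 : R g ∈ Metric.closedBall (0 : A) 1 := by
      rw [mem_closedBall_zero_iff]
      exact hR g
    have h3 := ht h2
    rw [Set.mem_iUnion₂] at h3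
    obtain ⟨c, hc, hgc⟩ := h3
    exact ⟨⟨c, hc⟩, hgc⟩
  choose c hc using h1
  have : Finite t := htf
  have hinj : Function.Injective fun x : G ⧸ Γ => c (Quotient.out x) := by
    intro x y hxy
    have h2 := hc (Quotient.out x)
    have h3 := hc (Quotient.out y)
    simp only at hxy
    rw [← hxy] at h3
    have h4 : dist (R (Quotient.out y)) (R (Quotient.out x)) < ε := by
      calc dist (R (Quotient.out y)) (R (Quotient.out x)) ≤ _ := dist_triangle_right _ _ _
        _ < ε / 2 + ε / 2 := add_lt_add h3 h2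
        _ = ε := by ring
    rw [dist_eq_norm] at h4
    have h5 : (Quotient.out x)⁻¹ * Quotient.out y ∈ Γ :=
      Subgroup.subset_closure ((Nm_div hR _ _).trans h4.le)
    have h6 : (QuotientGroup.mk (Quotient.out x) : G ⧸ Γ) = QuotientGroup.mk (Quotient.out y) :=
      QuotientGroup.eq.2 h5
    rwa [QuotientGroup.out_eq', QuotientGroup.out_eq'] at h6
  have : Finite (G ⧸ Γ) := Finite.of_injective _ hinj
  exact Subgroup.finiteIndex_of_finite_quotient

end near

section fin

variable {G : Type} [Group G] {S : Finset G} {E : Type} [NormedAddCommGroup E]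
  [InnerProductSpace ℝ E] {ρ : G →* (E →ₗ[ℝ] E)} {β : G → E}

/-- a harmonic cocycle with finitely many values is trivial -/
theorem HC.finite_trivial (h : HC S E ρ β) (h1 : (1 : G) ∈ S)
    (hgen : Subgroup.closure (S : Set G) = ⊤) (hfin : (Set.range β).Finite) (g : G) :
    β g = 0 := by
  have hS : S.Nonempty := ⟨1, h1⟩
  obtain ⟨_, ⟨g₀, rfl⟩, hmax⟩ := Set.exists_max_image (Set.range β) (fun v => ‖v‖) hfin
    ⟨β 1, 1, rfl⟩
  have hmax' : ∀ g, ‖β g‖ ≤ ‖β g₀‖ := fun g => hmax _ ⟨g, rfl⟩
  have h2 : (av2 S fun x => ‖β (g₀ * x) - β g₀‖ ^ 2) ≤ 0 := by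
    have h3 : (fun x => ‖β (g₀ * x) - β g₀‖ ^ 2) = fun x =>
        (‖β (g₀ * x)‖ ^ 2 - (2 : ℝ) • inner ℝ (β (g₀ * x)) (β g₀)) + ‖β g₀‖ ^ 2 := by
      ext x
      rw [norm_sub_sq_real, smul_eq_mul]
    rw [h3, av2_add, av2_sub, av2_smul, av2_const hS, ← inner_av2, h.av2_right hS,
      real_inner_self_eq_norm_sq]
    have h4 : (av2 S fun x => ‖β (g₀ * x)‖ ^ 2) ≤ ‖β g₀‖ ^ 2 := by
      have h5 : (av2 S fun x => ‖β (g₀ * x)‖ ^ 2) ≤ av2 S fun _ => ‖β g₀‖ ^ 2 :=
        av2_mono S fun s _ t _ => pow_le_pow_left₀ (norm_nonneg _) (hmax' _) 2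
      rwa [av2_const hS] at h5
    rw [smul_eq_mul]
    linarith
  have h3 : ∀ s ∈ S, β s = 0 := by
    intro s hs
    have h4 := le_av2 (S := S) (f := fun x => ‖β (g₀ * x) - β g₀‖ ^ 2)
      (fun s _ t _ => by positivity) hs h1
    rw [mul_one] at h4
    have h5 : ‖β (g₀ * s) - β g₀‖ ^ 2 ≤ 0 :=
      h4.trans (mul_nonpos_of_nonneg_of_nonpos (by positivity) h2)
    have h6 : ‖β (g₀ * s) - β g₀‖ = 0 :=
      pow_eq_zero_iff two_ne_zero |>.1 (le_antisymm h5 (by positivity))
    rw [h.coc, add_sub_cancel_left, norm_rho h.iso] at h6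
    exact norm_eq_zero.1 h6
  have hg : g ∈ Subgroup.closure (S : Set G) := by rw [hgen]; trivial
  induction hg using Subgroup.closure_induction with
  | mem s hs => exact h3 s hs
  | one => exact h.one
  | mul x y _ _ hx hy => rw [h.coc, hx, hy, map_zero, add_zero]
  | inv x _ hx => rw [h.inv, hx, map_zero, neg_zero]

/-- the action by continuous linear maps -/
noncomputable def cR [FiniteDimensional ℝ E] (ρ : G →* (E →ₗ[ℝ] E)) : G →* (E →L[ℝ] E) where
  toFun g := LinearMap.toContinuousLinearMap (ρ g)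
  map_one' := by
    rw [map_one]
    ext v
    rfl
  map_mul' g h := by
    rw [map_mul]
    ext v
    rfl

theorem cR_apply [FiniteDimensional ℝ E] (ρ : G →* (E →ₗ[ℝ] E)) (g : G) (v : E) :
    cR ρ g v = ρ g v := rfl

theorem cR_norm [FiniteDimensional ℝ E] (hρ : ∀ g v w, inner ℝ (ρ g v) (ρ g w) = inner ℝ v w)
    (g : G) : ‖cR ρ g‖ ≤ 1 := by
  refine ContinuousLinearMap.opNorm_le_bound _ zero_le_one fun v => ?_
  rw [cR_apply, norm_rho hρ, one_mul]

end fin

/-- **A finitely generated infinite group of polynomial growth has a subgroup of finite index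
which surjects onto the integers.** -/
theorem gromov_step {G : Type} [Group G] [Group.FG G] [Infinite G] {d : ℕ} (hG : PG d G) :
    ∃ L : Subgroup G, L.FiniteIndex ∧ ∃ φ : L →* Multiplicative ℤ, Function.Surjective φ := by
  classical
  obtain ⟨S₀, hS₀⟩ := ‹Group.FG G›.1
  set S : Finset G := insert 1 (S₀ ∪ S₀.image (·⁻¹)) with hSdef
  have h1 : (1 : G) ∈ S := mem_insert_self _ _
  have hinv : ∀ s ∈ S, s⁻¹ ∈ S := by
    intro s hs
    simp only [hSdef, mem_insert, mem_union, mem_image] at hs ⊢
    rcases hs with h | h | ⟨t, ht, rfl⟩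
    · left; rw [h, inv_one]
    · right; right; exact ⟨s, h, rfl⟩
    · right; left; rwa [inv_inv]
  have hgen : Subgroup.closure (S : Set G) = ⊤ := by
    rw [eq_top_iff, ← hS₀]
    apply Subgroup.closure_mono
    intro s hs
    simp only [hSdef, coe_insert, coe_union]
    right; left; exact hs
  obtain ⟨E, i1, i2, i3, ρ, β, h, g₁, hg₁⟩ := exists_fd hG h1 hinv hgen
  set R := cR ρ with hRdef
  have hR : ∀ g, ‖R g‖ ≤ 1 := cR_norm h.iso
  have : ProperSpace (E →L[ℝ] E) := FiniteDimensional.proper_real _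
  set ε : ℝ := 1 / (16 * (2 ^ d + 1)) with hε
  have hε0 : 0 < ε := by positivity
  set Γ := Subgroup.closure {g | Nm R g ≤ ε} with hΓ
  have hΓi : Γ.FiniteIndex := near_index hR hε0
  have hΓfg : Γ.FG := (Group.fg_iff_subgroup_fg Γ).1 inferInstance
  obtain ⟨S', hS'U, hS'⟩ := fin_gen _ hΓfg
  have hcomm : ∀ x ∈ Γ, ∀ y ∈ Γ, R x * R y = R y * R x := by
    have h2 := near_comm hR hG (S' := S') fun s hs => hS'U hs
    have h3 : ∀ a b : G, R a * R b = R b * R a → R a⁻¹ * R b = R b * R a⁻¹ := by
      intro a b hab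
      have e1 : R a⁻¹ * R a = 1 := by rw [← map_mul, inv_mul_cancel, map_one]
      have e2 : R a * R a⁻¹ = 1 := by rw [← map_mul, mul_inv_cancel, map_one]
      calc R a⁻¹ * R b = R a⁻¹ * R b * (R a * R a⁻¹) := by rw [e2, mul_one]
        _ = R a⁻¹ * (R b * R a) * R a⁻¹ := by simp only [mul_assoc]
        _ = R a⁻¹ * (R a * R b) * R a⁻¹ := by rw [hab]
        _ = (R a⁻¹ * R a) * R b * R a⁻¹ := by simp only [mul_assoc]
        _ = R b * R a⁻¹ := by rw [e1, one_mul]
    have h4 : ∀ x ∈ Γ, ∀ s ∈ S', R x * R s = R s * R x := by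
      intro x hx s hs
      rw [hΓ, ← hS'] at hx
      induction hx using Subgroup.closure_induction with
      | mem t ht => exact h2 t ht s hs
      | one => rw [map_one, one_mul, mul_one]
      | mul a b _ _ ha hb => rw [map_mul, mul_assoc, hb, ← mul_assoc, ha, mul_assoc]
      | inv a _ ha => exact h3 a s ha
    intro x hx y hy
    rw [hΓ, ← hS'] at hy
    induction hy using Subgroup.closure_induction with
    | mem t ht => exact h4 x hx t ht
    | one => rw [map_one, one_mul, mul_one]
    | mul a b _ _ ha hb => rw [map_mul, ← mul_assoc, ha, mul_assoc, hb, mul_assoc]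
    | inv a _ ha => exact (h3 a x ha.symm).symm
  by_cases hinf : (Set.range (R.comp Γ.subtype)).Infinite
  · have := abel_inf (R.comp Γ.subtype) (fun x y => hcomm x x.2 y y.2) hinf
    exact ⟨Γ, hΓi, surj_of_abel⟩
  · rw [Set.not_infinite] at hinf
    -- the kernel
    let R' : G →* (E →L[ℝ] E)ˣ := R.toHomUnits
    have hR' : ∀ g, ((R' g : (E →L[ℝ] E)ˣ) : E →L[ℝ] E) = R g := fun g => rfl
    have hfr : Finite (R'.comp Γ.subtype).range := by
      have h2 : (Set.range (R'.comp Γ.subtype)).Finite := by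
        apply Set.Finite.of_finite_image (f := fun u : (E →L[ℝ] E)ˣ => (u : E →L[ℝ] E))
        · refine hinf.subset ?_
          rintro _ ⟨_, ⟨x, rfl⟩, rfl⟩
          exact ⟨x, rfl⟩
        · intro a _ b _ hab
          exact Units.ext hab
      exact h2
    set K : Subgroup G := Γ ⊓ R'.ker with hK
    have hKi : K.FiniteIndex := by
      constructor
      have h2 : (R'.comp Γ.subtype).ker.FiniteIndex := Subgroup.finiteIndex_ker _
      have h3 : K.relIndex Γ ≠ 0 := by
        have h4 : K.subgroupOf Γ = (R'.comp Γ.subtype).ker := by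
          ext x
          rw [Subgroup.mem_subgroupOf, hK, Subgroup.mem_inf, MonoidHom.mem_ker, MonoidHom.mem_ker]
          exact ⟨fun h => h.2, fun h => ⟨x.2, h⟩⟩
        rw [Subgroup.relIndex, h4]
        exact h2.index_ne_zero
      rw [← Subgroup.relIndex_mul_index (inf_le_left : K ≤ Γ)]
      exact mul_ne_zero h3 hΓi.index_ne_zero
    have hKρ : ∀ x ∈ K, ∀ v, ρ x v = v := by
      intro x hx v
      have h2 : R' x = 1 := hx.2
      have h3 : R x = 1 := by rw [← hR', h2]; rfl
      have h4 := congrArg (fun L : E →L[ℝ] E => L v) h3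
      exact h4
    let ψ : K →* Multiplicative E :=
      { toFun := fun x => Multiplicative.ofAdd (β x)
        map_one' := by
          show Multiplicative.ofAdd (β 1) = 1
          rw [h.one]
          rfl
        map_mul' := fun x y => by
          show Multiplicative.ofAdd (β (x * y)) = Multiplicative.ofAdd (β x + β y)
          rw [h.coc, hKρ x x.2] }
    have hψ : ∃ x ∈ K, β x ≠ 0 := by
      by_contra hcon
      push Not at hcon
      apply hg₁
      apply h.finite_trivial h1 hgen
      have : Finite (G ⧸ K) := Subgroup.finite_quotient_of_finiteIndex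
      have h2 : Set.range β ⊆ Set.range fun q : G ⧸ K => β (Quotient.out q) := by
        rintro _ ⟨g, rfl⟩
        refine ⟨QuotientGroup.mk g, ?_⟩
        obtain ⟨k, hk⟩ := QuotientGroup.mk_out_eq_mul K g
        show β (Quotient.out (QuotientGroup.mk g : G ⧸ K)) = β g
        rw [hk, h.coc, hcon k k.2, map_zero, add_zero]
      exact (Set.finite_range _).subset h2
    obtain ⟨x, hxK, hx⟩ := hψ
    have hpow : ∀ n : ℕ, β (x ^ n) = n • β x := by
      intro n
      induction n with
      | zero => rw [pow_zero, h.one, zero_smul]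
      | succ n ih => rw [pow_succ', h.coc, hKρ x hxK, ih, succ_nsmul']
    have hrange : (Set.range ψ).Infinite := by
      apply Set.infinite_of_injective_forall_mem (f := fun n : ℕ => Multiplicative.ofAdd (β (x ^ n)))
      · intro a b hab
        have h2 : β (x ^ a) = β (x ^ b) := hab
        rw [hpow, hpow, ← Nat.cast_smul_eq_nsmul ℝ, ← Nat.cast_smul_eq_nsmul ℝ] at h2
        have h3 := smul_left_injective ℝ hx h2
        exact_mod_cast h3
      · intro n
        exact ⟨⟨x ^ n, K.pow_mem hxK n⟩, rfl⟩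
    have := abel_inf ψ (fun a b => mul_comm _ _) hrange
    exact ⟨K, hKi, surj_of_abel⟩

end Pool.Agent.J4H54.GR
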