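import Pool.Agent.J4H54.GR.Exp

set_option autoImplicit false
set_option linter.unusedSectionVars false

/-!
# The covariance operator of a harmonic cocycle
-/

namespace Pool.Agent.J4H54.GR

open Finset Filter Topology
open scoped TensorProduct

section psi

variable {H : Type} [NormedAddCommGroup H] [InnerProductSpace ℝ H]

/-- rank one operators, bilinearly -/
noncomputable def r1 : H →ₗ[ℝ] H →ₗ[ℝ] (H →L[ℝ] H) :=
  LinearMap.mk₂ ℝ (fun x y => (innerSL ℝ x).smulRight y)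
    (by intro x x' y; ext v; simp [add_smul])
    (by intro c x y; ext v; simp [mul_smul])
    (by intro x y y'; ext v; simp)
    (by
      intro c x y
      ext v
      show (inner ℝ x v : ℝ) • (c • y) = c • ((inner ℝ x v : ℝ) • y)
      rw [smul_comm])

theorem r1_apply (x y v : H) : r1 x y v = (inner ℝ x v : ℝ) • y := rfl

/-- tensors as operators -/
noncomputable def Psi : H ⊗[ℝ] H →ₗ[ℝ] (H →L[ℝ] H) := TensorProduct.lift r1

theorem Psi_inner (z : H ⊗[ℝ] H) (v w : H) :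
    (inner ℝ (Psi z v) w : ℝ) = inner ℝ z (v ⊗ₜ[ℝ] w) := by
  induction z using TensorProduct.induction_on with
  | zero => simp
  | tmul x y =>
    rw [TensorProduct.inner_tmul]
    show inner ℝ (r1 x y v) w = _
    rw [r1_apply, inner_smul_left]
    rfl
  | add z z' h h' =>
    rw [map_add, add_apply, inner_add_left, inner_add_left, h, h']

theorem Psi_norm (z : H ⊗[ℝ] H) : ‖Psi z‖ ≤ ‖z‖ := by
  refine ContinuousLinearMap.opNorm_le_bound _ (norm_nonneg _) fun v => ?_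
  rcases eq_or_ne (Psi z v) 0 with h | h
  · rw [h, norm_zero]
    positivity
  · have h1 : ‖Psi z v‖ * ‖Psi z v‖ ≤ ‖z‖ * ‖v‖ * ‖Psi z v‖ := by
      rw [← real_inner_self_eq_norm_mul_norm, Psi_inner]
      refine (real_inner_le_norm z (v ⊗ₜ[ℝ] (Psi z v))).trans ?_
      rw [TensorProduct.norm_tmul, mul_assoc]
    exact le_of_mul_le_mul_right h1 (norm_pos_iff.2 h)

theorem Psi_compact (z : H ⊗[ℝ] H) : IsCompactOperator (Psi z) := by
  induction z using TensorProduct.induction_on with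
  | zero =>
    rw [map_zero]
    exact isCompactOperator_zero
  | tmul x y =>
    have h1 : (Psi (x ⊗ₜ[ℝ] y) : H → H) =
        (fun c : ℝ => c • y) ∘ (innerSL ℝ x : H →L[ℝ] ℝ) := by
      ext v
      rfl
    rw [h1]
    have h2 : IsCompactOperator (innerSL ℝ x : H →L[ℝ] ℝ) :=
      isCompactOperator_of_locallyCompactSpace_dom (innerSL ℝ x : H →L[ℝ] ℝ)
    exact h2.continuous_comp (by fun_prop)
  | add z z' h h' =>
    rw [map_add]
    exact h.add h'

end psi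

section cov

variable {G : Type} [Group G] {S : Finset G} {H : Type} [NormedAddCommGroup H]
  [InnerProductSpace ℝ H] {π : G →* (H →ₗ[ℝ] H)} {b : G → H}

/-- the action on tensors -/
noncomputable def tac (π : G →* (H →ₗ[ℝ] H)) : G →* (H ⊗[ℝ] H →ₗ[ℝ] H ⊗[ℝ] H) where
  toFun g := TensorProduct.map (π g) (π g)
  map_one' := by rw [map_one]; exact TensorProduct.map_one
  map_mul' g h := by rw [map_mul]; exact TensorProduct.map_mul _ _ _ _

theorem tac_tmul (g : G) (v w : H) : tac π g (v ⊗ₜ[ℝ] w) = π g v ⊗ₜ[ℝ] π g w := rfl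

theorem tac_inner (hπ : ∀ g v w, inner ℝ (π g v) (π g w) = inner ℝ v w) (g : G)
    (z z' : H ⊗[ℝ] H) : inner ℝ (tac π g z) (tac π g z') = inner ℝ z z' := by
  let f : H →ₗᵢ[ℝ] H := ⟨π g, norm_rho hπ g⟩
  exact TensorProduct.inner_map_map f f z z'

/-- the tensor of a cocycle -/
noncomputable def U (S : Finset G) (b : G → H) : H ⊗[ℝ] H := av2 S fun s => b s ⊗ₜ[ℝ] b s

/-- the averaged tensors -/
noncomputable def tk (S : Finset G) (π : G →* (H →ₗ[ℝ] H)) (b : G → H) (n : ℕ) : H ⊗[ℝ] H :=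
  (Qop S (tac π) ^ (2 * n)) (U S b)

theorem tk_inner (S : Finset G) (n : ℕ) (v w : H) :
    (inner ℝ (tk S π b n) (v ⊗ₜ[ℝ] w) : ℝ) =
      Ex (fun g => av2 S fun s => (inner ℝ (π g (b s)) v * inner ℝ (π g (b s)) w : ℝ))
        (p S (2 * n)) := by
  unfold tk
  rw [Qop_pow]
  have h1 := Ex_map ((innerₗ (H ⊗[ℝ] H)).flip (v ⊗ₜ[ℝ] w)) (fun g => tac π g (U S b))
    (p S (2 * n))
  refine h1.trans ?_
  congr 1
  ext g
  unfold U
  rw [av2_map, av2_map]
  rfl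

theorem tk_sym (S : Finset G) (n : ℕ) (v w : H) :
    (inner ℝ (tk S π b n) (v ⊗ₜ[ℝ] w) : ℝ) = inner ℝ (tk S π b n) (w ⊗ₜ[ℝ] v) := by
  rw [tk_inner, tk_inner]
  congr 1
  ext g
  congr 1
  ext s
  ring

theorem tk_nonneg (S : Finset G) (n : ℕ) (v : H) :
    (0 : ℝ) ≤ inner ℝ (tk S π b n) (v ⊗ₜ[ℝ] v) := by
  rw [tk_inner]
  exact Ex_nonneg (p_pos _ _) fun g => av2_nonneg S fun s _ t _ => mul_self_nonneg _

theorem tk_succ (hπ : ∀ g v w, inner ℝ (π g v) (π g w) = inner ℝ v w) (n : ℕ) (v w : H) :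
    (inner ℝ (tk S π b (n + 1)) (v ⊗ₜ[ℝ] w) : ℝ) =
      av2 S fun x => inner ℝ (tk S π b n) (π x⁻¹ v ⊗ₜ[ℝ] π x⁻¹ w) := by
  unfold tk
  rw [mul_add, mul_one, add_comm, pow_add, Module.End.mul_apply, Qop_two, inner_av2]
  congr 1
  ext x
  rw [inner_rho (tac_inner hπ)]
  rfl

theorem M_eq (h : HC S H π b) (hS : S.Nonempty) (n : ℕ) (v : H) :
    M S b n v = ∑ k ∈ range n, inner ℝ (tk S π b k) (v ⊗ₜ[ℝ] v) := by
  induction n with
  | zero => rw [h.M_zero, sum_range_zero]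
  | succ n ih =>
    rw [h.M_succ hS, ih, sum_range_succ, tk_inner]
    congr 2
    ext g
    congr 1
    ext s
    rw [pow_two]

theorem M_le (h : HC S H π b) (hS : S.Nonempty) (n : ℕ) (v : H) :
    M S b n v ≤ (∑ k ∈ range n, ‖Psi (tk S π b k)‖) * ‖v‖ ^ 2 := by
  rw [M_eq h hS, sum_mul]
  apply sum_le_sum
  intro k _
  rw [← Psi_inner]
  calc (inner ℝ (Psi (tk S π b k) v) v : ℝ) ≤ ‖Psi (tk S π b k) v‖ * ‖v‖ := real_inner_le_norm _ _
    _ ≤ (‖Psi (tk S π b k)‖ * ‖v‖) * ‖v‖ :=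
      mul_le_mul_of_nonneg_right (ContinuousLinearMap.le_opNorm _ _) (norm_nonneg _)
    _ = ‖Psi (tk S π b k)‖ * ‖v‖ ^ 2 := by ring

open scoped Pointwise in
/-- if the operators tend to zero, the cocycle is trivial -/
theorem trivial_of_tendsto {d : ℕ} (hG : PG d G) (h : HC S H π b) (h1 : (1 : G) ∈ S)
    (h0 : Tendsto (fun k => ‖Psi (tk S π b k)‖) atTop (𝓝 0)) (s t : G) (hs : s ∈ S)
    (ht : t ∈ S) : b (s * t) = 0 := by
  classical
  have hS : S.Nonempty := ⟨1, h1⟩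
  set x := s * t with hx
  by_contra hb
  have hbpos : 0 < ‖b x‖ := norm_pos_iff.2 hb
  set B := ‖b x‖ with hB
  set N : ℝ := (#S : ℝ) ^ 2 with hN
  have hNpos : 0 < N := by
    have : (0 : ℝ) < #S := by exact_mod_cast hS.card_pos
    positivity
  -- the averages
  set σ : ℕ → ℝ := fun n => ∑ k ∈ range n, ‖Psi (tk S π b k)‖ with hσ
  have hces : Tendsto (fun n : ℕ => (n : ℝ)⁻¹ * σ n) atTop (𝓝 0) := h0.cesaro
  have hces' : Tendsto (fun n : ℕ => (n : ℝ)⁻¹ * ‖Psi (tk S π b n)‖) atTop (𝓝 0) := by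
    have := tendsto_inv_atTop_nhds_zero_nat (𝕜 := ℝ)
    have h2 := this.mul h0
    rwa [zero_mul] at h2
  -- the estimate at a good time
  have key : ∀ n : ℕ, 1 ≤ n → n * (Ent (p S (2 * n + 2)) - Ent (p S (2 * n))) ≤ d + 1 →
      B ^ 4 ≤ N * (d + 1) * (2 * (2 * B ^ 4 * (n : ℝ)⁻¹ +
        2 * ((n : ℝ)⁻¹ * σ n) * B ^ 2 +
        ((n : ℝ)⁻¹ * σ n + (n : ℝ)⁻¹ * ‖Psi (tk S π b n)‖) * B ^ 2)) := by
    intro n hn hgood
    have hn' : (0 : ℝ) < n := by exact_mod_cast hn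
    have hsupp : supp (lam x (p S (2 * n))) ⊆ S ^ (2 * n + 2) := supp_lam (p_supp S _) hs ht
    have hk := h.key hS n x (b x) hsupp
    rw [real_inner_self_eq_norm_sq] at hk
    have hhel : hel (S ^ (2 * n + 2)) (lam x (p S (2 * n))) (p S (2 * n + 2)) ≤
        N * ((d + 1) * (n : ℝ)⁻¹) := by
      have h2 := le_av2 (S := S)
        (f := fun s => hel (S ^ (2 * n + 2)) (lam s (p S (2 * n))) (p S (2 * n + 2)))
        (fun s _ t _ => Finset.sum_nonneg fun _ _ => by positivity) hs ht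
      have h3 := Ent_incr hS (2 * n)
      have h4 : Ent (p S (2 * n + 2)) - Ent (p S (2 * n)) ≤ (d + 1) * (n : ℝ)⁻¹ := by
        rw [← div_eq_mul_inv, le_div_iff₀ hn', mul_comm]
        exact hgood
      calc _ ≤ N * _ := h2
        _ ≤ N * _ := mul_le_mul_of_nonneg_left (h3.trans h4) hNpos.le
    have hM1 : M S b n (π x⁻¹ (b x)) ≤ σ n * B ^ 2 := by
      have := M_le h hS n (π x⁻¹ (b x))
      rwa [norm_rho h.iso] at this
    have hM2 : M S b (n + 1) (b x) ≤ (σ n + ‖Psi (tk S π b n)‖) * B ^ 2 := by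
      have := M_le h hS (n + 1) (b x)
      rwa [sum_range_succ] at this
    have hin : 2 * (2 * (B ^ 2) ^ 2 + 2 * M S b n (π x⁻¹ (b x)) + M S b (n + 1) (b x)) ≤
        2 * (2 * B ^ 4 + 2 * (σ n * B ^ 2) + (σ n + ‖Psi (tk S π b n)‖) * B ^ 2) := by
      have e1 : (B ^ 2) ^ 2 = B ^ 4 := by ring
      rw [e1]
      linarith
    have hnn : 0 ≤ 2 * (2 * (B ^ 2) ^ 2 + 2 * M S b n (π x⁻¹ (b x)) + M S b (n + 1) (b x)) := by
      have e1 := M_nonneg (S := S) (b := b) n (π x⁻¹ (b x))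
      have e2 := M_nonneg (S := S) (b := b) (n + 1) (b x)
      positivity
    calc B ^ 4 = (B ^ 2) ^ 2 := by ring
      _ ≤ _ := hk
      _ ≤ (N * ((d + 1) * (n : ℝ)⁻¹)) *
          (2 * (2 * B ^ 4 + 2 * (σ n * B ^ 2) + (σ n + ‖Psi (tk S π b n)‖) * B ^ 2)) :=
        mul_le_mul hhel hin hnn (by positivity)
      _ = _ := by ring
  have hlim : Tendsto (fun n : ℕ => N * (d + 1) * (2 * (2 * B ^ 4 * (n : ℝ)⁻¹ +
        2 * ((n : ℝ)⁻¹ * σ n) * B ^ 2 +
        ((n : ℝ)⁻¹ * σ n + (n : ℝ)⁻¹ * ‖Psi (tk S π b n)‖) * B ^ 2))) atTop (𝓝 0) := by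
    have e1 : Tendsto (fun n : ℕ => 2 * B ^ 4 * (n : ℝ)⁻¹) atTop (𝓝 (2 * B ^ 4 * 0)) :=
      (tendsto_inv_atTop_nhds_zero_nat (𝕜 := ℝ)).const_mul _
    have e2 : Tendsto (fun n : ℕ => 2 * ((n : ℝ)⁻¹ * σ n) * B ^ 2) atTop
        (𝓝 (2 * 0 * B ^ 2)) := (hces.const_mul 2).mul_const _
    have e3 : Tendsto (fun n : ℕ =>
        ((n : ℝ)⁻¹ * σ n + (n : ℝ)⁻¹ * ‖Psi (tk S π b n)‖) * B ^ 2) atTop
        (𝓝 ((0 + 0) * B ^ 2)) := (hces.add hces').mul_const _
    have e4 := (((e1.add e2).add e3).const_mul 2).const_mul (N * (d + 1))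
    have e5 : N * (d + 1) * (2 * (2 * B ^ 4 * 0 + 2 * 0 * B ^ 2 + (0 + 0) * B ^ 2)) = 0 := by
      ring
    rw [e5] at e4
    exact e4
  have hev := hlim.eventually (gt_mem_nhds (by positivity : (0 : ℝ) < B ^ 4))
  obtain ⟨n₀, hn₀⟩ := eventually_atTop.1 hev
  obtain ⟨n, hn1, hn2, hn3⟩ := good_times hG hS n₀
  exact absurd (hn₀ n hn1) (not_lt.2 (key n hn2 hn3))

/-- **The covariance operator.** -/
theorem exists_T [CompleteSpace H] {d : ℕ} (hG : PG d G) (h : HC S H π b) (h1 : (1 : G) ∈ S)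
    (hinv : ∀ s ∈ S, s⁻¹ ∈ S) (hb : (av2 S fun s => ‖b s‖ ^ 2) ≠ 0) :
    ∃ T : H →L[ℝ] H, IsCompactOperator T ∧ (∀ v w, (inner ℝ (T v) w : ℝ) = inner ℝ v (T w)) ∧
      (∀ v, (0 : ℝ) ≤ inner ℝ (T v) v) ∧
      (∀ v, (inner ℝ (T v) v : ℝ) = av2 S fun x => inner ℝ (T (π x⁻¹ v)) (π x⁻¹ v)) ∧
      (∀ v, (∀ g, inner ℝ (b g) v = (0 : ℝ)) → (inner ℝ (T v) v : ℝ) = 0) ∧ T ≠ 0 := by
  have hS : S.Nonempty := ⟨1, h1⟩
  have hSC := Qop_SC hS hinv (tac_inner h.iso)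
  have hc : CauchySeq (tk S π b) := hSC.cauchy (U S b)
  have hc2 : CauchySeq fun n => Psi (tk S π b n) := by
    rw [Metric.cauchySeq_iff'] at hc ⊢
    intro ε hε
    obtain ⟨N, hN⟩ := hc ε hε
    refine ⟨N, fun n hn => ?_⟩
    have h2 := hN n hn
    rw [dist_eq_norm] at h2 ⊢
    rw [← map_sub]
    exact (Psi_norm _).trans_lt h2
  obtain ⟨T, hT⟩ := cauchySeq_tendsto_of_complete hc2
  have hTv : ∀ v w, Tendsto (fun n => (inner ℝ (tk S π b n) (v ⊗ₜ[ℝ] w) : ℝ)) atTop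
      (𝓝 (inner ℝ (T v) w)) := by
    intro v w
    have h2 : Tendsto (fun n => Psi (tk S π b n) v) atTop (𝓝 (T v)) :=
      ((ContinuousLinearMap.apply ℝ H v).continuous.tendsto T).comp hT
    have h3 := h2.inner (𝕜 := ℝ) (tendsto_const_nhds (x := w))
    refine h3.congr fun n => ?_
    rw [Psi_inner]
  refine ⟨T, isCompactOperator_of_tendsto hT (Eventually.of_forall fun n => Psi_compact _),
    ?_, ?_, ?_, ?_, ?_⟩
  · intro v w
    rw [real_inner_comm (T w) v]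
    refine tendsto_nhds_unique (hTv v w) ?_
    exact (hTv w v).congr fun n => tk_sym S n w v
  · intro v
    exact ge_of_tendsto' (hTv v v) fun n => tk_nonneg S n v
  · intro v
    have h2 := (hTv v v).comp (tendsto_add_atTop_nat 1)
    have h3 : Tendsto (fun n => av2 S fun x =>
        (inner ℝ (tk S π b n) (π x⁻¹ v ⊗ₜ[ℝ] π x⁻¹ v) : ℝ)) atTop
        (𝓝 (av2 S fun x => inner ℝ (T (π x⁻¹ v)) (π x⁻¹ v))) :=
      tendsto_av2 fun x => hTv _ _
    refine tendsto_nhds_unique h2 ?_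
    refine h3.congr fun n => ?_
    exact (tk_succ h.iso n v v).symm
  · intro v hv
    have h2 : ∀ n, (inner ℝ (tk S π b n) (v ⊗ₜ[ℝ] v) : ℝ) = 0 := by
      intro n
      have h3 : M S b (n + 1) v = 0 := by
        unfold M
        simp only [hv]
        have h4 : (fun _ : G => (0 : ℝ) ^ 2) = fun _ => 0 := by
          ext
          norm_num
        rw [h4, Ex_const, smul_zero]
      rw [M_eq h hS, sum_range_succ] at h3
      have h4 : 0 ≤ ∑ k ∈ range n, (inner ℝ (tk S π b k) (v ⊗ₜ[ℝ] v) : ℝ) :=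
        Finset.sum_nonneg fun k _ => tk_nonneg S k v
      have h5 := tk_nonneg (π := π) (b := b) S n v
      linarith
    refine tendsto_nhds_unique (hTv v v) ?_
    simp only [h2]
    exact tendsto_const_nhds
  · intro hT0
    apply hb
    have h2 : Tendsto (fun k => ‖Psi (tk S π b k)‖) atTop (𝓝 0) := by
      have h3 := hT.norm
      rwa [hT0, norm_zero] at h3
    have h3 : ∀ s ∈ S, ∀ t ∈ S, ‖b (s * t)‖ ^ 2 = 0 := by
      intro s hs t ht
      rw [trivial_of_tendsto hG h h1 h2 s t hs ht, norm_zero]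
      norm_num
    unfold av2
    rw [av_congr S fun s hs => av_congr S fun t ht => h3 s hs t ht]
    rw [av_const hS, av_const hS]

end cov

end Pool.Agent.J4H54.GR
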