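import Pool.Agent.J4H54.GR.VS
import Pool.Agent.J4H54.GR.Ker

set_option autoImplicit false
set_option linter.unusedSectionVars false

/-!
# Ultraproducts of groups, and sequences of groups whose limit has polynomial growth
-/

namespace Pool.Agent.J4H54.GR

open Filter Subgroup
open scoped Pointwise

section ultra

variable (U : Ultrafilter ℕ) (Γ : ℕ → Type) [∀ i, Group (Γ i)]

/-- the sequences which are almost always trivial -/
def NU : Subgroup (∀ i, Γ i) where
  carrier := {f | ∀ᶠ i in (U : Filter ℕ), f i = 1}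
  one_mem' := by
    show ∀ᶠ i in (U : Filter ℕ), (1 : ∀ i, Γ i) i = 1
    exact Eventually.of_forall fun i => rfl
  mul_mem' := by
    intro f g hf hg
    show ∀ᶠ i in (U : Filter ℕ), (f * g) i = 1
    filter_upwards [hf, hg] with i h1 h2
    rw [Pi.mul_apply, h1, h2, one_mul]
  inv_mem' := by
    intro f hf
    show ∀ᶠ i in (U : Filter ℕ), f⁻¹ i = 1
    filter_upwards [hf] with i h1
    rw [Pi.inv_apply, h1, inv_one]

instance : (NU U Γ).Normal where
  conj_mem := by
    intro f hf g
    show ∀ᶠ i in (U : Filter ℕ), (g * f * g⁻¹) i = 1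
    filter_upwards [hf] with i h1
    rw [Pi.mul_apply, Pi.mul_apply, h1, mul_one, Pi.inv_apply, mul_inv_cancel]

/-- the ultraproduct -/
abbrev UP : Type := (∀ i, Γ i) ⧸ NU U Γ

variable {U Γ}

/-- the class of a sequence -/
def cl (U : Ultrafilter ℕ) (f : ∀ i, Γ i) : UP U Γ := QuotientGroup.mk f

theorem cl_eq {f g : ∀ i, Γ i} : cl U f = cl U g ↔ ∀ᶠ i in (U : Filter ℕ), f i = g i := by
  unfold cl
  rw [QuotientGroup.eq]
  constructor
  · intro h
    have h' : ∀ᶠ i in (U : Filter ℕ), (f⁻¹ * g) i = 1 := h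
    filter_upwards [h'] with i hi
    rw [Pi.mul_apply, Pi.inv_apply] at hi
    exact inv_mul_eq_one.1 hi
  · intro h
    show ∀ᶠ i in (U : Filter ℕ), (f⁻¹ * g) i = 1
    filter_upwards [h] with i hi
    rw [Pi.mul_apply, Pi.inv_apply, hi, inv_mul_cancel]

theorem cl_surj (z : UP U Γ) : ∃ f, cl U f = z := QuotientGroup.mk_surjective z

theorem cl_mul (f g : ∀ i, Γ i) : cl U (f * g) = cl U f * cl U g := rfl
theorem cl_inv (f : ∀ i, Γ i) : cl U f⁻¹ = (cl U f)⁻¹ := rfl
theorem cl_one : cl U (1 : ∀ i, Γ i) = 1 := rfl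

/-- transfer of membership in finitely generated subgroups -/
theorem transfer {ι : Type} (x : ι → ∀ i, Γ i) {z : UP U Γ}
    (hz : z ∈ closure (Set.range fun j => cl U (x j))) (y : ∀ i, Γ i) (hy : cl U y = z) :
    ∀ᶠ i in (U : Filter ℕ), y i ∈ closure (Set.range fun j => x j i) := by
  induction hz using closure_induction generalizing y with
  | mem s hs =>
    obtain ⟨j, rfl⟩ := hs
    filter_upwards [cl_eq.1 hy] with i hi
    rw [hi]
    exact subset_closure ⟨j, rfl⟩
  | one =>
    filter_upwards [cl_eq.1 (hy.trans cl_one.symm)] with i hi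
    rw [hi]
    exact Subgroup.one_mem _
  | mul a b _ _ ha hb =>
    obtain ⟨f, hf⟩ := cl_surj a
    obtain ⟨g, hg⟩ := cl_surj b
    have h1 : cl U y = cl U (f * g) := by rw [cl_mul, hf, hg, hy]
    filter_upwards [cl_eq.1 h1, ha f hf, hb g hg] with i hi h2 h3
    rw [hi]
    exact Subgroup.mul_mem _ h2 h3
  | inv a _ ha =>
    obtain ⟨f, hf⟩ := cl_surj a
    have h1 : cl U y = cl U f⁻¹ := by rw [cl_inv, hf, hy]
    filter_upwards [cl_eq.1 h1, ha f hf] with i hi h2
    rw [hi]
    exact Subgroup.inv_mem _ h2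

end ultra

section main

variable {U : Ultrafilter ℕ} {Γ : ℕ → Type} [∀ i, Group (Γ i)]

/-- the case of a finite limit -/
theorem main_finite {k : ℕ} (x : Fin k → ∀ i, Γ i)
    (hfin : Finite (closure (Set.range fun j => cl U (x j)))) :
    ∃ m e, ∀ᶠ i in (U : Filter ℕ), VS m e (closure (Set.range fun j => x j i)) := by
  set X := closure (Set.range fun j => cl U (x j)) with hX
  choose c hc using fun a : X => cl_surj (a : UP U Γ)
  have hxX : ∀ j, cl U (x j) ∈ X := fun j => subset_closure ⟨j, rfl⟩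
  refine ⟨1 * Nat.card X, 0, ?_⟩
  have h1 : ∀ᶠ i in (U : Filter ℕ), c 1 i = 1 := by
    have := hc 1
    exact cl_eq.1 (this.trans cl_one.symm)
  have h2 : ∀ j, ∀ a : X, ∀ᶠ i in (U : Filter ℕ),
      (c (⟨cl U (x j), hxX j⟩ * a) i)⁻¹ * (x j i * c a i) = 1 := by
    intro j a
    have h3 : cl U (c (⟨cl U (x j), hxX j⟩ * a)) = cl U (x j * c a) := by
      rw [hc, cl_mul, hc]
      rfl
    filter_upwards [cl_eq.1 h3] with i hi
    rw [hi, Pi.mul_apply, inv_mul_cancel]
  have h3 : ∀ j, ∀ a : X, ∀ᶠ i in (U : Filter ℕ),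
      (c (⟨cl U (x j), hxX j⟩⁻¹ * a) i)⁻¹ * ((x j i)⁻¹ * c a i) = 1 := by
    intro j a
    have h3 : cl U (c (⟨cl U (x j), hxX j⟩⁻¹ * a)) = cl U ((x j)⁻¹ * c a) := by
      rw [hc, cl_mul, hc]
      rfl
    filter_upwards [cl_eq.1 h3] with i hi
    rw [hi, Pi.mul_apply, Pi.inv_apply, inv_mul_cancel]
  have h2' : ∀ᶠ i in (U : Filter ℕ), ∀ j, ∀ a : X,
      (c (⟨cl U (x j), hxX j⟩ * a) i)⁻¹ * (x j i * c a i) = 1 := by
    rw [eventually_all]
    intro j
    rw [eventually_all]
    exact h2 j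
  have h3' : ∀ᶠ i in (U : Filter ℕ), ∀ j, ∀ a : X,
      (c (⟨cl U (x j), hxX j⟩⁻¹ * a) i)⁻¹ * ((x j i)⁻¹ * c a i) = 1 := by
    rw [eventually_all]
    intro j
    rw [eventually_all]
    exact h3 j
  filter_upwards [h1, h2', h3'] with i e1 e2 e3
  have h4 := coset_lemma (fun j => x j i) (⊥ : Subgroup (Γ i)) (fun a : X => c a i)
    ⟨1, e1⟩ (fun j a => ⟨_, e2 j a⟩) (fun j a => ⟨_, e3 j a⟩)
  refine vs_index (L := ⊥) ⟨⊥, le_rfl, ?_, ?_, rfl⟩ h4.1 h4.2
  · rw [relIndex_self]
    exact one_ne_zero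
  · rw [relIndex_self]

/-- **Sequences of groups whose limit has polynomial growth.** -/
theorem main_ultra (d : ℕ) : ∀ (k : ℕ) (x : Fin k → ∀ i, Γ i),
    PG d (closure (Set.range fun j => cl U (x j))) →
    ∃ m e, ∀ᶠ i in (U : Filter ℕ), VS m e (closure (Set.range fun j => x j i)) := by
  induction d with
  | zero =>
    intro k x hPG
    have : Group.FG (closure (Set.range fun j => cl U (x j))) :=
      Group.closure_finite_fg _
    exact main_finite x hPG.finite
  | succ d ih =>
    intro k x hPG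
    set X := closure (Set.range fun j => cl U (x j)) with hX
    have hfg : Group.FG X := Group.closure_finite_fg _
    by_cases hfin : Finite X
    · exact main_finite x hfin
    rw [not_finite_iff_infinite] at hfin
    obtain ⟨L, hLi, φ, hφ⟩ := gromov_step hPG
    have hLfg : Group.FG L := inferInstance
    have hLPG : PG (d + 1) L := hPG.subgroup L
    obtain ⟨F, hF⟩ := ker_fg hLPG φ hφ
    have hKPG : PG d φ.ker := hLPG.ker φ hφ
    obtain ⟨t, ht⟩ := hφ (Multiplicative.ofAdd 1)
    -- enumerate the generators of the kernel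
    obtain ⟨l, z, hz⟩ : ∃ (l : ℕ) (z : Fin l → L), Set.range z = (F : Set L) := by
      refine ⟨F.card, fun i => (F.equivFin.symm i : L), ?_⟩
      ext w
      constructor
      · rintro ⟨i, rfl⟩
        exact (F.equivFin.symm i).2
      · intro hw
        exact ⟨F.equivFin ⟨w, hw⟩, by simp⟩
    have hzker : closure (Set.range z) = φ.ker := by rw [hz, hF]
    -- the embedding of `L`
    let ι : L →* UP U Γ := X.subtype.comp L.subtype
    have hι : Function.Injective ι := fun a b h => L.subtype_injective (X.subtype_injective h)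
    choose z' hz' using fun j => cl_surj (ι (z j))
    obtain ⟨t', ht'⟩ := cl_surj (ι t)
    have hK : closure (Set.range fun j => cl U (z' j)) = φ.ker.map ι := by
      rw [← hzker, MonoidHom.map_closure, ← Set.range_comp]
      congr 2
      ext j
      exact hz' j
    have hKPG' : PG d (closure (Set.range fun j => cl U (z' j))) := by
      rw [hK]
      exact hKPG.of_injective (φ.ker.equivMapOfInjective ι hι).symm.toMonoidHom
        (φ.ker.equivMapOfInjective ι hι).symm.injective
    obtain ⟨m, e, hme⟩ := ih l z' hKPG'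
    have htr : ∀ (y : ∀ i, Γ i) (w : L), cl U y = ι w → φ w = 1 →
        ∀ᶠ i in (U : Filter ℕ), y i ∈ closure (Set.range fun j => z' j i) := by
      intro y w hy hw
      refine transfer z' ?_ y hy
      rw [hK]
      exact ⟨w, hw, rfl⟩
    -- `L` is generated by the kernel and `t`
    let zt : Option (Fin l) → ∀ i, Γ i := fun o => o.elim t' z'
    have hzt : ∀ w : L, ι w ∈ closure (Set.range fun o => cl U (zt o)) := by
      intro w
      have h1 : ι w = ι (w * t ^ (-(Multiplicative.toAdd (φ w)))) *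
          ι t ^ (Multiplicative.toAdd (φ w)) := by
        rw [← map_zpow, ← map_mul]
        congr 1
        group
      rw [h1]
      have htm : ι t ∈ Subgroup.closure (Set.range fun o => cl U (zt o)) :=
        Subgroup.subset_closure ⟨none, ht'⟩
      refine Subgroup.mul_mem _ ?_ (Subgroup.zpow_mem _ htm _)
      have h2 : closure (Set.range fun j => cl U (z' j)) ≤
          closure (Set.range fun o => cl U (zt o)) := by
        apply Subgroup.closure_mono
        rintro _ ⟨j, rfl⟩
        exact ⟨some j, rfl⟩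
      apply h2
      rw [hK]
      refine ⟨_, ?_, rfl⟩
      rw [SetLike.mem_coe, MonoidHom.mem_ker, map_mul, map_zpow, ht, ← ofAdd_zsmul, smul_eq_mul,
        mul_one, ofAdd_neg]
      exact mul_inv_cancel _
    have htrL : ∀ (y : ∀ i, Γ i) (w : L), cl U y = ι w →
        ∀ᶠ i in (U : Filter ℕ), y i ∈ closure (Set.range fun o => zt o i) := by
      intro y w hy
      exact transfer zt (hzt w) y hy
    -- normality
    have hnorm1 : ∀ j, ∀ᶠ i in (U : Filter ℕ),
        t' i * z' j i * (t' i)⁻¹ ∈ closure (Set.range fun j => z' j i) := by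
      intro j
      refine htr (t' * z' j * t'⁻¹) (t * z j * t⁻¹) ?_ ?_
      · rw [cl_mul, cl_mul, cl_inv, ht', hz', map_mul, map_mul, map_inv]
      · have h1 : φ (z j) = 1 := by
          have : z j ∈ φ.ker := hzker ▸ subset_closure ⟨j, rfl⟩
          exact this
        rw [map_mul, map_mul, h1, mul_one, ← map_mul, mul_inv_cancel, map_one]
    have hnorm2 : ∀ j, ∀ᶠ i in (U : Filter ℕ),
        (t' i)⁻¹ * z' j i * t' i ∈ closure (Set.range fun j => z' j i) := by
      intro j
      refine htr (t'⁻¹ * z' j * t') (t⁻¹ * z j * t) ?_ ?_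
      · rw [cl_mul, cl_mul, cl_inv, ht', hz', map_mul, map_mul, map_inv]
      · have h1 : φ (z j) = 1 := by
          have : z j ∈ φ.ker := hzker ▸ subset_closure ⟨j, rfl⟩
          exact this
        rw [map_mul, map_mul, h1, mul_one, ← map_mul, inv_mul_cancel, map_one]
    -- coset representatives
    have hA : Finite (X ⧸ L) := Subgroup.finite_quotient_of_finiteIndex
    choose c hc using fun a : X ⧸ L => cl_surj (((Quotient.out a : X)) : UP U Γ)
    have hxX : ∀ j, cl U (x j) ∈ X := fun j => subset_closure ⟨j, rfl⟩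
    have hcos : ∀ (y : ∀ i, Γ i) (w : X), cl U y = w → ∀ a : X ⧸ L, ∃ b : X ⧸ L,
        ∀ᶠ i in (U : Filter ℕ), (c b i)⁻¹ * (y i * c a i) ∈
          closure (Set.range fun o => zt o i) := by
      intro y w hy a
      refine ⟨QuotientGroup.mk (w * Quotient.out a), ?_⟩
      set b : X ⧸ L := QuotientGroup.mk (w * Quotient.out a) with hb
      have h1 : (Quotient.out b)⁻¹ * (w * Quotient.out a) ∈ L := by
        rw [← QuotientGroup.eq, QuotientGroup.out_eq', hb]
      refine htrL ((c b)⁻¹ * (y * c a)) ⟨_, h1⟩ ?_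
      rw [cl_mul, cl_mul, cl_inv, hc, hc, hy]
      rfl
    have hone : ∃ a : X ⧸ L, ∀ᶠ i in (U : Filter ℕ), c a i ∈
        closure (Set.range fun o => zt o i) := by
      refine ⟨QuotientGroup.mk 1, ?_⟩
      have h1 : (Quotient.out (QuotientGroup.mk 1 : X ⧸ L) : X) ∈ L := by
        have h2 : (1 : X)⁻¹ * Quotient.out (QuotientGroup.mk 1 : X ⧸ L) ∈ L := by
          rw [← QuotientGroup.eq, QuotientGroup.out_eq']
        rwa [inv_one, one_mul] at h2
      exact htrL _ ⟨_, h1⟩ (hc _)
    obtain ⟨a₀, ha₀⟩ := hone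
    choose b1 hb1 using fun j => hcos (x j) ⟨cl U (x j), hxX j⟩ rfl
    choose b2 hb2 using fun j => hcos (x j)⁻¹ ⟨cl U (x j), hxX j⟩⁻¹ rfl
    refine ⟨bd m l * Nat.card (X ⧸ L), e + 1, ?_⟩
    have hb1' := eventually_all.2 fun j => eventually_all.2 fun a => hb1 j a
    have hb2' := eventually_all.2 fun j => eventually_all.2 fun a => hb2 j a
    filter_upwards [hme, eventually_all.2 hnorm1, eventually_all.2 hnorm2, ha₀, hb1', hb2']
      with i h1 h2 h3 h4 h5 h6
    set Ki := closure (Set.range fun j => z' j i) with hKi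
    set Li := closure (Set.range fun o => zt o i) with hLi
    have hKL : Ki ≤ Li := by
      apply Subgroup.closure_mono
      rintro _ ⟨j, rfl⟩
      exact ⟨some j, rfl⟩
    have htL : t' i ∈ Li := subset_closure ⟨none, rfl⟩
    have hc1 : ∀ k ∈ Ki, t' i * k * (t' i)⁻¹ ∈ Ki := by
      have h7 : Ki ≤ Ki.comap (MulAut.conj (t' i)).toMonoidHom := by
        conv_lhs => rw [hKi]
        rw [closure_le]
        rintro _ ⟨j, rfl⟩
        exact h2 j
      intro k hk
      exact h7 hk
    have hc2 : ∀ k ∈ Ki, (t' i)⁻¹ * k * t' i ∈ Ki := by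
      have h7 : Ki ≤ Ki.comap (MulAut.conj (t' i)⁻¹).toMonoidHom := by
        conv_lhs => rw [hKi]
        rw [closure_le]
        rintro _ ⟨j, rfl⟩
        show (t' i)⁻¹ * z' j i * ((t' i)⁻¹)⁻¹ ∈ Ki
        rw [inv_inv]
        exact h3 j
      intro k hk
      have h8 : (t' i)⁻¹ * k * ((t' i)⁻¹)⁻¹ ∈ Ki := h7 hk
      rwa [inv_inv] at h8
    have hnorm : ∀ g ∈ Li, (∀ k ∈ Ki, g * k * g⁻¹ ∈ Ki) ∧ ∀ k ∈ Ki, g⁻¹ * k * g ∈ Ki := by
      intro g hg
      induction hg using closure_induction with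
      | mem s hs =>
        obtain ⟨o, rfl⟩ := hs
        cases o with
        | none => exact ⟨hc1, hc2⟩
        | some j =>
          have h7 : z' j i ∈ Ki := subset_closure ⟨j, rfl⟩
          exact ⟨fun k hk => Ki.mul_mem (Ki.mul_mem h7 hk) (Ki.inv_mem h7),
            fun k hk => Ki.mul_mem (Ki.mul_mem (Ki.inv_mem h7) hk) h7⟩
      | one =>
        refine ⟨fun k hk => ?_, fun k hk => ?_⟩
        · rwa [one_mul, inv_one, mul_one]
        · rwa [inv_one, one_mul, mul_one]
      | mul a b _ _ ha hb =>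
        refine ⟨fun k hk => ?_, fun k hk => ?_⟩
        · have := ha.1 _ (hb.1 k hk)
          have e1 : a * b * k * (a * b)⁻¹ = a * (b * k * b⁻¹) * a⁻¹ := by group
          rwa [e1]
        · have := hb.2 _ (ha.2 k hk)
          have e1 : (a * b)⁻¹ * k * (a * b) = b⁻¹ * (a⁻¹ * k * a) * b := by group
          rwa [e1]
      | inv a _ ha =>
        refine ⟨fun k hk => ?_, fun k hk => ?_⟩
        · rw [inv_inv]
          exact ha.2 k hk
        · rw [inv_inv]
          exact ha.1 k hk
    have hmod : ∀ g ∈ Li, ∃ n : ℤ, (t' i) ^ n * g⁻¹ ∈ Ki := by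
      intro g hg
      induction hg using closure_induction with
      | mem s hs =>
        obtain ⟨o, rfl⟩ := hs
        cases o with
        | none =>
          refine ⟨1, ?_⟩
          show (t' i) ^ (1 : ℤ) * (t' i)⁻¹ ∈ Ki
          rw [zpow_one, mul_inv_cancel]
          exact Ki.one_mem
        | some j =>
          refine ⟨0, ?_⟩
          show (t' i) ^ (0 : ℤ) * (z' j i)⁻¹ ∈ Ki
          rw [zpow_zero, one_mul]
          exact Ki.inv_mem (subset_closure ⟨j, rfl⟩)
      | one => exact ⟨0, by rw [zpow_zero, inv_one, mul_one]; exact Ki.one_mem⟩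
      | mul a b _ hb ha' hb' =>
        obtain ⟨n, hn⟩ := ha'
        obtain ⟨n', hn'⟩ := hb'
        refine ⟨n + n', ?_⟩
        have e1 : (t' i) ^ (n + n') * (a * b)⁻¹ =
            ((t' i) ^ n * ((t' i) ^ n' * b⁻¹) * ((t' i) ^ n)⁻¹) * ((t' i) ^ n * a⁻¹) := by
          rw [zpow_add]
          group
        rw [e1]
        exact Ki.mul_mem ((hnorm _ (Li.zpow_mem htL n)).1 _ hn') hn
      | inv a _ ha' =>
        obtain ⟨n, hn⟩ := ha'
        refine ⟨-n, ?_⟩
        have e1 : (t' i) ^ (-n) * (a⁻¹)⁻¹ =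
            (t' i) ^ (-n) * ((t' i) ^ n * a⁻¹)⁻¹ * ((t' i) ^ (-n))⁻¹ := by
          group
        rw [e1]
        exact (hnorm _ (Li.zpow_mem htL (-n))).1 _ (Ki.inv_mem hn)
    have h7 := vs_cyclic' Ki Li hKL (fun j => z' j i) rfl (t' i) htL
      (fun g hg k hk => (hnorm g hg).1 k hk) hmod h1
    have h8 := coset_lemma (fun j => x j i) Li (fun a : X ⧸ L => c a i) ⟨a₀, h4⟩
      (fun j a => ⟨b1 j a, h5 j a⟩) (fun j a => ⟨b2 j a, h6 j a⟩)
    exact vs_index h7 h8.1 h8.2

end main

end Pool.Agent.J4H54.GR
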