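import Pool.Agent.J4H54.DL.Basic

set_option autoImplicit false
set_option linter.unusedSectionVars false

/-!
# Virtually solvable groups, quantitatively
-/

namespace Pool.Agent.J4H54.GR

open Subgroup Pool.Agent.J4H54.DL
open scoped commutatorElement

/-- `H` has a subgroup of index at most `m` with derived length at most `e` -/
def VS {G : Type} [Group G] (m e : ℕ) (H : Subgroup G) : Prop :=
  ∃ M ≤ H, M.relIndex H ≠ 0 ∧ M.relIndex H ≤ m ∧ ds M e = ⊥

section char

variable {K : Type} [Group K]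

/-- the common kernel of all actions on a set of `n` elements -/
def ck (K : Type) [Group K] (n : ℕ) : K →* ((K →* Equiv.Perm (Fin n)) → Equiv.Perm (Fin n)) where
  toFun k f := f k
  map_one' := by ext f; simp
  map_mul' a b := by ext f; simp

theorem mem_ck {n : ℕ} {k : K} : k ∈ (ck K n).ker ↔ ∀ f : K →* Equiv.Perm (Fin n), f k = 1 := by
  rw [MonoidHom.mem_ker]
  exact funext_iff

instance ck_char (n : ℕ) : (ck K n).ker.Characteristic := by
  rw [characteristic_iff_le_comap]
  intro ϕ k hk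
  rw [mem_comap, mem_ck]
  intro f
  exact mem_ck.1 hk (f.comp ϕ.toMonoidHom)

theorem hom_count {l : ℕ} (x : Fin l → K) (hx : closure (Set.range x) = ⊤) (n : ℕ) :
    Finite (K →* Equiv.Perm (Fin n)) ∧
      Nat.card (K →* Equiv.Perm (Fin n)) ≤ n.factorial ^ l := by
  have hinj : Function.Injective fun (f : K →* Equiv.Perm (Fin n)) (i : Fin l) => f (x i) := by
    intro f g h
    apply MonoidHom.eq_of_eqOn_dense hx
    rintro _ ⟨i, rfl⟩
    exact congrFun h i
  have h1 : Finite (K →* Equiv.Perm (Fin n)) := Finite.of_injective _ hinj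
  refine ⟨h1, (Nat.card_le_card_of_injective _ hinj).trans (le_of_eq ?_)⟩
  rw [Nat.card_fun, Nat.card_perm, Nat.card_fin, Nat.card_fin]

theorem ck_index {l : ℕ} (x : Fin l → K) (hx : closure (Set.range x) = ⊤) (n : ℕ) :
    (ck K n).ker.index ≠ 0 ∧
      (ck K n).ker.index ≤ n.factorial ^ (n.factorial ^ l) := by
  obtain ⟨h1, h2⟩ := hom_count x hx n
  rw [index_ker]
  refine ⟨Nat.card_pos.ne', ?_⟩
  refine (Nat.card_le_card_of_injective (Subtype.val : (ck K n).range → _)
    Subtype.val_injective).trans ?_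
  rw [Nat.card_fun, Nat.card_perm, Nat.card_fin]
  exact Nat.pow_le_pow_right n.factorial_pos h2

theorem ck_le (M : Subgroup K) (hM : M.index ≠ 0) : (ck K M.index).ker ≤ M := by
  intro k hk
  have hfin : Finite (K ⧸ M) := Nat.finite_of_card_ne_zero hM
  let e : (K ⧸ M) ≃ Fin M.index := Finite.equivFinOfCardEq rfl
  let f : K →* Equiv.Perm (Fin M.index) :=
    (e.permCongrHom.toMonoidHom).comp (MulAction.toPermHom K (K ⧸ M))
  have h1 := mem_ck.1 hk f
  have h2 : MulAction.toPermHom K (K ⧸ M) k = 1 := by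
    have h3 : e.permCongrHom (MulAction.toPermHom K (K ⧸ M) k) = 1 := h1
    rwa [map_eq_one_iff _ e.permCongrHom.injective] at h3
  have h3 : k • (QuotientGroup.mk 1 : K ⧸ M) = QuotientGroup.mk 1 := by
    have := congrArg (fun σ : Equiv.Perm (K ⧸ M) => σ (QuotientGroup.mk 1)) h2
    exact this
  rw [MulAction.Quotient.smul_mk, smul_eq_mul, mul_one] at h3
  have h4 := QuotientGroup.eq.1 h3
  rw [mul_one] at h4
  exact (inv_mem_iff (H := M)).1 h4

end char

/-- the index bound -/
def bd (m l : ℕ) : ℕ := (m.factorial ^ (m.factorial ^ l)).factorial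

theorem card_mulAut_le (K : Type) [Group K] [Finite K] :
    Finite (MulAut K) ∧ Nat.card (MulAut K) ≤ (Nat.card K).factorial := by
  have hinj : Function.Injective fun σ : MulAut K => σ.toEquiv := by
    intro σ τ h
    ext x
    exact congrArg (fun f : K ≃ K => f x) h
  have : Finite (MulAut K) := Finite.of_injective _ hinj
  refine ⟨this, (Nat.card_le_card_of_injective _ hinj).trans (le_of_eq ?_)⟩
  exact Nat.card_perm

section ext

variable {L : Type} [Group L]

/-- extensions by cyclic groups -/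
theorem vs_cyclic (K : Subgroup L) [K.Normal] {l : ℕ} (x : Fin l → K)
    (hx : closure (Set.range x) = ⊤) (t : L) (ht : ∀ g : L, ∃ n : ℤ, t ^ n * g⁻¹ ∈ K) {m e : ℕ}
    (hM : VS m e K) : VS (bd m l) (e + 1) (⊤ : Subgroup L) := by
  obtain ⟨M, hMK, hM0, hMm, hMe⟩ := hM
  set M' : Subgroup K := M.subgroupOf K with hM'
  have hi0 : M'.index ≠ 0 := hM0
  have him : M'.index ≤ m := hMm
  set N : Subgroup K := (ck K M'.index).ker with hN
  have hNM : N ≤ M' := ck_le M' hi0
  obtain ⟨hN0, hN1⟩ := ck_index x hx M'.index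
  set NL : Subgroup L := N.map K.subtype with hNL
  have : NL.Normal := inferInstance
  have hNLM : NL ≤ M := by
    rintro _ ⟨k, hk, rfl⟩
    exact hNM hk
  let π : L →* L ⧸ NL := QuotientGroup.mk' NL
  let Kb : Subgroup (L ⧸ NL) := K.map π
  have : Kb.Normal := Subgroup.Normal.map inferInstance π (QuotientGroup.mk'_surjective NL)
  have hKb : Nat.card Kb = N.index := by
    have h1 : Kb = (π.comp K.subtype).range := by
      rw [MonoidHom.range_comp, Subgroup.range_subtype]
    have h2 : (π.comp K.subtype).ker = N := by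
      ext k
      rw [MonoidHom.mem_ker, MonoidHom.comp_apply]
      show (QuotientGroup.mk (k : L) : L ⧸ NL) = 1 ↔ _
      rw [QuotientGroup.eq_one_iff, hNL, mem_map]
      constructor
      · rintro ⟨k', hk', h3⟩
        have h4 : k' = k := Subtype.ext h3
        rwa [← h4]
      · intro hk
        exact ⟨k, hk, rfl⟩
    rw [h1, ← index_ker, h2]
  have hKbf : Finite Kb := Nat.finite_of_card_ne_zero (by rw [hKb]; exact hN0)
  obtain ⟨hA1, hA2⟩ := card_mulAut_le Kb
  let ψ : L →* MulAut Kb := MulAut.conjNormal.comp π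
  set D : Subgroup L := ψ.ker with hD
  have hcomm : ∀ g ∈ D, ∀ k ∈ Kb, π g * k = k * π g := by
    intro g hg k hk
    have h1 : MulAut.conjNormal (π g) = (1 : MulAut Kb) := hg
    have h2 := congrArg (fun σ : MulAut Kb => ((σ ⟨k, hk⟩ : Kb) : L ⧸ NL)) h1
    simp only [MulAut.conjNormal_apply, MulAut.one_apply] at h2
    exact mul_inv_eq_iff_eq_mul.1 h2
  refine ⟨D, le_top, ?_, ?_, ?_⟩
  · rw [relIndex_top_right, hD, index_ker]
    exact Nat.card_pos.ne'
  · rw [relIndex_top_right, hD, index_ker]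
    refine (Nat.card_le_card_of_injective (Subtype.val : ψ.range → _)
      Subtype.val_injective).trans (hA2.trans ?_)
    rw [hKb]
    unfold bd
    apply Nat.factorial_le
    refine hN1.trans ?_
    have h1 : M'.index.factorial ≤ m.factorial := Nat.factorial_le him
    exact (Nat.pow_le_pow_left h1 _).trans
      (Nat.pow_le_pow_right m.factorial_pos (Nat.pow_le_pow_left h1 _))
  · rw [Nat.add_comm]
    refine ds_comp (K := NL) ?_ (le_bot_iff.1 (hMe ▸ ds_mono hNLM e))
    show ⁅D, D⁆ ≤ NL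
    rw [commutator_le]
    -- the image of `D` is commutative
    let Db : Subgroup (L ⧸ NL) := D.map π
    let f : Db →* (L ⧸ NL) ⧸ Kb := (QuotientGroup.mk' Kb).comp Db.subtype
    have hcyc : IsCyclic ((L ⧸ NL) ⧸ Kb) := by
      refine ⟨QuotientGroup.mk' Kb (π t), fun q => ?_⟩
      obtain ⟨q, rfl⟩ := QuotientGroup.mk'_surjective Kb q
      obtain ⟨g, rfl⟩ := QuotientGroup.mk'_surjective NL q
      obtain ⟨n, hn⟩ := ht g
      refine ⟨n, ?_⟩
      show (QuotientGroup.mk' Kb (π t)) ^ n = QuotientGroup.mk' Kb (π g)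
      rw [← map_zpow, ← map_zpow]
      apply (QuotientGroup.eq_iff_div_mem (N := Kb)).2
      rw [div_eq_mul_inv, ← map_inv, ← map_mul]
      exact ⟨_, hn, rfl⟩
    have hker : f.ker ≤ center Db := by
      intro c hc
      rw [MonoidHom.mem_ker] at hc
      have h1 : (c : L ⧸ NL) ∈ Kb := (QuotientGroup.eq_one_iff _).1 hc
      rw [mem_center_iff]
      rintro ⟨_, g, hg, rfl⟩
      exact Subtype.ext (hcomm g hg _ h1)
    intro a ha b hb
    have h1 := (f.isMulCommutative_of_isCyclic_of_ker_le_center hker).is_comm.comm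
      ⟨π a, a, ha, rfl⟩ ⟨π b, b, hb, rfl⟩
    have h2 : π a * π b = π b * π a := congrArg Subtype.val h1
    apply (QuotientGroup.eq_one_iff (N := NL) _).1
    show π ⁅a, b⁆ = 1
    rw [map_commutatorElement, commutatorElement_eq_one_iff_mul_comm]
    exact h2

end ext

section trans

variable {G : Type} [Group G]

/-- moving to subgroups of the whole group -/
theorem vs_cyclic' (K L : Subgroup G) (hKL : K ≤ L) {l : ℕ} (x : Fin l → G)
    (hx : closure (Set.range x) = K) (t : G) (htL : t ∈ L)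
    (hnorm : ∀ g ∈ L, ∀ k ∈ K, g * k * g⁻¹ ∈ K)
    (ht : ∀ g ∈ L, ∃ n : ℤ, t ^ n * g⁻¹ ∈ K) {m e : ℕ} (hM : VS m e K) :
    VS (bd m l) (e + 1) L := by
  set K' : Subgroup L := K.subgroupOf L with hK'
  have hn : K'.Normal := by
    constructor
    intro k hk g
    exact hnorm g g.2 k hk
  have hKi : Function.Injective (L.subtype) := L.subtype_injective
  have hmap : K'.map L.subtype = K := by
    rw [hK', subgroupOf_map_subtype]
    exact inf_eq_left.2 hKL
  have hxK : ∀ i, x i ∈ K := fun i => hx ▸ subset_closure ⟨i, rfl⟩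
  let x' : Fin l → K' := fun i => ⟨⟨x i, hKL (hxK i)⟩, hxK i⟩
  have hx' : closure (Set.range x') = ⊤ := by
    have h1 : (closure (Set.range x')).map (L.subtype.comp K'.subtype) =
        (⊤ : Subgroup K').map (L.subtype.comp K'.subtype) := by
      rw [MonoidHom.map_closure, ← Set.range_comp, ← MonoidHom.range_eq_map,
        MonoidHom.range_comp, range_subtype, hmap]
      exact hx
    have h2 : Function.Injective (L.subtype.comp K'.subtype) := by
      intro a b hab
      exact K'.subtype_injective (hKi hab)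
    exact map_injective h2 h1
  obtain ⟨M, hMK, hM0, hMm, hMe⟩ := hM
  have hMK' : VS m e K' := by
    refine ⟨M.subgroupOf L, ?_, ?_, ?_, ?_⟩
    · intro z hz
      exact hMK hz
    · have h1 := relIndex_map_map_of_injective (M.subgroupOf L) K' hKi
      rw [hmap, subgroupOf_map_subtype, inf_eq_left.2 (hMK.trans hKL)] at h1
      rw [← h1]
      exact hM0
    · have h1 := relIndex_map_map_of_injective (M.subgroupOf L) K' hKi
      rw [hmap, subgroupOf_map_subtype, inf_eq_left.2 (hMK.trans hKL)] at h1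
      rw [← h1]
      exact hMm
    · apply map_injective hKi
      rw [ds_map, subgroupOf_map_subtype, inf_eq_left.2 (hMK.trans hKL), hMe, Subgroup.map_bot]
  obtain ⟨D, -, hD0, hD1, hD2⟩ := vs_cyclic K' x' hx' ⟨t, htL⟩ (fun g => by
    obtain ⟨n, hn⟩ := ht g g.2
    exact ⟨n, hn⟩) hMK'
  refine ⟨D.map L.subtype, ?_, ?_, ?_, ?_⟩
  · exact map_subtype_le D
  · have h1 := relIndex_map_map_of_injective D ⊤ hKi
    rw [← MonoidHom.range_eq_map, range_subtype] at h1
    rw [h1]
    exact hD0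
  · have h1 := relIndex_map_map_of_injective D ⊤ hKi
    rw [← MonoidHom.range_eq_map, range_subtype] at h1
    rw [h1]
    exact hD1
  · rw [← ds_map, hD2, Subgroup.map_bot]

/-- finite index overgroups -/
theorem vs_index {X L : Subgroup G} {m n e : ℕ} (hL : VS m e L) (h0 : L.relIndex X ≠ 0)
    (hn : L.relIndex X ≤ n) : VS (m * n) e X := by
  obtain ⟨M, hML, hM0, hMm, hMe⟩ := hL
  have h1 : (M ⊓ X).relIndex X = (M ⊓ X).relIndex (L ⊓ X) * (L ⊓ X).relIndex X :=
    (relIndex_mul_relIndex _ _ _ (inf_le_inf_right X hML) inf_le_right).symm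
  have h2 : (M ⊓ X).relIndex (L ⊓ X) = M.relIndex (L ⊓ X) := by
    have h3 : M ⊓ X = M ⊓ (L ⊓ X) := by
      rw [← inf_assoc, inf_eq_left.2 hML]
    rw [h3, inf_relIndex_right]
  have h3 : M.relIndex (L ⊓ X) ≠ 0 := fun h => hM0 (relIndex_eq_zero_of_le_right inf_le_left h)
  have h4 : M.relIndex (L ⊓ X) ≤ M.relIndex L := relIndex_le_of_le_right inf_le_left hM0
  have h5 : (L ⊓ X).relIndex X = L.relIndex X := inf_relIndex_right L X
  refine ⟨M ⊓ X, inf_le_right, ?_, ?_, ?_⟩
  · rw [h1, h2, h5]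
    exact mul_ne_zero h3 h0
  · rw [h1, h2, h5]
    exact Nat.mul_le_mul (h4.trans hMm) hn
  · exact le_bot_iff.1 (hMe ▸ ds_mono inf_le_left e)

/-- covering a generated subgroup by cosets -/
theorem coset_lemma {ι A : Type} [Finite A] (x : ι → G) (L : Subgroup G) (c : A → G)
    (h1 : ∃ a, c a ∈ L) (h2 : ∀ j a, ∃ b, (c b)⁻¹ * (x j * c a) ∈ L)
    (h3 : ∀ j a, ∃ b, (c b)⁻¹ * ((x j)⁻¹ * c a) ∈ L) :
    L.relIndex (closure (Set.range x)) ≠ 0 ∧
      L.relIndex (closure (Set.range x)) ≤ Nat.card A := by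
  set X := closure (Set.range x) with hX
  have key : ∀ g ∈ X, (∀ a, ∃ b, (c b)⁻¹ * (g * c a) ∈ L) ∧ ∀ a, ∃ b, (c b)⁻¹ * (g⁻¹ * c a) ∈ L := by
    intro g hg
    induction hg using closure_induction with
    | mem s hs =>
      obtain ⟨j, rfl⟩ := hs
      exact ⟨h2 j, h3 j⟩
    | one =>
      refine ⟨fun a => ⟨a, ?_⟩, fun a => ⟨a, ?_⟩⟩
      · rw [one_mul, inv_mul_cancel]
        exact L.one_mem
      · rw [inv_one, one_mul, inv_mul_cancel]
        exact L.one_mem
    | mul y z _ _ hy hz =>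
      refine ⟨fun a => ?_, fun a => ?_⟩
      · obtain ⟨b, hb⟩ := hz.1 a
        obtain ⟨b', hb'⟩ := hy.1 b
        refine ⟨b', ?_⟩
        have e1 : (c b')⁻¹ * (y * z * c a) = (c b')⁻¹ * (y * c b) * ((c b)⁻¹ * (z * c a)) := by
          group
        rw [e1]
        exact L.mul_mem hb' hb
      · obtain ⟨b, hb⟩ := hy.2 a
        obtain ⟨b', hb'⟩ := hz.2 b
        refine ⟨b', ?_⟩
        have e1 : (c b')⁻¹ * ((y * z)⁻¹ * c a) =
            (c b')⁻¹ * (z⁻¹ * c b) * ((c b)⁻¹ * (y⁻¹ * c a)) := by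
          group
        rw [e1]
        exact L.mul_mem hb' hb
    | inv y _ hy =>
      refine ⟨hy.2, ?_⟩
      rw [inv_inv]
      exact hy.1
  obtain ⟨a₀, ha₀⟩ := h1
  have h4 : ∀ g : X, ∃ b, (c b)⁻¹ * (g : G) ∈ L := by
    intro g
    obtain ⟨b, hb⟩ := (key g g.2).1 a₀
    refine ⟨b, ?_⟩
    have e1 : (c b)⁻¹ * (g : G) = (c b)⁻¹ * (g * c a₀) * (c a₀)⁻¹ := by group
    rw [e1]
    exact L.mul_mem hb (L.inv_mem ha₀)
  choose β hβ using h4
  have hinj : Function.Injective fun q : X ⧸ L.subgroupOf X => β (Quotient.out q) := by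
    intro q q' h
    have e1 := hβ (Quotient.out q)
    have e2 := hβ (Quotient.out q')
    simp only at h
    rw [← h] at e2
    have e3 : (Quotient.out q)⁻¹ * Quotient.out q' ∈ L.subgroupOf X := by
      rw [mem_subgroupOf]
      show ((Quotient.out q : X) : G)⁻¹ * ((Quotient.out q' : X) : G) ∈ L
      have e4 : ((Quotient.out q : X) : G)⁻¹ * ((Quotient.out q' : X) : G) =
          ((c (β (Quotient.out q)))⁻¹ * ((Quotient.out q : X) : G))⁻¹ *
            ((c (β (Quotient.out q)))⁻¹ * ((Quotient.out q' : X) : G)) := by group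
      rw [e4]
      exact L.mul_mem (L.inv_mem e1) e2
    have e5 : (QuotientGroup.mk (Quotient.out q) : X ⧸ L.subgroupOf X) =
        QuotientGroup.mk (Quotient.out q') := QuotientGroup.eq.2 e3
    rwa [QuotientGroup.out_eq', QuotientGroup.out_eq'] at e5
  have hfin : Finite (X ⧸ L.subgroupOf X) := Finite.of_injective _ hinj
  exact ⟨Nat.card_pos.ne', Nat.card_le_card_of_injective _ hinj⟩

end trans

end Pool.Agent.J4H54.GR
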